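import Pool.Agent.NPC.Hard

/-!
# Unlocking an open chain nested in a convex polygon: definitions

The Euclidean plane is `ℂ`. Polynomial time, bit codes of structured data and `NP` are those of
`Pool.Agent.NPC.Defs` (Mathlib's Turing machines).
-/

namespace Pool.Agent.H263_NU

open Pool.Agent.NPC

/-- An instance: the vertices of the closed chain `C`, in order, and the vertices of the open
chain `A`, in order; all coordinates are rational numbers. -/
abbrev Instance := List (ℚ × ℚ) × List (ℚ × ℚ)

/-- The point of the plane with given rational coordinates. -/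
noncomputable def pt (p : ℚ × ℚ) : ℂ := ⟨(p.1 : ℝ), (p.2 : ℝ)⟩

/-- A position of the two chains: vertex `i` of the closed chain is at `q.1 i`, and vertex `j` of
the open chain is at `q.2 j` (only the indices smaller than the numbers of vertices matter). -/
abbrev Position := (ℕ → ℂ) × (ℕ → ℂ)

/-- The initial position, given by the instance. -/
noncomputable def start (I : Instance) : Position :=
  (fun i => pt (I.1.getD i 0), fun j => pt (I.2.getD j 0))

/-- Bar `i` of a closed chain with `k` vertices: it joins vertex `i` to vertex `i + 1`, and the
last bar joins vertex `k - 1` to vertex `0`. -/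
def cbar (k : ℕ) (c : ℕ → ℂ) (i : ℕ) : Set ℂ := segment ℝ (c i) (c ((i + 1) % k))

/-- Bar `j` of an open chain: it joins vertex `j` to vertex `j + 1`. -/
def abar (a : ℕ → ℂ) (j : ℕ) : Set ℂ := segment ℝ (a j) (a (j + 1))

/-- The position is non-self-intersecting (the closed chain has `k` vertices, the open chain has
`l` vertices): bars meet only when they are consecutive in the same chain, and then only at their
shared vertex. -/
def NonCrossing (k l : ℕ) (q : Position) : Prop :=
  (∀ i < k, ∀ i' < k, i ≠ i' → ∀ x ∈ cbar k q.1 i, x ∈ cbar k q.1 i' →
      (i' = (i + 1) % k ∧ x = q.1 i') ∨ (i = (i' + 1) % k ∧ x = q.1 i)) ∧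
    (∀ j j', j < j' → j' + 1 < l → ∀ x ∈ abar q.2 j, x ∈ abar q.2 j' →
      j' = j + 1 ∧ x = q.2 j') ∧
    ∀ i < k, ∀ j, j + 1 < l → ∀ x ∈ cbar k q.1 i, x ∉ abar q.2 j

/-- All bars have the same lengths in the two positions. -/
def SameLengths (k l : ℕ) (q q' : Position) : Prop :=
  (∀ i < k, dist (q.1 i) (q.1 ((i + 1) % k)) = dist (q'.1 i) (q'.1 ((i + 1) % k))) ∧
    ∀ j, j + 1 < l → dist (q.2 j) (q.2 (j + 1)) = dist (q'.2 j) (q'.2 (j + 1))

/-- The configuration space of the linkage of an instance: the non-self-intersecting positions
in which every bar has its length. -/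
def Space (I : Instance) : Set Position :=
  {q | SameLengths I.1.length I.2.length q (start I) ∧ NonCrossing I.1.length I.2.length q}

/-- The open chain with vertices `a 0, ..., a (l - 1)` is straightened: all joint angles are
`π`. -/
def Straight (l : ℕ) (a : ℕ → ℂ) : Prop :=
  ∀ j, j + 2 < l → EuclideanGeometry.angle (a j) (a (j + 1)) (a (j + 2)) = Real.pi

/-- Some motion of the two chains that avoids self-intersection (a path in the configuration
space) leads from the initial position to a position in which the open chain is straightened. -/
def Unlockable (I : Instance) : Prop :=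
  ∃ q, JoinedIn (Space I) (start I) q ∧ Straight I.2.length q.2

/-- Twice the signed area of the triangle `a b c`; it is positive when `c` lies to the left of the
oriented line from `a` to `b`. -/
def orient (a b c : ℂ) : ℝ := (b - a).re * (c - a).im - (b - a).im * (c - a).re

/-- The closed chain with vertices `c 0, ..., c (k - 1)` is a convex polygon: of any side, all other
vertices lie strictly on the same side, always on the left or always on the right. -/
def ConvexPolygon (k : ℕ) (c : ℕ → ℂ) : Prop :=
  3 ≤ k ∧
    ((∀ i < k, ∀ j < k, j ≠ i → j ≠ (i + 1) % k → 0 < orient (c i) (c ((i + 1) % k)) (c j)) ∨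
      ∀ i < k, ∀ j < k, j ≠ i → j ≠ (i + 1) % k → orient (c i) (c ((i + 1) % k)) (c j) < 0)

/-- The instances of NESTED-UNLOCK: `C` is a convex polygon, `A` is an open chain in the interior
of `C`, and `A ∪ C` is non-self-intersecting. -/
def Valid (I : Instance) : Prop :=
  ConvexPolygon I.1.length (start I).1 ∧ 2 ≤ I.2.length ∧
    (∀ j < I.2.length,
      (start I).2 j ∈ interior (convexHull ℝ {x | ∃ i < I.1.length, x = (start I).1 i})) ∧
    NonCrossing I.1.length I.2.length (start I)

/-- The decision problem NESTED-UNLOCK. -/
def NestedUnlock (I : Instance) : Prop := Valid I ∧ Unlockable I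

end Pool.Agent.H263_NU
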