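import Pool.Agent.H263_NU.Par

/-!
# A criterion for the chain to be simple
-/

namespace Pool.Agent.H263_NU

open Finset

/-- cross product -/
def cr (a b : ℂ) : ℝ := a.re * b.im - a.im * b.re

theorem seg_param {a b x : ℂ} (hx : x ∈ segment ℝ a b) :
    ∃ s : ℝ, 0 ≤ s ∧ s ≤ 1 ∧ x.re = (1 - s) * a.re + s * b.re ∧
      x.im = (1 - s) * a.im + s * b.im := by
  obtain ⟨u, v, hu, hv, huv, rfl⟩ := hx
  refine ⟨v, hv, by linarith, ?_, ?_⟩
  · simp only [Complex.add_re, Complex.real_smul, Complex.mul_re, Complex.ofReal_re,
      Complex.ofReal_im, zero_mul, sub_zero]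
    rw [show u = 1 - v by linarith]
  · simp only [Complex.add_im, Complex.real_smul, Complex.mul_im, Complex.ofReal_re,
      Complex.ofReal_im, zero_mul, add_zero]
    rw [show u = 1 - v by linarith]

/-- Data of a chain in the frame for which simplicity is obvious. -/
structure Good (n : ℕ) (z : ℕ → ℂ) : Prop where
  T0 : z 1 = 0
  im_nonneg : ∀ k, 1 ≤ k → k ≤ n + 3 → 0 ≤ (z k).im
  P_im : (z (n + 3)).im = 0
  mono : ∃ c : ℝ, ∀ k, 1 ≤ k → k ≤ n + 2 → (z k).re + c * (z k).im < (z (k + 1)).re + c * (z (k + 1)).im
  QS : ((z (n + 4)).im < 0 ∧ (z (n + 5)).im < 0) ∨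
    ((z (n + 4)).im = 0 ∧ (z (n + 3)).re < (z (n + 4)).re ∧
      ((z (n + 5)).im < 0 ∨ ((z (n + 5)).im = 0 ∧ (z (n + 4)).re < (z (n + 5)).re)))
  EB : cr (z (n + 3) - z (n + 4)) (z (n + 5) - z (n + 4)) ≠ 0 ∨
    ((z (n + 4)).im = 0 ∧ (z (n + 5)).im = 0)
  M : ((z 0).im = 0 ∧ (z 0).re < 0) ∨
    ((z 0).im < 0 ∧ 0 < cr (z 0) (z (n + 3)) ∧ 0 < cr (z 0) (z (n + 4)) ∧ 0 < cr (z 0) (z (n + 5)))

theorem Good.simple {n : ℕ} {z : ℕ → ℂ} (hz : Good n z) : Simple (n + 6) z := by
  obtain ⟨c, hc⟩ := hz.mono
  set g : ℂ → ℝ := fun x => x.re + c * x.im with hg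
  have hT := hz.T0
  have hg1 : g (z 1) = 0 := by simp [hg, hT]
  -- monotonicity
  have hmono : ∀ k k', 1 ≤ k → k ≤ k' → k' ≤ n + 3 → g (z k) ≤ g (z k') := by
    intro k k' h1 h2 h3
    induction k', h2 using Nat.le_induction with
    | base => exact le_rfl
    | succ m hm ih =>
      exact (ih (by omega)).trans (hc m (by omega) (by omega)).le
  have hmono' : ∀ k k', 1 ≤ k → k < k' → k' ≤ n + 3 → g (z k) < g (z k') := by
    intro k k' h1 h2 h3
    exact (hc k h1 (by omega)).trans_le (hmono (k + 1) k' (by omega) h2 h3)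
  have hP : g (z (n + 3)) = (z (n + 3)).re := by simp [hg, hz.P_im]
  have hPpos : 0 < (z (n + 3)).re := by
    rw [← hP, ← hg1]
    exact hmono' 1 (n + 3) le_rfl (by omega) le_rfl
  -- points of bars of the D chain
  have hD : ∀ k, 1 ≤ k → k ≤ n + 2 → ∀ x ∈ segment ℝ (z k) (z (k + 1)),
      0 ≤ x.im ∧ g (z k) ≤ g x ∧ g x ≤ g (z (k + 1)) ∧ (g x = g (z (k + 1)) → x = z (k + 1)) ∧
        (g x = g (z k) → x = z k) := by
    intro k h1 h2 x hx
    obtain ⟨s, hs0, hs1, hre, him⟩ := seg_param hx
    have i1 := hz.im_nonneg k h1 (by omega)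
    have i2 := hz.im_nonneg (k + 1) (by omega) (by omega)
    have i3 : (z k).re + c * (z k).im < (z (k + 1)).re + c * (z (k + 1)).im := hc k h1 h2
    have e : g x - g (z k) = s * (g (z (k + 1)) - g (z k)) := by
      simp only [hg]; rw [hre, him]; ring
    have e3 : 0 < g (z (k + 1)) - g (z k) := by simp only [hg]; linarith
    refine ⟨?_, ?_, ?_, ?_, ?_⟩
    · rw [him]; exact add_nonneg (mul_nonneg (by linarith) i1) (mul_nonneg hs0 i2)
    · nlinarith
    · nlinarith
    · intro he
      have : s = 1 := by
        have : (1 - s) * (g (z (k + 1)) - g (z k)) = 0 := by linarith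
        rcases mul_eq_zero.1 this with h | h <;> linarith
      subst this
      apply Complex.ext
      · rw [hre]; ring
      · rw [him]; ring
    · intro he
      have : s = 0 := by
        have : s * (g (z (k + 1)) - g (z k)) = 0 := by linarith
        rcases mul_eq_zero.1 this with h | h
        · exact h
        · linarith
      subst this
      apply Complex.ext
      · rw [hre]; ring
      · rw [him]; ring
  -- points of E
  have hE : ∀ x ∈ segment ℝ (z (n + 3)) (z (n + 4)), x.im < 0 ∨
      (x.im = 0 ∧ (z (n + 3)).re ≤ x.re) := by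
    intro x hx
    obtain ⟨s, hs0, hs1, hre, him⟩ := seg_param hx
    rw [hz.P_im, mul_zero, zero_add] at him
    rcases hz.QS with ⟨h1, -⟩ | ⟨h1, h2, -⟩
    · rcases eq_or_lt_of_le hs0 with hs | hs
      · right
        rw [← hs] at him hre
        refine ⟨by rw [him]; ring, by rw [hre]; linarith⟩
      · left
        rw [him]
        exact mul_neg_of_pos_of_neg hs h1
    · right
      refine ⟨by rw [him, h1, mul_zero], ?_⟩
      rw [hre]; nlinarith
  -- points of B
  have hB : ∀ x ∈ segment ℝ (z (n + 4)) (z (n + 5)), x.im < 0 ∨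
      (x.im = 0 ∧ (z (n + 3)).re < x.re) := by
    intro x hx
    obtain ⟨s, hs0, hs1, hre, him⟩ := seg_param hx
    rcases hz.QS with ⟨h1, h3⟩ | ⟨h1, h2, h3 | ⟨h3, h4⟩⟩
    · left
      rw [him]
      rcases eq_or_lt_of_le hs0 with hs | hs
      · rw [← hs]; linarith
      · have := mul_neg_of_pos_of_neg hs h3
        have := mul_nonneg (sub_nonneg.2 hs1) (neg_nonneg.2 h1.le)
        linarith
    · rcases eq_or_lt_of_le hs0 with hs | hs
      · right
        rw [him, hre, ← hs, h1]
        exact ⟨by ring, by linarith⟩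
      · left
        rw [him, h1]
        have := mul_neg_of_pos_of_neg hs h3
        linarith
    · right
      rw [him, hre, h1, h3]
      exact ⟨by ring, by nlinarith⟩
  -- M against the others
  have hM : ∀ x ∈ segment ℝ (z 0) (z 1), x.im ≤ 0 ∧ (x.im = 0 → x.re ≤ 0) ∧
      (0 ≤ x.im → 0 ≤ g x → x = z 1) := by
    intro x hx
    obtain ⟨s, hs0, hs1, hre, him⟩ := seg_param hx
    rw [hT, Complex.zero_re, mul_zero, add_zero] at hre
    rw [hT, Complex.zero_im, mul_zero, add_zero] at him
    rcases hz.M with ⟨h1, h2⟩ | ⟨h1, -⟩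
    · refine ⟨by rw [him, h1, mul_zero], fun _ => ?_, fun _ h4 => ?_⟩
      · rw [hre]; nlinarith
      · simp only [hg] at h4
        rw [him, h1, mul_zero, mul_zero, add_zero] at h4
        rw [hre] at h4
        have : s = 1 := by
          by_contra hne
          have : 0 < 1 - s := by
            rcases lt_or_eq_of_le hs1 with h | h
            · linarith
            · exact absurd h hne
          nlinarith
        subst this
        rw [hT]
        apply Complex.ext
        · rw [hre]; simp
        · rw [him]; simp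
    · have h5 : s = 1 ∨ x.im < 0 := by
        rcases eq_or_lt_of_le hs1 with h | h
        · exact Or.inl h
        · right; rw [him]; nlinarith
      refine ⟨by rw [him]; nlinarith, fun h3 => ?_, fun h3 _ => ?_⟩
      · rcases h5 with h5 | h5
        · rw [hre, h5]; simp
        · linarith
      · rcases h5 with h5 | h5
        · rw [hT]
          apply Complex.ext
          · rw [hre, h5]; simp
          · rw [him, h5]; simp
        · linarith
  have hMcr : ∀ x ∈ segment ℝ (z 0) (z 1), cr (z 0) x = 0 := by
    intro x hx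
    obtain ⟨s, hs0, hs1, hre, him⟩ := seg_param hx
    rw [hT, Complex.zero_re, mul_zero, add_zero] at hre
    rw [hT, Complex.zero_im, mul_zero, add_zero] at him
    unfold cr
    rw [hre, him]; ring
  have hcrseg : ∀ a b x : ℂ, 0 < cr (z 0) a → 0 < cr (z 0) b → x ∈ segment ℝ a b →
      0 < cr (z 0) x := by
    intro a b x ha hb hx
    obtain ⟨s, hs0, hs1, hre, him⟩ := seg_param hx
    have : cr (z 0) x = (1 - s) * cr (z 0) a + s * cr (z 0) b := by
      unfold cr; rw [hre, him]; ring
    rw [this]
    rcases eq_or_lt_of_le hs0 with hs | hs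
    · rw [← hs]; linarith
    · have := mul_pos hs hb
      have := mul_nonneg (sub_nonneg.2 hs1) ha.le
      linarith
  intro j j' hjj hj' x hx hx'
  rcases Nat.eq_zero_or_pos j with rfl | hj
  · -- M
    rw [zero_add] at hx
    rcases Nat.lt_or_ge j' (n + 3) with h3 | h3
    · obtain ⟨i1, i2, i3, i4, i5⟩ := hD j' (by omega) (by omega) x hx'
      have hg0 : 0 ≤ g x := by
        rw [← hg1]; exact (hmono 1 j' le_rfl (by omega) (by omega)).trans i2
      have hx1 := (hM x hx).2.2 i1 hg0
      by_cases h1 : j' = 1
      · subst h1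
        exact ⟨by omega, hx1⟩
      · exfalso
        have := hmono' 1 j' le_rfl (by omega) (by omega)
        rw [hx1] at i2
        linarith
    · exfalso
      have hj4 : j' = n + 3 ∨ j' = n + 4 := by omega
      rcases hz.M with ⟨h1, h2⟩ | ⟨h1, h2, h4, h5⟩
      · obtain ⟨a1, a2, a3⟩ := hM x hx
        have a4 : x.im = 0 := by
          obtain ⟨s, hs0, hs1, hre, him⟩ := seg_param hx
          rw [him, h1, hT]; simp
        have a5 := a2 a4
        rcases hj4 with rfl | rfl
        · rcases hE x hx' with h | ⟨-, h⟩ <;> linarith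
        · rcases hB x hx' with h | ⟨-, h⟩ <;> linarith
      · have := hMcr x hx
        rcases hj4 with rfl | rfl
        · have := hcrseg _ _ x h2 h4 hx'
          linarith
        · have := hcrseg _ _ x h4 h5 hx'
          linarith
  · rcases Nat.lt_or_ge j' (n + 3) with h3 | h3
    · -- both in the D chain
      obtain ⟨i1, i2, i3, i4, i5⟩ := hD j' (by omega) (by omega) x hx'
      obtain ⟨k1, k2, k3, k4, k5⟩ := hD j (by omega) (by omega) x hx
      by_cases h1 : j' = j + 1
      · subst h1
        exact ⟨rfl, k4 (le_antisymm k3 i2)⟩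
      · exfalso
        have := hmono' (j + 1) j' (by omega) (by omega) (by omega)
        linarith
    · have hj4 : j' = n + 3 ∨ j' = n + 4 := by omega
      rcases Nat.lt_or_ge j (n + 3) with h4 | h4
      · obtain ⟨k1, k2, k3, k4, k5⟩ := hD j (by omega) (by omega) x hx
        have k6 : g x ≤ g (z (n + 3)) := k3.trans (hmono (j + 1) (n + 3) (by omega) (by omega) le_rfl)
        rcases hj4 with rfl | rfl
        · rcases hE x hx' with h | ⟨h, h'⟩
          · linarith
          · have hgx : g x = x.re := by simp [hg, h]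
            have k7 : g x = g (z (n + 3)) := by
              rw [hP] at k6 ⊢
              rw [hgx] at k6 ⊢
              exact le_antisymm k6 h'
            by_cases h5 : j + 1 = n + 3
            · refine ⟨h5.symm, ?_⟩
              rw [← h5]
              exact k4 (by rw [h5]; exact k7)
            · exfalso
              have := hmono' (j + 1) (n + 3) (by omega) (by omega) le_rfl
              linarith
        · exfalso
          rcases hB x hx' with h | ⟨h, h'⟩
          · linarith
          · have hgx : g x = x.re := by simp [hg, h]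
            rw [hP, hgx] at k6
            linarith
      · -- E and B
        have e1 : j = n + 3 := by omega
        have e2 : j' = n + 4 := by omega
        subst e1
        subst e2
        refine ⟨rfl, ?_⟩
        obtain ⟨s, hs0, hs1, hre, him⟩ := seg_param hx
        obtain ⟨t, ht0, ht1, hre', him'⟩ := seg_param hx'
        rw [show n + 3 + 1 = n + 4 by ring] at *
        rw [show n + 4 + 1 = n + 5 by ring] at *
        -- x - Q = (1 - s) (P - Q) = t (S - Q)
        have f1 : (1 - s) * ((z (n + 3)).re - (z (n + 4)).re) =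
            t * ((z (n + 5)).re - (z (n + 4)).re) := by linarith
        have f2 : (1 - s) * ((z (n + 3)).im - (z (n + 4)).im) =
            t * ((z (n + 5)).im - (z (n + 4)).im) := by linarith
        have key : s = 1 := by
          by_contra hne
          have hs : 0 < 1 - s := by
            rcases lt_or_eq_of_le hs1 with h | h
            · linarith
            · exact absurd h hne
          rcases hz.EB with hEB | ⟨h1, h2⟩
          · apply hEB
            have : (1 - s) * cr (z (n + 3) - z (n + 4)) (z (n + 5) - z (n + 4)) = 0 := by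
              unfold cr
              simp only [Complex.sub_re, Complex.sub_im]
              linear_combination ((z (n + 5)).im - (z (n + 4)).im) * f1 -
                ((z (n + 5)).re - (z (n + 4)).re) * f2
            rcases mul_eq_zero.1 this with h | h
            · linarith
            · exact h
          · rcases hz.QS with ⟨h3, -⟩ | ⟨-, h3, h4 | ⟨-, h4⟩⟩
            · linarith
            · linarith
            · nlinarith
        subst key
        apply Complex.ext
        · rw [hre]; ring
        · rw [him]; ring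

theorem mem_segment_map (T ω : ℂ) (hω : ω ≠ 0) (a b x : ℂ) :
    x ∈ segment ℝ (T + ω * a) (T + ω * b) ↔ (x - T) / ω ∈ segment ℝ a b := by
  constructor
  · rintro ⟨u, v, hu, hv, huv, rfl⟩
    refine ⟨u, v, hu, hv, huv, ?_⟩
    rw [eq_div_iff hω]
    simp only [Complex.real_smul]
    have : (u : ℂ) + v = 1 := by exact_mod_cast huv
    linear_combination (-T) * this
  · rintro ⟨u, v, hu, hv, huv, h⟩
    refine ⟨u, v, hu, hv, huv, ?_⟩
    rw [eq_div_iff hω] at h
    simp only [Complex.real_smul] at h ⊢
    have : (u : ℂ) + v = 1 := by exact_mod_cast huv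
    linear_combination h + T * this

/-- Simplicity is invariant under similarities. -/
theorem Simple.map {l : ℕ} {z : ℕ → ℂ} (hz : Simple l z) (T ω : ℂ) (hω : ω ≠ 0) {q : ℕ → ℂ}
    (hq : ∀ j < l, q j = T + ω * z j) : Simple l q := by
  intro j j' hjj hj' x hx hx'
  rw [hq j (by omega), hq (j + 1) (by omega), mem_segment_map T ω hω] at hx
  rw [hq j' (by omega), hq (j' + 1) (by omega), mem_segment_map T ω hω] at hx'
  obtain ⟨h1, h2⟩ := hz j j' hjj hj' _ hx hx'
  refine ⟨h1, ?_⟩
  rw [hq j' (by omega), ← h2]
  field_simp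
  ring

end Pool.Agent.H263_NU
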