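import Pool.Agent.H263_NU.JN1i

/-!
# Existence of the critical position
-/

namespace Pool.Agent.H263_NU

open Finset

theorem given_N1i (p : Par) : sweep p.n p.A0 (p.n + 3) =
    Complex.arg (p.A0 (p.n + 3) - p.A0 (p.n + 4)) - 2 * Real.pi := job_N1i p

/-! ### lengths -/

theorem len_zero (p : Par) : p.len 0 = p.m := by
  unfold Par.len
  rw [if_pos rfl]

theorem len_one (p : Par) : p.len 1 = p.d := by
  unfold Par.len
  rw [if_neg (by omega), if_pos rfl]

theorem len_item (p : Par) {i : ℕ} (hi : i < p.n) : p.len (2 + i) = p.a i := by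
  unfold Par.len
  rw [if_neg (by omega), if_neg (by omega), if_pos (by omega)]
  congr 1
  omega

theorem len_Y (p : Par) : p.len (p.n + 2) = p.y := by
  unfold Par.len
  rw [if_neg (by omega), if_neg (by omega), if_neg (by omega), if_pos rfl]

theorem len_E (p : Par) : p.len (p.n + 3) = p.e := by
  unfold Par.len
  rw [if_neg (by omega), if_neg (by omega), if_neg (by omega), if_neg (by omega), if_pos rfl]

theorem len_B (p : Par) : p.len (p.n + 4) = p.b := by
  unfold Par.len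
  rw [if_neg (by omega), if_neg (by omega), if_neg (by omega), if_neg (by omega),
    if_neg (by omega)]

theorem ε_le_w (p : Par) : 100000 * p.ε ≤ p.w := p.ε_le.trans p.u_le_w

theorem k1_pos (p : Par) : 0 < p.k1 := by
  have h1 := ε_le_w p
  have h2 := p.w_pos
  have h3 := p.h_eq
  unfold Par.k1
  linarith

theorem k13_pos (p : Par) : 0 < p.k1 - p.k3 := by
  have h1 := ε_le_w p
  have h2 := p.w_pos
  have h3 := p.h_eq
  unfold Par.k1 Par.k3
  linarith

theorem k2_pos (p : Par) : 0 < p.k2 := by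
  have := p.ε_pos
  unfold Par.k2
  linarith

theorem k4_le (p : Par) : p.k4 ≤ p.ε / 8 := by
  have h1 := p.ε_pos
  have h2 := p.h_pos
  have h3 := ε_le_w p
  have h4 := p.h_eq
  have h5 := p.w_pos
  unfold Par.k4
  rw [div_le_div_iff₀ (by positivity) (by norm_num)]
  have h6 : p.ε ≤ p.h := by linarith
  have h7 : p.ε * p.ε ≤ p.ε * p.h := mul_le_mul_of_nonneg_left h6 h1.le
  nlinarith

theorem k4_pos (p : Par) : 0 < p.k4 := by
  have h1 := p.ε_pos
  have h2 := p.h_pos
  unfold Par.k4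
  positivity

theorem e_pos (p : Par) : 0 < p.e := by
  have h1 := k1_pos p
  unfold Par.e
  apply Real.sqrt_pos.2
  positivity

theorem b_pos (p : Par) : 0 < p.b := by
  have h1 := k13_pos p
  unfold Par.b
  apply Real.sqrt_pos.2
  positivity

theorem e_le (p : Par) : p.e ≤ 10 * p.w := by
  have h1 := k1_pos p
  have h2 := k2_pos p
  have h3 : p.e ≤ p.k1 + p.k2 := by
    unfold Par.e
    rw [Real.sqrt_le_left (by positivity)]
    nlinarith
  have h4 := p.ε_pos
  have h5 := p.h_eq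
  unfold Par.k1 Par.k2 at h3
  linarith

theorem norm_len {p : Par} {q : ℕ → ℂ} (hq : q ∈ p.FS) {j : ℕ} (hj : j < p.n + 5) :
    ‖q (j + 1) - q j‖ = p.len j := by
  rw [← dist_eq_norm, dist_comm]
  exact hq.1 j hj

theorem PQ_ne {p : Par} {q : ℕ → ℂ} (hq : q ∈ p.FS) : q (p.n + 3) - q (p.n + 4) ≠ 0 := by
  intro h
  have h1 := norm_len hq (j := p.n + 3) (by omega)
  rw [len_E, ← norm_neg, neg_sub, h, norm_zero] at h1
  exact (e_pos p).ne h1

theorem SQ_ne {p : Par} {q : ℕ → ℂ} (hq : q ∈ p.FS) : q (p.n + 5) - q (p.n + 4) ≠ 0 := by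
  intro h
  have h1 := norm_len hq (j := p.n + 4) (by omega)
  rw [len_B, h, norm_zero] at h1
  exact (b_pos p).ne h1

/-! ### (0) -/

theorem ZT_abs {p : Par} {q : ℕ → ℂ} (hq : q ∈ p.FS) : 90 * p.w ≤ |(q 0 - q 1).re| := by
  have h1 := norm_len hq (j := 0) (by omega)
  rw [len_zero, zero_add, ← norm_neg, neg_sub] at h1
  have h2 : (q 0 - q 1).re ^ 2 + (q 0 - q 1).im ^ 2 = p.m ^ 2 := by
    rw [← h1, Complex.sq_norm, Complex.normSq_apply]
    ring
  have h3 := hq.2.2 0 (by omega)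
  have h4 := hq.2.2 1 (by omega)
  have h5 := p.w_pos
  have h6 := p.h_eq
  have h7 := p.m_eq
  have h8 := p.η_pos
  obtain ⟨a1, a2, a3⟩ := h3
  obtain ⟨b1, b2, b3⟩ := h4
  have a4 := mul_pos h8 a1
  have b4 := mul_pos h8 b1
  have h9 : |(q 0 - q 1).im| ≤ 10 * p.w := by
    rw [abs_le, Complex.sub_im]
    constructor <;> linarith
  have h10 : (q 0 - q 1).im ^ 2 ≤ (10 * p.w) ^ 2 := by
    rw [← sq_abs]
    exact pow_le_pow_left₀ (abs_nonneg _) h9 2
  rw [h7] at h2
  apply abs_le_of_sq_le_sq' _ (abs_nonneg _) |>.2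
  rw [sq_abs]
  nlinarith

theorem TQ_abs {p : Par} {q : ℕ → ℂ} (hq : q ∈ p.FS) : ‖q 1 - q (p.n + 4)‖ ≤ 24 * p.w := by
  have h1 := dist_le_Ico_sum_dist q (m := 1) (n := p.n + 4) (by omega)
  rw [dist_eq_norm] at h1
  refine h1.trans ?_
  have h2 : ∑ i ∈ Ico 1 (p.n + 4), dist (q i) (q (i + 1)) = ∑ i ∈ Ico 1 (p.n + 4), p.len i := by
    apply sum_congr rfl
    intro i hi
    rw [mem_Ico] at hi
    exact hq.1 i (by omega)
  rw [h2, sum_Ico_succ_top (by omega), sum_Ico_succ_top (by omega),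
    sum_eq_sum_Ico_succ_bot (by omega), len_one, len_Y, len_E, sum_Ico_eq_sum_range]
  have h3 : ∑ i ∈ range (p.n + 2 - (1 + 1)), p.len (1 + 1 + i) = p.w := by
    have : p.n + 2 - (1 + 1) = p.n := by omega
    rw [this]
    unfold Par.w
    apply sum_congr rfl
    intro i hi
    exact len_item p (mem_range.1 hi)
  rw [h3]
  have h4 := e_le p
  have h5 := p.d_eq
  have h6 := p.y_eq
  have h7 := p.tt_pos
  have h8 := p.ε_pos
  linarith [p.w_pos]

/-! ### the rotation -/

theorem ω_re (z : ℂ) : (Par.ω * z).re = 4 / 5 * z.re - 3 / 5 * z.im := by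
  unfold Par.ω
  rw [Complex.mul_re]

theorem ω_im (z : ℂ) : (Par.ω * z).im = 4 / 5 * z.im + 3 / 5 * z.re := by
  unfold Par.ω
  rw [Complex.mul_im]

theorem A0_PQ (p : Par) : p.A0 (p.n + 3) - p.A0 (p.n + 4) = Par.ω * ⟨p.k1, p.k2⟩ := by
  unfold Par.A0
  rw [if_neg (by omega), if_neg (by omega), if_neg (by omega), if_pos rfl, if_neg (by omega),
    if_neg (by omega), if_neg (by omega), if_neg (by omega), if_pos rfl, add_sub_add_left_eq_sub,
    ← mul_sub]
  congr 1
  apply Complex.ext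
  · simp
  · simp

theorem A0_SQ (p : Par) : p.A0 (p.n + 5) - p.A0 (p.n + 4) =
    Par.ω * ⟨p.k1 - p.k3, p.k2 - p.k4⟩ := by
  unfold Par.A0
  rw [if_neg (by omega), if_neg (by omega), if_neg (by omega), if_neg (by omega),
    if_neg (by omega), if_neg (by omega),
    if_neg (by omega), if_neg (by omega), if_neg (by omega), if_pos rfl, add_sub_add_left_eq_sub,
    ← mul_sub]
  congr 1
  apply Complex.ext
  · simp
  · simp
    ring

theorem A0_ZT (p : Par) : p.A0 0 - p.A0 1 = (p.m : ℂ) := by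
  unfold Par.A0
  rw [if_pos rfl, if_neg (by omega), if_pos rfl]
  ring

theorem start_re1 (p : Par) : 0 < (p.A0 (p.n + 3) - p.A0 (p.n + 4)).re := by
  rw [A0_PQ, ω_re]
  have h1 := ε_le_w p
  have h2 := p.w_pos
  have h3 := p.h_eq
  have h4 := p.ε_pos
  change 0 < 4 / 5 * p.k1 - 3 / 5 * p.k2
  unfold Par.k1 Par.k2
  linarith

theorem start_re2 (p : Par) : 0 < (p.A0 (p.n + 5) - p.A0 (p.n + 4)).re := by
  rw [A0_SQ, ω_re]
  have h1 := ε_le_w p
  have h2 := p.w_pos
  have h3 := p.h_eq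
  have h4 := p.ε_pos
  have h5 := k4_pos p
  change 0 < 4 / 5 * (p.k1 - p.k3) - 3 / 5 * (p.k2 - p.k4)
  unfold Par.k1 Par.k2 Par.k3
  linarith

/-- comparison of arguments in the right half plane -/
theorem arg_lt {z z' : ℂ} (hz : 0 < z.re) (hz' : 0 < z'.re) (h : z.im * z'.re < z'.im * z.re) :
    Complex.arg z < Complex.arg z' := by
  have h1 : ∀ z : ℂ, 0 < z.re → Complex.arg z ∈ Set.Ioo (-(Real.pi / 2)) (Real.pi / 2) := by
    intro z hz
    have := Complex.abs_arg_lt_pi_div_two_iff.2 (Or.inl hz)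
    rw [abs_lt] at this
    exact this
  rw [← Real.strictMonoOn_tan.lt_iff_lt (h1 z hz) (h1 z' hz'), Complex.tan_arg, Complex.tan_arg,
    div_lt_div_iff₀ hz hz']
  exact h

theorem start_arg (p : Par) : Complex.arg (p.A0 (p.n + 3) - p.A0 (p.n + 4)) <
    Complex.arg (p.A0 (p.n + 5) - p.A0 (p.n + 4)) := by
  apply arg_lt (start_re1 p) (start_re2 p)
  rw [A0_PQ, A0_SQ, ω_re, ω_re, ω_im, ω_im]
  change (4 / 5 * p.k2 + 3 / 5 * p.k1) * (4 / 5 * (p.k1 - p.k3) - 3 / 5 * (p.k2 - p.k4)) <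
    (4 / 5 * (p.k2 - p.k4) + 3 / 5 * (p.k1 - p.k3)) * (4 / 5 * p.k1 - 3 / 5 * p.k2)
  have h1 : p.k1 * p.k4 < p.k2 * p.k3 := by
    have e1 := p.ε_pos
    have e2 := k4_le p
    have e3 := k4_pos p
    have e4 : p.k1 * p.k4 ≤ p.h * p.k4 := by
      apply mul_le_mul_of_nonneg_right _ e3.le
      unfold Par.k1
      linarith
    have e5 : p.h * p.k4 = p.ε ^ 2 / 8 := by
      have := p.h_pos
      unfold Par.k4
      field_simp
    have e6 : p.k2 * p.k3 = p.ε ^ 2 / 4 := by
      unfold Par.k2 Par.k3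
      ring
    have e7 : 0 < p.ε ^ 2 := by positivity
    rw [e6]
    linarith
  nlinarith

/-! ### (2), (3): fixed positions -/

theorem Q_not_mem {p : Par} {q : ℕ → ℂ} (hq : q ∈ p.FS) {j : ℕ} (hj : j ≤ p.n + 2) :
    q (p.n + 4) ∉ segment ℝ (q j) (q (j + 1)) := by
  intro h
  have h1 := hq.2.1 j (p.n + 3) (by omega) (by omega) _ h (right_mem_segment ℝ _ _)
  exact PQ_ne hq (sub_eq_zero.2 h1.2.symm)

theorem sub_ne_of_not_mem {a b c : ℂ} (h : c ∉ segment ℝ a b) : a - c ≠ 0 := by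
  intro h0
  apply h
  rw [sub_eq_zero] at h0
  rw [h0]
  exact left_mem_segment ℝ _ _

theorem quot_slit {a b c : ℂ} (h : c ∉ segment ℝ a b) :
    (b - c) / (a - c) ∈ Complex.slitPlane := by
  by_contra hcon
  rw [Complex.mem_slitPlane_iff] at hcon
  push Not at hcon
  obtain ⟨hre, him⟩ := hcon
  have hac := sub_ne_of_not_mem h
  obtain ⟨s, hs⟩ : ∃ s : ℝ, s = -((b - c) / (a - c)).re := ⟨_, rfl⟩
  have hs0 : 0 ≤ s := by rw [hs]; linarith
  have h1 : (b - c) / (a - c) = -(s : ℂ) := by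
    apply Complex.ext
    · rw [Complex.neg_re, Complex.ofReal_re, hs, neg_neg]
    · rw [Complex.neg_im, Complex.ofReal_im, him, neg_zero]
  rw [div_eq_iff hac] at h1
  have h2 : (1 + (s : ℂ)) ≠ 0 := by
    intro h3
    have := congrArg Complex.re h3
    simp at this
    linarith
  apply h
  refine ⟨s / (1 + s), 1 / (1 + s), by positivity, by positivity, by field_simp; ring, ?_⟩
  rw [Complex.real_smul, Complex.real_smul]
  push_cast
  field_simp
  linear_combination h1

theorem sweep_zero (n : ℕ) (q : ℕ → ℂ) : sweep n q 0 = Complex.arg (q 0 - q (n + 4)) := by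
  unfold sweep
  rw [range_zero, sum_empty, add_zero]

theorem sweep_succ (n : ℕ) (q : ℕ → ℂ) (k : ℕ) : sweep n q (k + 1) =
    sweep n q k + Complex.arg ((q (k + 1) - q (n + 4)) / (q k - q (n + 4))) := by
  unfold sweep
  rw [sum_range_succ, add_assoc]

theorem sweep_exp {p : Par} {q : ℕ → ℂ} (hq : q ∈ p.FS) {k : ℕ} (hk : k ≤ p.n + 3) :
    q k - q (p.n + 4) =
      (‖q k - q (p.n + 4)‖ : ℂ) * Complex.exp (sweep p.n q k * Complex.I) := by
  induction k with
  | zero => rw [sweep_zero, Complex.norm_mul_exp_arg_mul_I]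
  | succ k ih =>
    have ih' := ih (by omega)
    have hne := sub_ne_of_not_mem (Q_not_mem hq (j := k) (by omega))
    have h1 := Complex.norm_mul_exp_arg_mul_I ((q (k + 1) - q (p.n + 4)) / (q k - q (p.n + 4)))
    have h2 : q (k + 1) - q (p.n + 4) =
        (q k - q (p.n + 4)) * ((q (k + 1) - q (p.n + 4)) / (q k - q (p.n + 4))) := by
      field_simp
    rw [sweep_succ]
    push_cast
    rw [add_mul, Complex.exp_add]
    have h3 : (‖q (k + 1) - q (p.n + 4)‖ : ℂ) = (‖q k - q (p.n + 4)‖ : ℂ) *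
        (‖(q (k + 1) - q (p.n + 4)) / (q k - q (p.n + 4))‖ : ℂ) := by
      rw [← Complex.ofReal_mul, ← norm_mul, ← h2]
    rw [h3]
    calc q (k + 1) - q (p.n + 4) = _ := h2
      _ = ((‖q k - q (p.n + 4)‖ : ℂ) * Complex.exp (sweep p.n q k * Complex.I)) *
          ((‖(q (k + 1) - q (p.n + 4)) / (q k - q (p.n + 4))‖ : ℂ) *
            Complex.exp (Complex.arg ((q (k + 1) - q (p.n + 4)) / (q k - q (p.n + 4))) *
              Complex.I)) := by rw [h1, ← ih']
      _ = _ := by ring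

theorem sweep_step {p : Par} {q : ℕ → ℂ} (hq : q ∈ p.FS) {k : ℕ} (hk : k < p.n + 3) :
    |sweep p.n q (k + 1) - sweep p.n q k| < Real.pi := by
  rw [sweep_succ, add_sub_cancel_left]
  have h1 := quot_slit (Q_not_mem hq (j := k) (by omega))
  rw [Complex.mem_slitPlane_iff_arg] at h1
  rw [abs_lt]
  exact ⟨Complex.neg_pi_lt_arg _, lt_of_le_of_ne (Complex.arg_le_pi _) h1.1⟩

/-- the directions of the last two bars are different -/
theorem arg_ne {p : Par} {q : ℕ → ℂ} (hq : q ∈ p.FS) :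
    Complex.arg (q (p.n + 3) - q (p.n + 4)) ≠ Complex.arg (q (p.n + 5) - q (p.n + 4)) := by
  intro h
  have h1 := PQ_ne hq
  have h2 := SQ_ne hq
  rw [Complex.arg_eq_arg_iff h1 h2] at h
  have hr : 0 < ‖q (p.n + 5) - q (p.n + 4)‖ / ‖q (p.n + 3) - q (p.n + 4)‖ :=
    div_pos (norm_pos_iff.2 h2) (norm_pos_iff.2 h1)
  obtain ⟨r, hr'⟩ : ∃ r : ℝ, r = ‖q (p.n + 5) - q (p.n + 4)‖ / ‖q (p.n + 3) - q (p.n + 4)‖ :=
    ⟨_, rfl⟩
  rw [← hr'] at hr
  have h3 : (r : ℂ) * (q (p.n + 3) - q (p.n + 4)) = q (p.n + 5) - q (p.n + 4) := by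
    rw [hr']
    push_cast
    exact h
  -- a common point
  obtain ⟨t, ht0, ht1, ht2⟩ : ∃ t : ℝ, 0 < t ∧ t ≤ 1 ∧ t ≤ r :=
    ⟨min 1 r, lt_min one_pos hr, min_le_left _ _, min_le_right _ _⟩
  set x := q (p.n + 4) + (t : ℂ) * (q (p.n + 3) - q (p.n + 4)) with hx
  have hx1 : x ∈ segment ℝ (q (p.n + 3)) (q (p.n + 3 + 1)) := by
    refine ⟨t, 1 - t, ht0.le, by linarith, by ring, ?_⟩
    rw [Complex.real_smul, Complex.real_smul, hx]
    push_cast
    ring
  have hx2 : x ∈ segment ℝ (q (p.n + 4)) (q (p.n + 4 + 1)) := by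
    refine ⟨1 - t / r, t / r, ?_, by positivity, by ring, ?_⟩
    · rw [sub_nonneg, div_le_one hr]
      exact ht2
    · rw [Complex.real_smul, Complex.real_smul, hx]
      have h4 : q (p.n + 4 + 1) = q (p.n + 4) + (r : ℂ) * (q (p.n + 3) - q (p.n + 4)) := by
        rw [h3]
        ring
      rw [h4]
      have h5 : (r : ℂ) ≠ 0 := by exact_mod_cast hr.ne'
      push_cast
      field_simp
      ring
  have h6 := (hq.2.1 (p.n + 3) (p.n + 4) (by omega) (by omega) x hx1 hx2).2
  have h7 : (t : ℂ) * (q (p.n + 3) - q (p.n + 4)) = 0 := by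
    have : q (p.n + 4) + (t : ℂ) * (q (p.n + 3) - q (p.n + 4)) = q (p.n + 4) := h6
    exact add_eq_left.1 this
  rcases mul_eq_zero.1 h7 with h8 | h8
  · exact ht0.ne' (by exact_mod_cast h8)
  · exact h1 h8

/-! ### paths -/

/-- a real function which is positive at the start and never zero stays positive -/
theorem stays_pos {T : ℝ} {f : ℝ → ℝ} (hf : ContinuousOn f (Set.Icc 0 T))
    (h0 : 0 < f 0) (hne : ∀ t ∈ Set.Icc 0 T, f t ≠ 0) : ∀ t ∈ Set.Icc 0 T, 0 < f t := by
  intro t ht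
  by_contra hcon
  push Not at hcon
  have hT : (0 : ℝ) ≤ T := ht.1.trans ht.2
  have h0' : (0 : ℝ) ∈ Set.Icc 0 T := ⟨le_rfl, hT⟩
  have h1 := isPreconnected_Icc.intermediate_value ht h0' hf
  obtain ⟨s, hs, hs0⟩ := h1 ⟨hcon, h0.le⟩
  exact hne s hs hs0

/-- a continuous function with values in `2 π ℤ` is constant -/
theorem stays_const {T : ℝ} (hT : 0 ≤ T) {f : ℝ → ℝ} (hf : ContinuousOn f (Set.Icc 0 T))
    (hv : ∀ t ∈ Set.Icc 0 T, ∃ m : ℤ, f t = 2 * Real.pi * m) : f T = f 0 := by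
  have h0 : (0 : ℝ) ∈ Set.Icc 0 T := ⟨le_rfl, hT⟩
  have h1 : T ∈ Set.Icc 0 T := ⟨hT, le_rfl⟩
  have hpi := Real.pi_pos
  by_contra hne
  obtain ⟨m0, hm0⟩ := hv 0 h0
  obtain ⟨m1, hm1⟩ := hv T h1
  rcases lt_or_gt_of_ne hne with hlt | hlt
  · -- the value `f 0 - π` is between
    have hm : m1 < m0 := by
      by_contra hcon
      push Not at hcon
      have : (m0 : ℝ) ≤ m1 := by exact_mod_cast hcon
      have := mul_le_mul_of_nonneg_left this (by positivity : 0 ≤ 2 * Real.pi)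
      linarith
    have hm' : (m1 : ℝ) + 1 ≤ m0 := by exact_mod_cast hm
    have hm'' := mul_le_mul_of_nonneg_left hm' (by positivity : 0 ≤ 2 * Real.pi)
    obtain ⟨s, hs, hs0⟩ := isPreconnected_Icc.intermediate_value h1 h0 hf
      (show f 0 - Real.pi ∈ Set.Icc (f T) (f 0) from ⟨by linarith, by linarith⟩)
    obtain ⟨m, hm⟩ := hv s hs
    rw [hs0, hm0] at hm
    have h2 : Real.pi * (2 * (m0 : ℝ) - 1 - 2 * m) = 0 := by linarith
    rcases mul_eq_zero.1 h2 with h3 | h3
    · exact hpi.ne' h3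
    · have h4 : (2 * m0 - 1 - 2 * m : ℤ) = 0 := by exact_mod_cast h3
      omega
  · have hm : m0 < m1 := by
      by_contra hcon
      push Not at hcon
      have : (m1 : ℝ) ≤ m0 := by exact_mod_cast hcon
      have := mul_le_mul_of_nonneg_left this (by positivity : 0 ≤ 2 * Real.pi)
      linarith
    have hm' : (m0 : ℝ) + 1 ≤ m1 := by exact_mod_cast hm
    have hm'' := mul_le_mul_of_nonneg_left hm' (by positivity : 0 ≤ 2 * Real.pi)
    obtain ⟨s, hs, hs0⟩ := isPreconnected_Icc.intermediate_value h0 h1 hf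
      (show f 0 + Real.pi ∈ Set.Icc (f 0) (f T) from ⟨by linarith, by linarith⟩)
    obtain ⟨m, hm⟩ := hv s hs
    rw [hs0, hm0] at hm
    have h2 : Real.pi * (2 * (m0 : ℝ) + 1 - 2 * m) = 0 := by linarith
    rcases mul_eq_zero.1 h2 with h3 | h3
    · exact hpi.ne' h3
    · have h4 : (2 * m0 + 1 - 2 * m : ℤ) = 0 := by exact_mod_cast h3
      omega

/-- the first time -/
theorem first_time {f : ℝ → ℝ} (hf : Continuous f) (h0 : 0 < f 0) (h1 : f 1 ≤ 0) :
    ∃ T : ℝ, 0 ≤ T ∧ f T = 0 ∧ ∀ t ∈ Set.Icc 0 T, 0 ≤ f t := by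
  have hc : IsCompact (Set.Icc (0 : ℝ) 1 ∩ {t | f t ≤ 0}) :=
    isCompact_Icc.inter_right (isClosed_le hf continuous_const)
  obtain ⟨T, ⟨hT1, hT2⟩, hT3⟩ := hc.exists_isLeast ⟨1, ⟨by norm_num, le_rfl⟩, h1⟩
  have hT0 : 0 < T := by
    rcases hT1.1.lt_or_eq with h | h
    · exact h
    · rw [← h] at hT2
      exact absurd hT2 (not_le.2 h0)
  have hlt : Set.Ico 0 T ⊆ {t | 0 ≤ f t} := by
    intro t ht
    by_contra hcon
    have h2 : f t < 0 := not_le.1 hcon
    have h3 := hT3 ⟨⟨ht.1, ht.2.le.trans hT1.2⟩, h2.le⟩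
    exact absurd ht.2 (not_lt.2 h3)
  have hcl : Set.Icc 0 T ⊆ {t | 0 ≤ f t} := by
    rw [← closure_Ico hT0.ne]
    exact closure_minimal hlt (isClosed_le continuous_const hf)
  refine ⟨T, hT0.le, le_antisymm hT2 (hcl ⟨hT0.le, le_rfl⟩), fun t ht => hcl ht⟩

/-- at the end of the motion -/
theorem end_le {a b c : ℂ} (h : EuclideanGeometry.angle a b c = Real.pi) :
    min (a - b).re (c - b).re ≤ 0 := by
  rw [EuclideanGeometry.angle_eq_pi_iff_sbtw] at h
  obtain ⟨⟨t, ht, hb⟩, -, -⟩ := h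
  rw [AffineMap.lineMap_apply] at hb
  have hb' : b = a + (t : ℂ) * (c - a) := by
    rw [← hb, vsub_eq_sub, vadd_eq_add, Complex.real_smul]
    ring
  have h1 : (a - b).re = -(t * (c - a).re) := by
    rw [hb']
    simp
  have h2 : (c - b).re = (1 - t) * (c - a).re := by
    rw [hb']
    simp
    ring
  by_contra hcon
  rw [not_le, lt_min_iff] at hcon
  obtain ⟨h3, h4⟩ := hcon
  rw [h1] at h3
  rw [h2] at h4
  have h5 : 0 ≤ t := ht.1
  have h6 : t ≤ 1 := ht.2
  rcases le_or_gt 0 (c - a).re with h7 | h7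
  · have := mul_nonneg h5 h7
    linarith
  · have : (1 - t) * (c - a).re ≤ 0 := mul_nonpos_of_nonneg_of_nonpos (by linarith) h7.le
    linarith

theorem job_N1c : S_N1 := by
  intro p q hjoin hstr
  obtain ⟨γ, hγ⟩ := hjoin
  -- the path as a function on the real line
  obtain ⟨g, hg0, hg1, hgc, hgF⟩ : ∃ g : ℝ → ℕ → ℂ, g 0 = p.A0 ∧ g 1 = q ∧
      (∀ j, Continuous fun t => g t j) ∧ ∀ t, g t ∈ p.FS := by
    refine ⟨fun t => γ.extend t, γ.extend_zero, γ.extend_one, ?_, ?_⟩
    · intro j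
      exact (continuous_apply j).comp γ.continuous_extend
    · intro t
      have h1 : γ.extend t ∈ Set.range γ := by
        rw [← γ.extend_range]
        exact ⟨t, rfl⟩
      obtain ⟨s, hs⟩ := h1
      change γ.extend t ∈ p.FS
      rw [← hs]
      exact hγ s
  -- the first time
  obtain ⟨T, hT0, hT1, hT2⟩ := first_time
    (f := fun t => min (g t (p.n + 3) - g t (p.n + 4)).re (g t (p.n + 5) - g t (p.n + 4)).re)
    ((Complex.continuous_re.comp ((hgc _).sub (hgc _))).min
      (Complex.continuous_re.comp ((hgc _).sub (hgc _))))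
    (by
      simp only [hg0]
      exact lt_min (start_re1 p) (start_re2 p))
    (by
      simp only [hg1]
      exact end_le (hstr (p.n + 3) (by omega)))
  have h0mem : (0 : ℝ) ∈ Set.Icc 0 T := ⟨le_rfl, hT0⟩
  have hTmem : T ∈ Set.Icc 0 T := ⟨hT0, le_rfl⟩
  have hreE : ∀ t ∈ Set.Icc 0 T, 0 ≤ (g t (p.n + 3) - g t (p.n + 4)).re := fun t ht =>
    (hT2 t ht).trans (min_le_left _ _)
  have hreB : ∀ t ∈ Set.Icc 0 T, 0 ≤ (g t (p.n + 5) - g t (p.n + 4)).re := fun t ht =>
    (hT2 t ht).trans (min_le_right _ _)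
  -- (0)
  have hZT : ∀ t ∈ Set.Icc 0 T, 0 < (g t 0 - g t 1).re := by
    apply stays_pos (Complex.continuous_re.comp ((hgc _).sub (hgc _))).continuousOn
    · change 0 < (g 0 0 - g 0 1).re
      rw [hg0, A0_ZT, Complex.ofReal_re]
      exact p.m_pos
    · intro t _ h
      have h1 := ZT_abs (hgF t)
      have h' : (g t 0 - g t 1).re = 0 := h
      rw [h', abs_zero] at h1
      linarith [p.w_pos]
  have hZT' : ∀ t ∈ Set.Icc 0 T, 90 * p.w ≤ (g t 0 - g t 1).re := by
    intro t ht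
    have h1 := ZT_abs (hgF t)
    rwa [abs_of_pos (hZT t ht)] at h1
  have hZQ : ∀ t ∈ Set.Icc 0 T, 0 < (g t 0 - g t (p.n + 4)).re := by
    intro t ht
    have h1 := hZT' t ht
    have h2 := TQ_abs (hgF t)
    have h3 := Complex.abs_re_le_norm (g t 1 - g t (p.n + 4))
    have h4 := (abs_le.1 (h3.trans h2)).1
    rw [Complex.sub_re] at h1 h4 ⊢
    linarith [p.w_pos]
  -- (2)
  have hslit : ∀ z : ℂ, 0 ≤ z.re → z ≠ 0 → z ∈ Complex.slitPlane := by
    intro z hz hne
    rw [Complex.mem_slitPlane_iff]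
    rcases hz.lt_or_eq with h | h
    · exact Or.inl h
    · right
      intro him
      exact hne (Complex.ext h.symm him)
  have hcE : ContinuousOn (fun t => Complex.arg (g t (p.n + 3) - g t (p.n + 4)))
      (Set.Icc 0 T) := by
    intro t ht
    apply ContinuousAt.continuousWithinAt
    exact (Complex.continuousAt_arg (hslit _ (hreE t ht) (PQ_ne (hgF t)))).comp
      (f := fun t => g t (p.n + 3) - g t (p.n + 4)) ((hgc _).sub (hgc _)).continuousAt
  have hcB : ContinuousOn (fun t => Complex.arg (g t (p.n + 5) - g t (p.n + 4)))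
      (Set.Icc 0 T) := by
    intro t ht
    apply ContinuousAt.continuousWithinAt
    exact (Complex.continuousAt_arg (hslit _ (hreB t ht) (SQ_ne (hgF t)))).comp
      (f := fun t => g t (p.n + 5) - g t (p.n + 4)) ((hgc _).sub (hgc _)).continuousAt
  have hEB : ∀ t ∈ Set.Icc 0 T, 0 < Complex.arg (g t (p.n + 5) - g t (p.n + 4)) -
      Complex.arg (g t (p.n + 3) - g t (p.n + 4)) := by
    apply stays_pos (hcB.sub hcE)
    · change 0 < Complex.arg (g 0 (p.n + 5) - g 0 (p.n + 4)) -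
        Complex.arg (g 0 (p.n + 3) - g 0 (p.n + 4))
      rw [hg0, sub_pos]
      exact start_arg p
    · intro t _ h
      exact arg_ne (hgF t) (sub_eq_zero.1 h).symm
  -- (3)
  have hsw : ∀ k, k ≤ p.n + 3 → ContinuousOn (fun t => sweep p.n (g t) k) (Set.Icc 0 T) := by
    intro k
    induction k with
    | zero =>
      intro _
      simp only [sweep_zero]
      intro t ht
      apply ContinuousAt.continuousWithinAt
      exact (Complex.continuousAt_arg (Complex.mem_slitPlane_iff.2 (Or.inl (hZQ t ht)))).comp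
        (f := fun t => g t 0 - g t (p.n + 4)) ((hgc _).sub (hgc _)).continuousAt
    | succ k ih =>
      intro hk
      simp only [sweep_succ]
      apply (ih (by omega)).add
      intro t ht
      apply ContinuousAt.continuousWithinAt
      have hmem := Q_not_mem (hgF t) (j := k) (by omega)
      refine (Complex.continuousAt_arg (quot_slit hmem)).comp
        (f := fun t => (g t (k + 1) - g t (p.n + 4)) / (g t k - g t (p.n + 4))) ?_
      exact ((hgc _).sub (hgc _)).continuousAt.div ((hgc _).sub (hgc _)).continuousAt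
        (sub_ne_of_not_mem hmem)
  -- (4)
  have hconst : sweep p.n (g T) (p.n + 3) - Complex.arg (g T (p.n + 3) - g T (p.n + 4)) =
      -2 * Real.pi := by
    have h1 := stays_const hT0 ((hsw (p.n + 3) le_rfl).sub hcE) (by
      intro t _
      have h1 := sweep_exp (hgF t) (k := p.n + 3) le_rfl
      have h2 := Complex.norm_mul_exp_arg_mul_I (g t (p.n + 3) - g t (p.n + 4))
      have h3 : (‖g t (p.n + 3) - g t (p.n + 4)‖ : ℂ) ≠ 0 := by
        rw [Complex.ofReal_ne_zero]
        exact norm_ne_zero_iff.2 (PQ_ne (hgF t))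
      have h4 : Complex.exp (sweep p.n (g t) (p.n + 3) * Complex.I) =
          Complex.exp (Complex.arg (g t (p.n + 3) - g t (p.n + 4)) * Complex.I) := by
        apply mul_left_cancel₀ h3
        rw [← h1, h2]
      rw [Complex.exp_eq_exp_iff_exists_int] at h4
      obtain ⟨m, hm⟩ := h4
      refine ⟨m, ?_⟩
      have h5 : ((sweep p.n (g t) (p.n + 3) : ℝ) : ℂ) =
          ((Complex.arg (g t (p.n + 3) - g t (p.n + 4)) + 2 * Real.pi * m : ℝ) : ℂ) := by
        apply mul_right_cancel₀ Complex.I_ne_zero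
        rw [hm]
        push_cast
        ring
      have h6 := Complex.ofReal_injective h5
      change sweep p.n (g t) (p.n + 3) - Complex.arg (g t (p.n + 3) - g t (p.n + 4)) = _
      rw [h6]
      ring)
    have h2 : sweep p.n (g T) (p.n + 3) - Complex.arg (g T (p.n + 3) - g T (p.n + 4)) =
        sweep p.n (g 0) (p.n + 3) - Complex.arg (g 0 (p.n + 3) - g 0 (p.n + 4)) := h1
    rw [h2, hg0, given_N1i]
    ring
  -- conclusion
  have hφE : |Complex.arg (g T (p.n + 3) - g T (p.n + 4))| ≤ Real.pi / 2 :=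
    Complex.abs_arg_le_pi_div_two_iff.2 (hreE T hTmem)
  have hφB : |Complex.arg (g T (p.n + 5) - g T (p.n + 4))| ≤ Real.pi / 2 :=
    Complex.abs_arg_le_pi_div_two_iff.2 (hreB T hTmem)
  have hF0 : |sweep p.n (g T) 0| < Real.pi / 2 := by
    rw [sweep_zero]
    exact Complex.abs_arg_lt_pi_div_two_iff.2 (Or.inl (hZQ T hTmem))
  rw [abs_le] at hφE hφB
  rw [abs_lt] at hF0
  have hlt := hEB T hTmem
  refine ⟨g T, hgF T, ?_, ⟨sweep p.n (g T), fun k hk => sweep_exp (hgF T) hk,
    fun k hk => sweep_step (hgF T) hk, hF0.1, hF0.2, by linarith, by linarith⟩, ?_⟩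
  · have := hZT T hTmem
    rw [Complex.sub_re] at this
    linarith
  · rcases min_choice (g T (p.n + 3) - g T (p.n + 4)).re (g T (p.n + 5) - g T (p.n + 4)).re
      with hmin | hmin
    · right
      have h1 : (g T (p.n + 3) - g T (p.n + 4)).re = 0 := hmin.symm.trans hT1
      have h2 : Complex.arg (g T (p.n + 3) - g T (p.n + 4)) = Real.pi / 2 ∨
          Complex.arg (g T (p.n + 3) - g T (p.n + 4)) = -(Real.pi / 2) := by
        rcases lt_trichotomy (g T (p.n + 3) - g T (p.n + 4)).im 0 with h | h | h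
        · right
          exact Complex.arg_eq_neg_pi_div_two_iff.2 ⟨h1, h⟩
        · exact absurd (Complex.ext h1 h) (PQ_ne (hgF T))
        · left
          exact Complex.arg_eq_pi_div_two_iff.2 ⟨h1, h⟩
      rcases h2 with h2 | h2
      · exfalso
        linarith
      · have h3 := (Complex.arg_eq_neg_pi_div_two_iff.1 h2).2
        rw [Complex.sub_re] at h1
        rw [Complex.sub_im] at h3
        exact ⟨by linarith, by linarith⟩
    · left
      have h1 : (g T (p.n + 5) - g T (p.n + 4)).re = 0 := hmin.symm.trans hT1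
      have h2 : Complex.arg (g T (p.n + 5) - g T (p.n + 4)) = Real.pi / 2 ∨
          Complex.arg (g T (p.n + 5) - g T (p.n + 4)) = -(Real.pi / 2) := by
        rcases lt_trichotomy (g T (p.n + 5) - g T (p.n + 4)).im 0 with h | h | h
        · right
          exact Complex.arg_eq_neg_pi_div_two_iff.2 ⟨h1, h⟩
        · exact absurd (Complex.ext h1 h) (SQ_ne (hgF T))
        · left
          exact Complex.arg_eq_pi_div_two_iff.2 ⟨h1, h⟩
      rcases h2 with h2 | h2
      · have h3 := (Complex.arg_eq_pi_div_two_iff.1 h2).2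
        rw [Complex.sub_re] at h1
        rw [Complex.sub_im] at h3
        exact ⟨by linarith, by linarith⟩
      · exfalso
        linarith

end Pool.Agent.H263_NU
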