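import Pool.Agent.H263_NU.Stmts

/-!
# The swept angle in the initial position
-/

namespace Pool.Agent.H263_NU

open Finset

/-- the lifted argument of `q k - q (n + 4)` along the path `q 0, ..., q k` -/
noncomputable def sweep (n : ℕ) (q : ℕ → ℂ) (k : ℕ) : ℝ :=
  Complex.arg (q 0 - q (n + 4)) +
    ∑ j ∈ range k, Complex.arg ((q (j + 1) - q (n + 4)) / (q j - q (n + 4)))

namespace N1iAux

theorem quot_int {z w : ℂ} (hz : z ≠ 0) (hw : w ≠ 0) :
    ∃ k : ℤ, Complex.arg (z / w) = Complex.arg z - Complex.arg w + 2 * Real.pi * k := by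
  have h := Complex.arg_div_coe_angle hz hw
  rw [← Real.Angle.coe_sub, Real.Angle.angle_eq_iff_two_pi_dvd_sub] at h
  obtain ⟨k, hk⟩ := h
  exact ⟨k, by linarith⟩

theorem sweep_int (n : ℕ) (q : ℕ → ℂ) (k : ℕ) (h : ∀ j ≤ k, q j - q (n + 4) ≠ 0) :
    ∃ N : ℤ, sweep n q k = Complex.arg (q k - q (n + 4)) + 2 * Real.pi * N := by
  induction k with
  | zero => exact ⟨0, by simp [sweep]⟩
  | succ k ih =>
    obtain ⟨N, hN⟩ := ih fun j hj => h j (by omega)
    obtain ⟨K, hK⟩ := quot_int (h (k + 1) le_rfl) (h k (by omega))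
    refine ⟨N + K, ?_⟩
    have e : sweep n q (k + 1) = sweep n q k +
        Complex.arg ((q (k + 1) - q (n + 4)) / (q k - q (n + 4))) := by
      simp only [sweep]
      rw [sum_range_succ]; ring
    rw [e, hN, hK]
    push_cast
    ring

theorem quot_eq {z w : ℂ} (hz : 0 < z.re) (hz' : 0 ≤ z.im) (hw : 0 < w.re) (hw' : 0 ≤ w.im) :
    Complex.arg (z / w) = Complex.arg z - Complex.arg w := by
  have hz0 : z ≠ 0 := by rintro rfl; simp at hz
  have hw0 : w ≠ 0 := by rintro rfl; simp at hw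
  obtain ⟨k, hk⟩ := quot_int hz0 hw0
  have h1 := abs_lt.1 (Complex.abs_arg_lt_pi_div_two_iff.2 (Or.inl hz))
  have h2 := abs_lt.1 (Complex.abs_arg_lt_pi_div_two_iff.2 (Or.inl hw))
  have h3 := Complex.arg_nonneg_iff.2 hz'
  have h4 := Complex.arg_nonneg_iff.2 hw'
  have h5 := Complex.neg_pi_lt_arg (z / w)
  have h6 := Complex.arg_le_pi (z / w)
  have hp := Real.pi_pos
  have hk0 : k = 0 := by
    have a1 : (k : ℝ) < 1 := by
      by_contra hc
      push Not at hc
      nlinarith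
    have a2 : (-1 : ℝ) < k := by
      by_contra hc
      push Not at hc
      nlinarith
    have a1' : k < 1 := by exact_mod_cast a1
    have a2' : -1 < k := by exact_mod_cast a2
    omega
  rw [hk, hk0]; simp

theorem quot_neg {z w : ℂ} (hw : w ≠ 0) (h : z.im * w.re - z.re * w.im < 0) :
    Complex.arg (z / w) < 0 := by
  rw [Complex.arg_neg_iff, Complex.div_im, ← sub_div]
  exact div_neg_of_neg_of_pos h (Complex.normSq_pos.2 hw)

theorem Wne : Par.ω ≠ 0 := by
  intro h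
  have := congrArg Complex.re h
  simp [Par.ω] at this

variable (p : Par)

theorem hlk : p.l - p.k1 = 2 * (p.w - p.tt) + p.ε := by
  rw [p.l_eq]; unfold Par.k1; rw [p.h_eq]; ring

theorem hdk : p.d - (p.l - p.k1) = 5 * p.w - 2 * p.ε := by
  rw [hlk, p.d_eq]; ring

noncomputable def x (j : ℕ) : ℝ := if j ≤ p.n then p.d + p.A j - (p.l - p.k1) else p.k1

noncomputable def v (j : ℕ) : ℂ := ⟨x p j, p.k2⟩

theorem A_nonneg (j : ℕ) (hj : j ≤ p.n) : 0 ≤ p.A j := by
  unfold Par.A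
  exact sum_nonneg fun i hi => (p.a_pos (by have := mem_range.1 hi; omega)).le

theorem x_pos (j : ℕ) : 0 < x p j := by
  have h1 := hdk p
  have h2 := p.w_pos
  have h3 := p.ε_le
  have h4 := p.u_le_w
  have h5 := p.ε_pos
  unfold x
  split_ifs with h
  · have := A_nonneg p j h
    linarith
  · unfold Par.k1; rw [p.h_eq]; linarith

theorem k2_pos : 0 < p.k2 := by unfold Par.k2; linarith [p.ε_pos]

theorem u0 : p.A0 0 - p.A0 (p.n + 4) = (p.m : ℂ) + Par.ω * ⟨-(p.l - p.k1), p.k2⟩ := by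
  have e4 : p.A0 (p.n + 4) = p.T0 + Par.ω * ⟨p.l - p.k1, -p.k2⟩ := by
    unfold Par.A0
    simp
  have e0 : p.A0 0 = p.T0 + p.m := by simp [Par.A0]
  rw [e4, e0]
  have : (⟨-(p.l - p.k1), p.k2⟩ : ℂ) = - ⟨p.l - p.k1, -p.k2⟩ := by
    apply Complex.ext <;> simp
  rw [this]; ring

theorem u1 : p.A0 1 - p.A0 (p.n + 4) = Par.ω * ⟨-(p.l - p.k1), p.k2⟩ := by
  have e4 : p.A0 (p.n + 4) = p.T0 + Par.ω * ⟨p.l - p.k1, -p.k2⟩ := by
    unfold Par.A0
    simp
  have e0 : p.A0 1 = p.T0 := by simp [Par.A0]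
  rw [e4, e0]
  have : (⟨-(p.l - p.k1), p.k2⟩ : ℂ) = - ⟨p.l - p.k1, -p.k2⟩ := by
    apply Complex.ext <;> simp
  rw [this]; ring

theorem u2 (j : ℕ) (hj : j ≤ p.n + 1) : p.A0 (j + 2) - p.A0 (p.n + 4) = Par.ω * v p j := by
  have e4 : p.A0 (p.n + 4) = p.T0 + Par.ω * ⟨p.l - p.k1, -p.k2⟩ := by
    unfold Par.A0
    simp
  rw [e4]
  rcases Nat.lt_or_ge p.n j with h | h
  · have : j = p.n + 1 := by omega
    subst this
    have e0 : p.A0 (p.n + 1 + 2) = p.T0 + Par.ω * (p.l : ℂ) := by simp [Par.A0]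
    rw [e0]
    have : v p (p.n + 1) = (p.l : ℂ) - ⟨p.l - p.k1, -p.k2⟩ := by
      unfold v x
      apply Complex.ext <;> simp
    rw [this]; ring
  · have e0 : p.A0 (j + 2) = p.T0 + Par.ω * ((p.d + p.A j : ℝ) : ℂ) := by simp [Par.A0, h]
    rw [e0]
    have : v p j = ((p.d + p.A j : ℝ) : ℂ) - ⟨p.l - p.k1, -p.k2⟩ := by
      unfold v x
      apply Complex.ext <;> simp [h]
    rw [this]; ring

end N1iAux

open N1iAux in
theorem job_N1i (p : Par) : sweep p.n p.A0 (p.n + 3) =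
    Complex.arg (p.A0 (p.n + 3) - p.A0 (p.n + 4)) - 2 * Real.pi := by
  have hw := p.w_pos
  have hε := p.ε_pos
  have hε' := p.ε_le
  have huw := p.u_le_w
  have htt := p.tt_lt'
  have htt' := p.tt_pos
  have hk2 := k2_pos p
  have hk2' : p.k2 = p.ε / 4 := rfl
  have hlk := hlk p
  have hdk := hdk p
  have hd := p.d_pos
  have hm := p.m_eq
  have hk1 : p.k1 = 10 * p.w - 2 * p.ε := by unfold Par.k1; rw [p.h_eq]
  -- real and imaginary parts
  have i1 : (Par.ω * ⟨-(p.l - p.k1), p.k2⟩ : ℂ).im < 0 := by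
    simp only [Par.ω, Complex.mul_im]
    linarith
  have r0 : 0 < ((p.m : ℂ) + Par.ω * ⟨-(p.l - p.k1), p.k2⟩ : ℂ).re := by
    simp only [Par.ω, Complex.mul_re, Complex.add_re, Complex.ofReal_re]
    linarith
  have i0 : ((p.m : ℂ) + Par.ω * ⟨-(p.l - p.k1), p.k2⟩ : ℂ).im < 0 := by
    rw [Complex.add_im, Complex.ofReal_im, zero_add]; exact i1
  have rP : 0 < (Par.ω * v p (p.n + 1)).re := by
    simp only [Par.ω, v, x, Complex.mul_re]
    simp
    linarith
  have iP : 0 < (Par.ω * v p (p.n + 1)).im := by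
    simp only [Par.ω, v, x, Complex.mul_im]
    simp
    linarith
  have vne : ∀ j, v p j ≠ 0 := fun j h => by
    have := congrArg Complex.im h
    simp only [v, Complex.zero_im] at this
    linarith
  -- nonvanishing
  have hne : ∀ j ≤ p.n + 3, p.A0 j - p.A0 (p.n + 4) ≠ 0 := by
    intro j hj
    rcases j with _ | _ | j
    · rw [u0]; intro h; rw [h] at r0; simp at r0
    · rw [zero_add, u1]; intro h; rw [h] at i1; simp at i1
    · rw [u2 p j (by omega)]
      exact mul_ne_zero Wne (vne j)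
  obtain ⟨N, hN⟩ := sweep_int p.n p.A0 (p.n + 3) hne
  -- the direct computation of the sum
  have hs : sweep p.n p.A0 (p.n + 3) = Complex.arg (p.A0 0 - p.A0 (p.n + 4)) +
      (Complex.arg ((p.A0 1 - p.A0 (p.n + 4)) / (p.A0 0 - p.A0 (p.n + 4))) +
      (Complex.arg ((p.A0 2 - p.A0 (p.n + 4)) / (p.A0 1 - p.A0 (p.n + 4))) +
      (Complex.arg (v p (p.n + 1)) - Complex.arg (v p 0)))) := by
    unfold sweep
    rw [show p.n + 3 = (p.n + 2) + 1 by ring, sum_range_succ', sum_range_succ']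
    have : ∑ k ∈ range (p.n + 1), Complex.arg ((p.A0 (k + 1 + 1 + 1) - p.A0 (p.n + 4)) /
        (p.A0 (k + 1 + 1) - p.A0 (p.n + 4))) =
        ∑ k ∈ range (p.n + 1), (Complex.arg (v p (k + 1)) - Complex.arg (v p k)) := by
      refine sum_congr rfl fun k hk => ?_
      have hk' := mem_range.1 hk
      rw [show k + 1 + 1 + 1 = (k + 1) + 2 by ring, show k + 1 + 1 = k + 2 by ring,
        u2 p (k + 1) (by omega), u2 p k (by omega), mul_div_mul_left _ _ Wne]
      exact quot_eq (x_pos p _) hk2.le (x_pos p _) hk2.le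
    rw [this, sum_range_sub (fun k => Complex.arg (v p k))]
    ring
  -- bounds
  have b0 : Complex.arg ((p.A0 1 - p.A0 (p.n + 4)) / (p.A0 0 - p.A0 (p.n + 4))) < 0 := by
    apply quot_neg (hne 0 (by omega))
    rw [u0, u1, Complex.add_re, Complex.add_im, Complex.ofReal_re, Complex.ofReal_im]
    have : 0 < p.m := p.m_pos
    nlinarith
  have b1 : Complex.arg ((p.A0 2 - p.A0 (p.n + 4)) / (p.A0 1 - p.A0 (p.n + 4))) < 0 := by
    rw [u1, show (2 : ℕ) = 0 + 2 by ring, u2 p 0 (by omega), mul_div_mul_left _ _ Wne]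
    apply quot_neg
    · intro h
      have := congrArg Complex.im h
      simp only [Complex.zero_im] at this
      linarith
    · simp only [v, x, Nat.zero_le, if_true, Par.A, range_zero, sum_empty, add_zero]
      nlinarith
  have b2 : Complex.arg (v p (p.n + 1)) - Complex.arg (v p 0) < 0 := by
    rw [← quot_eq (z := v p (p.n + 1)) (w := v p 0) (x_pos p (p.n + 1)) hk2.le (x_pos p 0) hk2.le]
    apply quot_neg (vne 0)
    have e1 : (v p (p.n + 1)).im = p.k2 := rfl
    have e2 : (v p 0).im = p.k2 := rfl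
    have e3 : (v p (p.n + 1)).re = p.k1 := by simp [v, x]
    have e4 : (v p 0).re = p.d - (p.l - p.k1) := by simp [v, x, Par.A]
    rw [e1, e2, e3, e4]
    nlinarith
  have b2' : -(Real.pi / 2) < Complex.arg (v p (p.n + 1)) - Complex.arg (v p 0) := by
    have h1 := abs_lt.1 (Complex.abs_arg_lt_pi_div_two_iff.2 (Or.inl (show 0 < (v p 0).re from x_pos p 0)))
    have h3 : 0 ≤ Complex.arg (v p (p.n + 1)) :=
      Complex.arg_nonneg_iff.2 (show 0 ≤ (v p (p.n + 1)).im from hk2.le)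
    linarith
  have c0 := Complex.neg_pi_lt_arg ((p.A0 1 - p.A0 (p.n + 4)) / (p.A0 0 - p.A0 (p.n + 4)))
  have c1 := Complex.neg_pi_lt_arg ((p.A0 2 - p.A0 (p.n + 4)) / (p.A0 1 - p.A0 (p.n + 4)))
  have z0 : Complex.arg (p.A0 0 - p.A0 (p.n + 4)) < 0 := by
    rw [u0, Complex.arg_neg_iff]; exact i0
  have z1 : -(Real.pi / 2) < Complex.arg (p.A0 0 - p.A0 (p.n + 4)) := by
    rw [u0]; exact (abs_lt.1 (Complex.abs_arg_lt_pi_div_two_iff.2 (Or.inl r0))).1
  have eP : p.A0 (p.n + 3) - p.A0 (p.n + 4) = Par.ω * v p (p.n + 1) := u2 p (p.n + 1) le_rfl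
  have z2 : 0 ≤ Complex.arg (p.A0 (p.n + 3) - p.A0 (p.n + 4)) := by
    rw [eP]; exact Complex.arg_nonneg_iff.2 iP.le
  have z3 : Complex.arg (p.A0 (p.n + 3) - p.A0 (p.n + 4)) < Real.pi / 2 := by
    rw [eP]; exact (abs_lt.1 (Complex.abs_arg_lt_pi_div_two_iff.2 (Or.inl rP))).2
  have hp := Real.pi_pos
  rw [hs] at hN
  have hN1 : N = -1 := by
    have a1 : (N : ℝ) < 0 := by
      by_contra hc
      push Not at hc
      have : 0 ≤ 2 * Real.pi * (N : ℝ) := by positivity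
      linarith
    have a2 : (-2 : ℝ) < N := by
      by_contra hc
      push Not at hc
      nlinarith
    have a1' : N < 0 := by exact_mod_cast a1
    have a2' : -2 < N := by exact_mod_cast a2
    omega
  rw [hs, hN, hN1]
  push_cast
  ring

end Pool.Agent.H263_NU
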