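import Pool.Agent.H263_NU.Stmts

/-!
# Job N2: the critical position determines a solution
-/

set_option autoImplicit false

namespace Pool.Agent.H263_NU

open Finset

theorem N2_re (r α : ℝ) : ((r : ℂ) * Complex.exp (α * Complex.I)).re = r * Real.cos α := by
  rw [Complex.re_ofReal_mul, Complex.exp_ofReal_mul_I_re]

theorem N2_im (r α : ℝ) : ((r : ℂ) * Complex.exp (α * Complex.I)).im = r * Real.sin α := by
  rw [Complex.im_ofReal_mul, Complex.exp_ofReal_mul_I_im]

theorem N2_cr {A B Q : ℂ} (h1 : Q.re < A.re) (h2 : B.re ≤ Q.re)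
    (h3 : 0 < (B.re - Q.re) * (A.im - Q.im) - (B.im - Q.im) * (A.re - Q.re)) :
    ∃ U ∈ segment ℝ A B, U.re = Q.re ∧ U.im < Q.im := by
  have hd : 0 < A.re - B.re := by linarith
  have ht0 : 0 ≤ (A.re - Q.re) / (A.re - B.re) := div_nonneg (by linarith) hd.le
  have ht1 : (A.re - Q.re) / (A.re - B.re) ≤ 1 := by
    rw [div_le_one hd]
    linarith
  obtain ⟨t, ht⟩ : ∃ t, t = (A.re - Q.re) / (A.re - B.re) := ⟨_, rfl⟩
  rw [← ht] at ht0 ht1
  have htd : t * (A.re - B.re) = A.re - Q.re := by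
    rw [ht]
    field_simp
  refine ⟨(1 - t) • A + t • B, ⟨1 - t, t, by linarith, ht0, by ring, rfl⟩, ?_, ?_⟩
  · simp only [Complex.add_re, Complex.real_smul, Complex.re_ofReal_mul]
    linarith
  · simp only [Complex.add_im, Complex.real_smul, Complex.im_ofReal_mul]
    by_contra hcon
    push Not at hcon
    have h4 : 0 ≤ ((1 - t) * A.im + t * B.im - Q.im) * (A.re - B.re) :=
      mul_nonneg (by linarith) hd.le
    have h5 : ((1 - t) * A.im + t * B.im - Q.im) * (A.re - B.re) =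
        (A.im - Q.im) * (A.re - B.re) + (t * (A.re - B.re)) * (B.im - A.im) := by ring
    rw [h5, htd] at h4
    nlinarith

theorem N2_cr' {A B Q : ℂ} (h1 : A.re < Q.re) (h2 : Q.re ≤ B.re)
    (h3 : 0 < (B.re - Q.re) * (A.im - Q.im) - (B.im - Q.im) * (A.re - Q.re)) :
    ∃ U ∈ segment ℝ A B, U.re = Q.re ∧ Q.im < U.im := by
  have hd : 0 < B.re - A.re := by linarith
  have ht0 : 0 ≤ (Q.re - A.re) / (B.re - A.re) := div_nonneg (by linarith) hd.le
  have ht1 : (Q.re - A.re) / (B.re - A.re) ≤ 1 := by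
    rw [div_le_one hd]
    linarith
  obtain ⟨t, ht⟩ : ∃ t, t = (Q.re - A.re) / (B.re - A.re) := ⟨_, rfl⟩
  rw [← ht] at ht0 ht1
  have htd : t * (B.re - A.re) = Q.re - A.re := by
    rw [ht]
    field_simp
  refine ⟨(1 - t) • A + t • B, ⟨1 - t, t, by linarith, ht0, by ring, rfl⟩, ?_, ?_⟩
  · simp only [Complex.add_re, Complex.real_smul, Complex.re_ofReal_mul]
    linarith
  · simp only [Complex.add_im, Complex.real_smul, Complex.im_ofReal_mul]
    by_contra hcon
    push Not at hcon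
    have h4 : ((1 - t) * A.im + t * B.im - Q.im) * (B.re - A.re) ≤ 0 :=
      mul_nonpos_of_nonpos_of_nonneg (by linarith) hd.le
    have h5 : ((1 - t) * A.im + t * B.im - Q.im) * (B.re - A.re) =
        (A.im - Q.im) * (B.re - A.re) + (t * (B.re - A.re)) * (B.im - A.im) := by ring
    rw [h5, htd] at h4
    nlinarith

/-- the cross product of two points given by angles -/
theorem N2_cross {A B Q : ℂ} {α β : ℝ}
    (hA : A - Q = (‖A - Q‖ : ℂ) * Complex.exp (α * Complex.I))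
    (hB : B - Q = (‖B - Q‖ : ℂ) * Complex.exp (β * Complex.I)) (hAQ : A ≠ Q) (hBQ : B ≠ Q)
    (h1 : 0 < α - β) (h2 : α - β < Real.pi) :
    0 < (B.re - Q.re) * (A.im - Q.im) - (B.im - Q.im) * (A.re - Q.re) := by
  have a1 := congrArg Complex.re hA
  have a2 := congrArg Complex.im hA
  have b1 := congrArg Complex.re hB
  have b2 := congrArg Complex.im hB
  rw [N2_re, Complex.sub_re] at a1 b1
  rw [N2_im, Complex.sub_im] at a2 b2
  rw [a1, a2, b1, b2]
  have hs : 0 < Real.sin (α - β) := Real.sin_pos_of_pos_of_lt_pi h1 h2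
  rw [Real.sin_sub] at hs
  have hA0 : 0 < ‖A - Q‖ := norm_pos_iff.2 (sub_ne_zero.2 hAQ)
  have hB0 : 0 < ‖B - Q‖ := norm_pos_iff.2 (sub_ne_zero.2 hBQ)
  have := mul_pos (mul_pos hA0 hB0) hs
  nlinarith

theorem N2_sgn {A Q : ℂ} {α : ℝ}
    (hA : A - Q = (‖A - Q‖ : ℂ) * Complex.exp (α * Complex.I)) :
    A.re - Q.re = ‖A - Q‖ * Real.cos α := by
  have a1 := congrArg Complex.re hA
  rwa [N2_re, Complex.sub_re] at a1

/-- the crossings -/
theorem N2_crossings {n : ℕ} {q : ℕ → ℂ} {F : ℕ → ℝ} (hne : ∀ k ≤ n + 3, q k ≠ q (n + 4))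
    (hF : ∀ k ≤ n + 3, q k - q (n + 4) =
      (‖q k - q (n + 4)‖ : ℂ) * Complex.exp (F k * Complex.I))
    (hs : ∀ k < n + 3, |F (k + 1) - F k| < Real.pi) (h0 : -(Real.pi / 2) < F 0)
    (hn' : F (n + 3) ≤ -(3 * Real.pi / 2)) :
    ∃ j1 j3 : ℕ, j1 < j3 ∧ j3 ≤ n + 2 ∧
      (∃ U ∈ segment ℝ (q j1) (q (j1 + 1)), U.re = (q (n + 4)).re ∧ U.im < (q (n + 4)).im) ∧
      (∃ U ∈ segment ℝ (q j3) (q (j3 + 1)), U.re = (q (n + 4)).re ∧ (q (n + 4)).im < U.im) ∧
      (q (n + 4)).re < (q j1).re ∧ (q (j1 + 1)).re ≤ (q (n + 4)).re ∧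
      (q j3).re < (q (n + 4)).re := by
  classical
  have hpi := Real.pi_pos
  have ex1 : ∃ k, k ≤ n + 3 ∧ F k ≤ -(Real.pi / 2) := ⟨n + 3, le_rfl, by linarith⟩
  have ex3 : ∃ k, k ≤ n + 3 ∧ F k ≤ -(3 * Real.pi / 2) := ⟨n + 3, le_rfl, hn'⟩
  obtain ⟨k1, hk1⟩ : ∃ k, k = Nat.find ex1 := ⟨_, rfl⟩
  obtain ⟨k3, hk3⟩ : ∃ k, k = Nat.find ex3 := ⟨_, rfl⟩
  have s1 := Nat.find_spec ex1
  have s3 := Nat.find_spec ex3
  have m1 : ∀ k < k1, k ≤ n + 3 → -(Real.pi / 2) < F k := by
    intro k hk hk'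
    by_contra hcon
    push Not at hcon
    exact Nat.find_min ex1 (hk1 ▸ hk) ⟨hk', hcon⟩
  have m3 : ∀ k < k3, k ≤ n + 3 → -(3 * Real.pi / 2) < F k := by
    intro k hk hk'
    by_contra hcon
    push Not at hcon
    exact Nat.find_min ex3 (hk3 ▸ hk) ⟨hk', hcon⟩
  rw [← hk1] at s1
  rw [← hk3] at s3
  have k1pos : k1 ≠ 0 := by
    intro h
    rw [h] at s1
    linarith [s1.2]
  have k3pos : k3 ≠ 0 := by
    intro h
    rw [h] at s3
    linarith [s3.2]
  obtain ⟨j1, rfl⟩ : ∃ j, k1 = j + 1 := ⟨k1 - 1, by omega⟩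
  obtain ⟨j3, rfl⟩ : ∃ j, k3 = j + 1 := ⟨k3 - 1, by omega⟩
  have f1 := m1 j1 (by omega) (by omega)
  have f3 := m3 j3 (by omega) (by omega)
  have d1 := abs_lt.1 (hs j1 (by omega))
  have d3 := abs_lt.1 (hs j3 (by omega))
  have hlt : j1 < j3 := by
    by_contra hcon
    push Not at hcon
    have := m1 j3 (by omega) (by omega)
    linarith [s3.2]
  refine ⟨j1, j3, hlt, by omega, ?_, ?_, ?_, ?_, ?_⟩
  · apply N2_cr
    · have := N2_sgn (hF j1 (by omega))
      have hc : 0 < Real.cos (F j1) := Real.cos_pos_of_mem_Ioo ⟨by linarith, by linarith [s1.2]⟩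
      have hp : 0 < ‖q j1 - q (n + 4)‖ := norm_pos_iff.2 (sub_ne_zero.2 (hne j1 (by omega)))
      have := mul_pos hp hc
      linarith
    · have := N2_sgn (hF (j1 + 1) (by omega))
      have hc : Real.cos (F (j1 + 1)) ≤ 0 := by
        rw [← Real.cos_neg]
        exact Real.cos_nonpos_of_pi_div_two_le_of_le (by linarith [s1.2]) (by linarith)
      have := mul_nonneg (norm_nonneg (q (j1 + 1) - q (n + 4))) (neg_nonneg.2 hc)
      linarith
    · exact N2_cross (hF j1 (by omega)) (hF (j1 + 1) (by omega)) (hne _ (by omega))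
        (hne _ (by omega)) (by linarith [s1.2]) (by linarith)
  · apply N2_cr'
    · have := N2_sgn (hF j3 (by omega))
      have hc : Real.cos (F j3) < 0 := by
        rw [← Real.cos_neg]
        exact Real.cos_neg_of_pi_div_two_lt_of_lt (by linarith [s3.2]) (by linarith)
      have hp : 0 < ‖q j3 - q (n + 4)‖ := norm_pos_iff.2 (sub_ne_zero.2 (hne j3 (by omega)))
      have := mul_pos hp (neg_pos.2 hc)
      linarith
    · have := N2_sgn (hF (j3 + 1) (by omega))
      have hc : 0 ≤ Real.cos (F (j3 + 1)) := by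
        rw [← Real.cos_add_two_pi]
        exact Real.cos_nonneg_of_mem_Icc ⟨by linarith, by linarith [s3.2]⟩
      have := mul_nonneg (norm_nonneg (q (j3 + 1) - q (n + 4))) hc
      linarith
    · exact N2_cross (hF j3 (by omega)) (hF (j3 + 1) (by omega)) (hne _ (by omega))
        (hne _ (by omega)) (by linarith [s3.2]) (by linarith)
  · have := N2_sgn (hF j1 (by omega))
    have hc : 0 < Real.cos (F j1) := Real.cos_pos_of_mem_Ioo ⟨by linarith, by linarith [s1.2]⟩
    have hp : 0 < ‖q j1 - q (n + 4)‖ := norm_pos_iff.2 (sub_ne_zero.2 (hne j1 (by omega)))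
    have := mul_pos hp hc
    linarith
  · have := N2_sgn (hF (j1 + 1) (by omega))
    have hc : Real.cos (F (j1 + 1)) ≤ 0 := by
      rw [← Real.cos_neg]
      exact Real.cos_nonpos_of_pi_div_two_le_of_le (by linarith [s1.2]) (by linarith)
    have := mul_nonneg (norm_nonneg (q (j1 + 1) - q (n + 4))) (neg_nonneg.2 hc)
    linarith
  · have := N2_sgn (hF j3 (by omega))
    have hc : Real.cos (F j3) < 0 := by
      rw [← Real.cos_neg]
      exact Real.cos_neg_of_pi_div_two_lt_of_lt (by linarith [s3.2]) (by linarith)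
    have hp : 0 < ‖q j3 - q (n + 4)‖ := norm_pos_iff.2 (sub_ne_zero.2 (hne j3 (by omega)))
    have := mul_pos hp (neg_pos.2 hc)
    linarith

namespace Par

variable (p : Par)

theorem N2_len0 : p.len 0 = p.m := by simp [len]

theorem N2_len1 : p.len 1 = p.d := by simp [len]

theorem N2_leni {i : ℕ} (hi : i < p.n) : p.len (i + 2) = p.a i := by
  unfold len
  rw [if_neg (by omega), if_neg (by omega), if_pos (by omega)]
  rfl

theorem N2_leny : p.len (p.n + 2) = p.y := by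
  unfold len
  rw [if_neg (by omega), if_neg (by omega), if_neg (by omega), if_pos rfl]

theorem N2_lene : p.len (p.n + 3) = p.e := by
  unfold len
  rw [if_neg (by omega), if_neg (by omega), if_neg (by omega), if_neg (by omega), if_pos rfl]

theorem N2_lenb : p.len (p.n + 4) = p.b := by
  unfold len
  rw [if_neg (by omega), if_neg (by omega), if_neg (by omega), if_neg (by omega),
    if_neg (by omega)]

theorem N2_len_nonneg (j : ℕ) : 0 ≤ p.len j := by
  unfold len
  have h1 := p.m_pos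
  have h2 := p.d_pos
  have h3 := p.y_pos
  split_ifs with h4 h5 h6 h7 h8
  · exact h1.le
  · exact h2.le
  · exact (p.a_pos (by omega)).le
  · exact h3.le
  · exact Real.sqrt_nonneg _
  · exact Real.sqrt_nonneg _

theorem N2_sum_items : ∑ k ∈ Ico 2 (p.n + 2), p.len k = p.w := by
  rw [Finset.sum_Ico_eq_sum_range]
  unfold w
  have e : p.n + 2 - 2 = p.n := by omega
  rw [e]
  apply Finset.sum_congr rfl
  intro i hi
  rw [Nat.add_comm 2 i]
  exact p.N2_leni (Finset.mem_range.1 hi)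

theorem N2_sum1 : ∑ k ∈ Ico 1 (p.n + 2), p.len k = p.d + p.w := by
  rw [Finset.sum_eq_sum_Ico_succ_bot (by omega), N2_sum_items, N2_len1]

theorem N2_sum1' : ∑ k ∈ Ico 1 (p.n + 3), p.len k = p.d + p.w + p.y := by
  rw [Finset.sum_Ico_succ_top (by omega), N2_sum1, N2_leny]

theorem N2_sum_mono {i j i' j' : ℕ} (hi : i' ≤ i) (hj : j ≤ j') :
    ∑ k ∈ Ico i j, p.len k ≤ ∑ k ∈ Ico i' j', p.len k :=
  Finset.sum_le_sum_of_subset_of_nonneg (Finset.Ico_subset_Ico hi hj)
    (fun k _ _ => p.N2_len_nonneg k)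

theorem N2_e_ge : p.h - 2 * p.ε ≤ p.e := by
  unfold e k1
  apply Real.le_sqrt_of_sq_le
  nlinarith [sq_nonneg p.k2]

theorem N2_b_ge : p.h - 3 * p.ε ≤ p.b := by
  unfold b k1 k3
  apply Real.le_sqrt_of_sq_le
  nlinarith [sq_nonneg (p.k2 - p.k4)]

end Par

theorem N2_abs_im (A B : ℂ) : |A.im - B.im| ≤ dist A B := by
  rw [dist_eq_norm, ← Complex.sub_im]
  exact Complex.abs_im_le_norm _

theorem N2_abs_re (A B : ℂ) : |A.re - B.re| ≤ dist A B := by
  rw [dist_eq_norm, ← Complex.sub_re]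
  exact Complex.abs_re_le_norm _

theorem N2_sq (A B : ℂ) : (A.re - B.re) ^ 2 + (A.im - B.im) ^ 2 = dist A B ^ 2 := by
  rw [dist_eq_norm, ← Complex.normSq_eq_norm_sq, Complex.normSq_apply, Complex.sub_re,
    Complex.sub_im]
  ring

theorem N2_dist_le (A B : ℂ) : dist A B ≤ |A.re - B.re| + |A.im - B.im| := by
  rw [dist_eq_norm]
  have := Complex.norm_le_abs_re_add_abs_im (A - B)
  rwa [Complex.sub_re, Complex.sub_im] at this

theorem N2_seg {A B U : ℂ} (hU : U ∈ segment ℝ A B) : ∃ s t : ℝ, 0 ≤ s ∧ 0 ≤ t ∧ s + t = 1 ∧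
    U.re = s * A.re + t * B.re ∧ U.im = s * A.im + t * B.im := by
  obtain ⟨s, t, hs, ht, hst, rfl⟩ := hU
  refine ⟨s, t, hs, ht, hst, ?_, ?_⟩
  · simp
  · simp

theorem N2_vert {A B U : ℂ} (h1 : U.re = A.re) (h2 : B.re = A.re) (h3 : A.im ≤ U.im)
    (h4 : U.im ≤ B.im) : U ∈ segment ℝ A B := by
  rcases eq_or_lt_of_le (h3.trans h4) with h5 | h5
  · have : U = A := Complex.ext h1 (by linarith)
    rw [this]
    exact left_mem_segment ℝ A B
  · have hd : 0 < B.im - A.im := by linarith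
    refine ⟨(B.im - U.im) / (B.im - A.im), (U.im - A.im) / (B.im - A.im),
      div_nonneg (by linarith) hd.le, div_nonneg (by linarith) hd.le, ?_, ?_⟩
    · rw [← add_div]
      rw [show B.im - U.im + (U.im - A.im) = B.im - A.im by ring]
      exact div_self hd.ne'
    · apply Complex.ext
      · simp only [Complex.add_re, Complex.real_smul, Complex.re_ofReal_mul]
        rw [h2, h1, ← add_mul, ← add_div]
        rw [show B.im - U.im + (U.im - A.im) = B.im - A.im by ring, div_self hd.ne', one_mul]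
      · simp only [Complex.add_im, Complex.real_smul, Complex.im_ofReal_mul]
        field_simp
        ring

section

variable {p : Par} {q : ℕ → ℂ}

theorem N2_tri_seg {h η : ℝ} {A B U : ℂ} (hA : A ∈ Tri h η) (hB : B ∈ Tri h η)
    (hU : U ∈ segment ℝ A B) : U ∈ Tri h η := by
  obtain ⟨s, t, hs, ht, hst, h1, h2⟩ := N2_seg hU
  obtain ⟨a1, a2, a3⟩ := hA
  obtain ⟨b1, b2, b3⟩ := hB
  have hs1 : s = 1 - t := by linarith
  subst hs1
  have key : ∀ x y : ℝ, 0 < x → 0 < y → 0 < (1 - t) * x + t * y := by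
    intro x y hx hy
    rcases eq_or_lt_of_le ht with h0 | h0
    · rw [← h0]
      linarith
    · have := mul_pos h0 hy
      have := mul_nonneg hs hx.le
      linarith
  refine ⟨?_, ?_, ?_⟩
  · rw [h1]
    exact key _ _ a1 b1
  · rw [h2]
    exact key _ _ a2 b2
  · rw [h1, h2]
    have := key (h - (A.im + η * A.re)) (h - (B.im + η * B.re)) (by linarith) (by linarith)
    nlinarith

theorem N2_dist_chain (hq : q ∈ p.FS) {i j : ℕ} (hij : i ≤ j) (hj : j ≤ p.n + 5) :
    dist (q i) (q j) ≤ ∑ k ∈ Ico i j, p.len k :=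
  dist_le_Ico_sum_of_dist_le hij (fun {k} _ hk => (hq.1 k (by omega)).le)

theorem N2_bar (hq : q ∈ p.FS) {j : ℕ} (hj : j < p.n + 5) {U : ℂ}
    (hU : U ∈ segment ℝ (q j) (q (j + 1))) : dist (q j) U + dist U (q (j + 1)) = p.len j := by
  rw [dist_add_dist_of_mem_segment hU]
  exact hq.1 j hj

/-- the point of the chain from which the lengths of paths are measured -/
theorem N2_X (hq : q ∈ p.FS) {j1 j3 : ℕ} (hj : j1 < j3) (hj3 : j3 ≤ p.n + 2) {U1 : ℂ}
    (hU1 : U1 ∈ segment ℝ (q j1) (q (j1 + 1))) (hc : U1.re ≤ 10 * p.w)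
    (hre : U1.re < (q j1).re) (hre' : (q (j1 + 1)).re ≤ U1.re) :
    ∃ X : ℂ, X.im ≤ 2 * U1.im ∧ dist X (q j3) ≤ ∑ k ∈ Ico 1 j3, p.len k ∧
      (j1 = 0 → X = q 1) := by
  have hw := p.w_pos
  rcases Nat.eq_zero_or_pos j1 with h0 | h0
  · subst h0
    refine ⟨q 1, ?_, N2_dist_chain hq (by omega) (by omega), fun _ => rfl⟩
    obtain ⟨s, t, hs, ht, hst, h1, h2⟩ := N2_seg hU1
    have hT := hq.2.2 1 (by omega)
    have hZ := hq.2.2 0 (by omega)
    have hsq := N2_sq (q 0) (q 1)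
    rw [hq.1 0 (by omega), p.N2_len0, p.m_eq] at hsq
    have hT3 := hT.2.2
    have hZ3 := hZ.2.2
    rw [p.h_eq] at hT3 hZ3
    have hη := p.η_pos
    have hT1 := mul_pos hη hT.1
    have hZ1 := mul_pos hη hZ.1
    have hT2 := hT.2.1
    have hZ2 := hZ.2.1
    have h3 : ((q 0).im - (q 1).im) ^ 2 ≤ (10 * p.w) ^ 2 := by
      apply sq_le_sq'
      · linarith
      · linarith
    have h4 : 90 * p.w ≤ (q 0).re - (q 1).re := by
      have h5 : (90 * p.w) ^ 2 ≤ ((q 0).re - (q 1).re) ^ 2 := by nlinarith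
      have h6 : 0 ≤ (q 0).re - (q 1).re := by
        simp only [zero_add] at hre'
        linarith
      exact le_of_sq_le_sq h5 h6
    simp only [zero_add] at h1 h2 hre'
    have ht' : t = 1 - s := by linarith
    rw [ht'] at h1 h2
    have h5 : s * ((q 0).re - (q 1).re) = U1.re - (q 1).re := by
      rw [h1]
      ring
    have hT0 := hT.1
    have h6 : s * (90 * p.w) ≤ 10 * p.w := by
      have := mul_le_mul_of_nonneg_left h4 hs
      linarith
    have h7 : s ≤ 1 / 9 := by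
      by_contra hcon
      push Not at hcon
      nlinarith
    have h8 := mul_nonneg hs hZ2.le
    nlinarith
  · refine ⟨U1, ?_, ?_, fun h => absurd h (by omega)⟩
    · have := (N2_tri_seg (hq.2.2 j1 (by omega)) (hq.2.2 (j1 + 1) (by omega)) hU1).2.1
      linarith
    · have h1 := N2_bar hq (by omega) hU1
      have h2 : dist U1 (q (j1 + 1)) ≤ p.len j1 := by
        have := dist_nonneg (x := q j1) (y := U1)
        linarith
      have h3 := N2_dist_chain hq (i := j1 + 1) (j := j3) (by omega) (by omega)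
      have h4 := dist_triangle U1 (q (j1 + 1)) (q j3)
      have h5 : ∑ k ∈ Ico j1 j3, p.len k = p.len j1 + ∑ k ∈ Ico (j1 + 1) j3, p.len k :=
        Finset.sum_eq_sum_Ico_succ_bot hj _
      have h6 := p.N2_sum_mono (i := j1) (j := j3) (i' := 1) (j' := j3) h0 le_rfl
      linarith

/-- Case B is impossible. -/
theorem N2_caseB (hq : q ∈ p.FS) {j1 j3 : ℕ} (hj : j1 < j3) (hj3 : j3 ≤ p.n + 2) {U1 U3 : ℂ}
    (hU1 : U1 ∈ segment ℝ (q j1) (q (j1 + 1))) (hU1re : U1.re = (q (p.n + 4)).re)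
    (hU1im : U1.im < (q (p.n + 4)).im)
    (hU3 : U3 ∈ segment ℝ (q j3) (q (j3 + 1)))
    (hU3im : (q (p.n + 4)).im < U3.im) (hre : (q (p.n + 4)).re < (q j1).re)
    (hre' : (q (j1 + 1)).re ≤ (q (p.n + 4)).re)
    (hP : (q (p.n + 3)).re = (q (p.n + 4)).re) (hPim : (q (p.n + 3)).im < (q (p.n + 4)).im) :
    False := by
  have hw := p.w_pos
  have hε := p.ε_le
  have huw := p.u_le_w
  have hε0 := p.ε_pos
  have hη := p.η_pos
  have hu := p.u_pos
  have hQ := hq.2.2 (p.n + 4) (by omega)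
  have hPt := hq.2.2 (p.n + 3) (by omega)
  have hsq := N2_sq (q (p.n + 3)) (q (p.n + 4))
  rw [hq.1 (p.n + 3) (by omega), p.N2_lene, hP] at hsq
  have he := p.N2_e_ge
  have hh := p.h_eq
  have he0 : 0 < p.e := by linarith
  have him : (q (p.n + 4)).im - (q (p.n + 3)).im = p.e := by
    have h1 : ((q (p.n + 4)).im - (q (p.n + 3)).im) ^ 2 = p.e ^ 2 := by nlinarith
    have h2 : 0 ≤ (q (p.n + 4)).im - (q (p.n + 3)).im := by linarith
    exact (sq_eq_sq₀ h2 he0.le).1 h1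
  have hQ3 := hQ.2.2
  have hQ1 := hQ.1
  have hηc := mul_pos hη hQ1
  have hP2 := hPt.2.1
  -- `c ≤ 10 w`
  have hcw : (q (p.n + 4)).re ≤ 10 * p.w := by
    have h1 : p.η * (q (p.n + 4)).re < 2 * p.ε := by linarith
    have h2 : p.ε = p.h * p.η ^ 2 := rfl
    have h3 : p.η * (q (p.n + 4)).re < p.η * (2 * p.h * p.η) := by
      calc p.η * (q (p.n + 4)).re < 2 * p.ε := h1
        _ = p.η * (2 * p.h * p.η) := by rw [h2]; ring
    have h4 := lt_of_mul_lt_mul_left h3 hη.le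
    have h5 := p.η_le
    rw [hh] at h4
    nlinarith
  -- `U1` is below `P`
  have hU1P : U1.im < (q (p.n + 3)).im := by
    by_contra hcon
    push Not at hcon
    have hmem : U1 ∈ segment ℝ (q (p.n + 3)) (q (p.n + 3 + 1)) :=
      N2_vert (hU1re.trans hP.symm) hP.symm hcon hU1im.le
    have := hq.2.1 j1 (p.n + 3) (by omega) (by omega) U1 hU1 hmem
    omega
  obtain ⟨X, hX, hXd, -⟩ := N2_X hq hj hj3 hU1 (by rw [hU1re]; exact hcw)
    (by rw [hU1re]; exact hre) (by rw [hU1re]; exact hre')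
  have hbar := N2_bar hq (by omega) hU3
  have h1 := N2_dist_chain hq (i := j3 + 1) (j := p.n + 3) (by omega) (by omega)
  have h2 := dist_triangle X (q j3) U3
  have h3 := dist_triangle U3 (q (j3 + 1)) (q (p.n + 3))
  have h4 : ∑ k ∈ Ico 1 (p.n + 3), p.len k =
      ∑ k ∈ Ico 1 (j3 + 1), p.len k + ∑ k ∈ Ico (j3 + 1) (p.n + 3), p.len k :=
    (Finset.sum_Ico_consecutive _ (by omega) (by omega)).symm
  rw [p.N2_sum1', Finset.sum_Ico_succ_top (by omega)] at h4
  have h5 := N2_abs_im X U3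
  have h6 := N2_abs_im U3 (q (p.n + 3))
  have h7 := neg_abs_le (X.im - U3.im)
  have h8 := le_abs_self (U3.im - (q (p.n + 3)).im)
  have h9 := p.d_eq
  have h10 := p.y_eq
  have h11 := p.tt_pos
  linarith

/-- A bar with small horizontal extent. -/
theorem N2_err {dx dy l δ : ℝ} (hl : 0 < l) (h : dx ^ 2 + dy ^ 2 = l ^ 2) (hd : |dx| ≤ δ) :
    |(|dy| - l)| ≤ δ ^ 2 / l := by
  have h1 : 0 ≤ |dy| := abs_nonneg dy
  have h2 : |dy| ≤ l := by
    apply abs_le_of_sq_le_sq _ hl.le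
    nlinarith [sq_nonneg dx]
  have h3 : dx ^ 2 ≤ δ ^ 2 := by
    rw [← sq_abs dx]
    exact pow_le_pow_left₀ (abs_nonneg _) hd 2
  rw [abs_of_nonpos (by linarith), le_div_iff₀ hl]
  have h4 : (l - |dy|) * (l + |dy|) = dx ^ 2 := by
    have := sq_abs dy
    nlinarith
  nlinarith

theorem N2_r1 {t A B : ℝ} (hA : 0 < A) (ht : 1 / 2 < t) (hB : A ≤ B) : 1 / 2 * A ≤ t * B := by
  nlinarith

theorem N2_r2 {t x y u : ℝ} (ht : t ≤ 1 / 2) (hx : 0 < x) (hy : 0 ≤ t * y)
    (h : u = (1 - t) * x + t * y) : x ≤ 2 * u := by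
  nlinarith

theorem N2_r3 {t a b c : ℝ} (ht : t ≤ 1 / 2) (hb : 0 < b) (hbc : b < c)
    (h : (1 - t) * (a - b) = c - b) : a - b ≤ 2 * c ∧ 0 ≤ a - b := by
  have h1 : 0 ≤ a - b := by
    by_contra hcon
    push Not at hcon
    nlinarith
  exact ⟨by nlinarith, h1⟩

theorem N2_r4 {t a b c : ℝ} (ht : 1 / 4 ≤ t) (hb : 0 < b) (hbc : b < c)
    (h : t * (a - b) = c - b) : a - b ≤ 4 * c ∧ 0 ≤ a - b := by
  have h1 : 0 ≤ a - b := by
    by_contra hcon
    push Not at hcon
    nlinarith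
  exact ⟨by nlinarith, h1⟩

theorem N2_r5 {t a b : ℝ} (ht : 1 / 4 ≤ t) (hb : 0 ≤ b) (h : t * a = b) : 0 ≤ a := by
  by_contra hcon
  push Not at hcon
  nlinarith

theorem N2_r6 {c u w : ℝ} (hc : 0 < c) (h : 100 * c < 3 * u) (_ : 0 < u) (huw : u ≤ w) :
    c ^ 2 ≤ 9 / 10000 * (u * w) := by
  have h1 : c ^ 2 ≤ (3 / 100 * u) ^ 2 := pow_le_pow_left₀ hc.le (by linarith) 2
  nlinarith

theorem N2_r7 {c u w d : ℝ} (h : c ^ 2 ≤ 9 / 10000 * (u * w)) (hu : 0 < u) (hd : w ≤ d) :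
    (2 * c) ^ 2 ≤ u / 100 * d := by
  nlinarith

theorem N2_r8 {c u w : ℝ} (h : c ^ 2 ≤ 9 / 10000 * (u * w)) (hu : 0 < u) (hw : 0 < w) :
    (4 * c) ^ 2 ≤ u / 100 * (4 * w) := by
  nlinarith [mul_pos hu hw]

theorem N2_r9 {n c u w η : ℝ} (hc : 0 < c) (hu : 0 < u) (hw : 0 < w) (h1 : n * u ≤ w)
    (h2 : 1000 * w ^ 2 * η ≤ u ^ 2) (hc1 : c < 30 * (w * η)) (hc2 : 100 * c < 3 * u) :
    n * c ^ 2 ≤ u / 100 * u := by
  have h3 : n * u * c ^ 2 ≤ w * c ^ 2 := mul_le_mul_of_nonneg_right h1 (sq_nonneg c)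
  have h4 : w * c ^ 2 ≤ c * (30 * (w ^ 2 * η)) := by
    have := mul_le_mul_of_nonneg_left hc1.le (mul_pos hw hc).le
    nlinarith
  have h5 : c * (30 * (w ^ 2 * η)) ≤ c * (3 / 100 * u ^ 2) := by
    apply mul_le_mul_of_nonneg_left _ hc.le
    linarith
  have h6 : c * (3 / 100 * u ^ 2) ≤ (3 / 100 * u) * (3 / 100 * u ^ 2) := by
    apply mul_le_mul_of_nonneg_right _ (by positivity)
    linarith
  have h7 : n * c ^ 2 * u ≤ (u / 100 * u) * u := by
    nlinarith [mul_pos hu (mul_pos hu hu)]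
  exact le_of_mul_le_mul_right h7 hu

/-- Case A determines a solution. -/
theorem N2_caseA (hq : q ∈ p.FS) {j1 j3 : ℕ} (hj : j1 < j3) (hj3 : j3 ≤ p.n + 2) {U1 U3 : ℂ}
    (hU1 : U1 ∈ segment ℝ (q j1) (q (j1 + 1))) (hU1re : U1.re = (q (p.n + 4)).re)
    (hU1im : U1.im < (q (p.n + 4)).im)
    (hU3 : U3 ∈ segment ℝ (q j3) (q (j3 + 1))) (hU3re : U3.re = (q (p.n + 4)).re)
    (hU3im : (q (p.n + 4)).im < U3.im) (hre : (q (p.n + 4)).re < (q j1).re)
    (hre' : (q (j1 + 1)).re ≤ (q (p.n + 4)).re) (hre3 : (q j3).re < (q (p.n + 4)).re)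
    (hS : (q (p.n + 5)).re = (q (p.n + 4)).re) (hSim : (q (p.n + 4)).im < (q (p.n + 5)).im) :
    ∃ s : ℕ → ℝ, (∀ i, s i = 1 ∨ s i = -1) ∧
      |∑ i ∈ range p.n, s i * p.a i - (2 * p.tt - p.w)| < p.u := by
  have hw := p.w_pos
  have hε := p.ε_le
  have huw := p.u_le_w
  have hε0 := p.ε_pos
  have hη := p.η_pos
  have hu := p.u_pos
  have hh := p.h_eq
  have hd := p.d_eq
  have hy := p.y_eq
  have htt := p.tt_pos
  have htt' := p.tt_lt'
  have hQ := hq.2.2 (p.n + 4) (by omega)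
  have hSt := hq.2.2 (p.n + 5) (by omega)
  have hsq := N2_sq (q (p.n + 4)) (q (p.n + 5))
  rw [hq.1 (p.n + 4) (by omega), p.N2_lenb, hS] at hsq
  have hb := p.N2_b_ge
  have hb0 : 0 < p.b := by linarith
  have him : (q (p.n + 5)).im - (q (p.n + 4)).im = p.b := by
    have h1 : ((q (p.n + 5)).im - (q (p.n + 4)).im) ^ 2 = p.b ^ 2 := by nlinarith
    have h2 : 0 ≤ (q (p.n + 5)).im - (q (p.n + 4)).im := by linarith
    exact (sq_eq_sq₀ h2 hb0.le).1 h1
  obtain ⟨c, hc⟩ : ∃ c, c = (q (p.n + 4)).re := ⟨_, rfl⟩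
  have hS3 := hSt.2.2
  rw [hS] at hS3
  have hQ1 := hQ.1
  have hQ2 := hQ.2.1
  rw [← hc] at hU1re hU3re hre hre' hre3 hS hS3 hQ1
  have hηc := mul_pos hη hQ1
  have hc1 : c < 30 * (p.w * p.η) := by
    have h1 : p.η * c < 3 * p.ε := by linarith
    have h2 : p.ε = p.h * p.η ^ 2 := rfl
    have h3 : p.η * c < p.η * (3 * p.h * p.η) := by
      calc p.η * c < 3 * p.ε := h1
        _ = p.η * (3 * p.h * p.η) := by rw [h2]; ring
    have h4 := lt_of_mul_lt_mul_left h3 hη.le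
    rw [hh] at h4
    linarith
  have hc2 : 100 * c < 3 * p.u := by
    have := p.wη
    linarith
  have hQim : (q (p.n + 4)).im < 3 * p.ε := by linarith
  have hSim' : p.h - 3 * p.ε < (q (p.n + 5)).im := by linarith
  have onB : ∀ j ≤ p.n + 2, ∀ U ∈ segment ℝ (q j) (q (j + 1)), U.re = c →
      (q (p.n + 4)).im ≤ U.im → U.im ≤ (q (p.n + 5)).im → False := by
    intro j hj U hU h1 h2 h3
    have hmem : U ∈ segment ℝ (q (p.n + 4)) (q (p.n + 4 + 1)) :=
      N2_vert (h1.trans hc) (hS.trans hc) h2 h3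
    have := hq.2.1 j (p.n + 4) (by omega) (by omega) U hU hmem
    omega
  have hU3S : (q (p.n + 5)).im < U3.im := by
    by_contra hcon
    push Not at hcon
    exact onB j3 hj3 U3 hU3 hU3re hU3im.le hcon
  have hU3t := N2_tri_seg (hq.2.2 j3 (by omega)) (hq.2.2 (j3 + 1) (by omega)) hU3
  have hU3h : U3.im < p.h := by
    have h1 := hU3t.2.2
    have h2 := mul_pos hη hU3t.1
    linarith
  obtain ⟨X, hX, hXd, hX0⟩ := N2_X hq hj hj3 hU1 (by rw [hU1re]; linarith)
    (by rw [hU1re]; exact hre) (by rw [hU1re]; exact hre')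
  have hbar := N2_bar hq (by omega) hU3
  have hXU := N2_abs_im X U3
  have hXU' := neg_abs_le (X.im - U3.im)
  have htri := dist_triangle X (q j3) U3
  -- (a)
  have hj3' : j3 = p.n + 2 := by
    by_contra hcon
    have h1 : j3 ≤ p.n + 1 := by omega
    have h2 : ∑ k ∈ Ico 1 (j3 + 1), p.len k ≤ ∑ k ∈ Ico 1 (p.n + 2), p.len k :=
      p.N2_sum_mono le_rfl (by omega)
    rw [Finset.sum_Ico_succ_top (by omega), p.N2_sum1] at h2
    have h3 := dist_nonneg (x := U3) (y := q (j3 + 1))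
    linarith
  subst hj3'
  rw [p.N2_sum1] at hXd
  rw [p.N2_leny] at hbar
  have hHU : 2 * p.w - 9 * p.ε ≤ dist (q (p.n + 2)) U3 := by linarith
  -- (b)
  have hH := hq.2.2 (p.n + 2) (by omega)
  have hHre := hH.1
  have hHh : (q (p.n + 2)).im < p.h := by
    have h1 := hH.2.2
    have h2 := mul_pos hη hH.1
    linarith
  have hHU' := N2_dist_le (q (p.n + 2)) U3
  have habs : |(q (p.n + 2)).re - U3.re| ≤ c := by
    rw [hU3re, abs_le]
    constructor <;> linarith
  have hHlt : (q (p.n + 2)).im < U3.im := by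
    by_contra hcon
    push Not at hcon
    rw [abs_of_nonneg (sub_nonneg.2 hcon)] at hHU'
    linarith
  have hHup : (q (p.n + 2)).im ≤ 8 * p.w + 9 * p.ε + c := by
    rw [abs_of_neg (sub_neg.2 hHlt)] at hHU'
    linarith
  have hHlow : 6 * p.w - 3 * p.ε ≤ (q (p.n + 2)).im := by
    have h1 := N2_abs_im (q (p.n + 2)) U3
    rw [abs_of_neg (sub_neg.2 hHlt)] at h1
    have h2 := dist_nonneg (x := U3) (y := q (p.n + 2 + 1))
    linarith
  have hnear : ∀ j, 2 ≤ j → j ≤ p.n + 1 → ∀ U ∈ segment ℝ (q j) (q (j + 1)),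
      5 * p.w - 3 * p.ε ≤ U.im ∧ U.im ≤ 9 * p.w + 9 * p.ε + c := by
    intro j hj2 hjn U hU
    have h1 := N2_bar hq (by omega) hU
    have h2 := N2_dist_chain hq (i := j + 1) (j := p.n + 2) (by omega) (by omega)
    have h3 := dist_triangle U (q (j + 1)) (q (p.n + 2))
    have h4 : ∑ k ∈ Ico j (p.n + 2), p.len k =
        p.len j + ∑ k ∈ Ico (j + 1) (p.n + 2), p.len k :=
      Finset.sum_eq_sum_Ico_succ_bot (by omega) _
    have h5 : ∑ k ∈ Ico j (p.n + 2), p.len k ≤ ∑ k ∈ Ico 2 (p.n + 2), p.len k :=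
      p.N2_sum_mono hj2 le_rfl
    rw [p.N2_sum_items] at h5
    have h6 := dist_nonneg (x := q j) (y := U)
    have h7 := abs_le.1 ((N2_abs_im U (q (p.n + 2))).trans (show _ ≤ p.w by linarith))
    constructor <;> linarith [h7.1, h7.2]
  have hnearJ : ∀ i ≤ p.n, 5 * p.w - 3 * p.ε ≤ (q (i + 2)).im ∧
      (q (i + 2)).im ≤ 9 * p.w + 9 * p.ε + c := by
    intro i hi
    rcases Nat.lt_or_ge i p.n with h1 | h1
    · exact hnear (i + 2) (by omega) (by omega) _ (left_mem_segment ℝ _ _)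
    · have : i = p.n := le_antisymm hi h1
      subst this
      constructor <;> linarith
  have hJre : ∀ k ≤ p.n, (q (p.n - k + 2)).re < c := by
    intro k
    induction k with
    | zero =>
      intro _
      simpa using hre3
    | succ k ih =>
      intro hk
      have h1 := ih (by omega)
      by_contra hcon
      push Not at hcon
      obtain ⟨i, hi⟩ : ∃ i, i = p.n - (k + 1) := ⟨_, rfl⟩
      have e1 : p.n - k = i + 1 := by omega
      rw [← hi] at hcon
      rw [e1] at h1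
      have hA := h1
      have hd' : 0 < (q (i + 2)).re - (q (i + 1 + 2)).re := by linarith
      obtain ⟨t, ht⟩ : ∃ t, t = ((q (i + 2)).re - c) / ((q (i + 2)).re - (q (i + 1 + 2)).re) :=
        ⟨_, rfl⟩
      have ht0 : 0 ≤ t := by
        rw [ht]
        exact div_nonneg (by linarith) hd'.le
      have ht1 : t ≤ 1 := by
        rw [ht, div_le_one hd']
        linarith
      have htd : t * ((q (i + 2)).re - (q (i + 1 + 2)).re) = (q (i + 2)).re - c := by
        rw [ht]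
        field_simp
      have hmem : (1 - t) • q (i + 2) + t • q (i + 1 + 2) ∈
          segment ℝ (q (i + 2)) (q (i + 2 + 1)) :=
        ⟨1 - t, t, by linarith, ht0, by ring, rfl⟩
      have hn1 := hnear (i + 2) (by omega) (by omega) _ hmem
      refine onB (i + 2) (by omega) _ hmem ?_ ?_ ?_
      · simp only [Complex.add_re, Complex.real_smul, Complex.re_ofReal_mul]
        linarith
      · linarith [hn1.1]
      · linarith [hn1.2]
  have hJre' : ∀ i ≤ p.n, (q (i + 2)).re < c := by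
    intro i hi
    have := hJre (p.n - i) (by omega)
    rwa [show p.n - (p.n - i) = i by omega] at this
  have hJpos : ∀ i ≤ p.n, 0 < (q (i + 2)).re := fun i hi => (hq.2.2 (i + 2) (by omega)).1
  have hj1 : j1 = 0 ∨ j1 = 1 := by
    by_contra hcon
    push Not at hcon
    have := hJre' (j1 - 2) (by omega)
    rw [show j1 - 2 + 2 = j1 by omega] at this
    linarith
  have hU1t := N2_tri_seg (hq.2.2 j1 (by omega)) (hq.2.2 (j1 + 1) (by omega)) hU1
  have hT := hq.2.2 1 (by omega)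
  have hT1 := hT.1
  have hT2 := hT.2.1
  have hn := p.n_pos
  have hJ0 := hnearJ 0 (by omega)
  have hJ0re := hJre' 0 (by omega)
  have hJ0pos := hJpos 0 (by omega)
  simp only [zero_add] at hJ0 hJ0re hJ0pos
  -- (c)
  have hTc : (q 1).im ≤ 6 * p.ε ∧ |(q 2).re - (q 1).re| ≤ 2 * c := by
    rcases hj1 with h1 | h1
    · have hX1 := hX0 h1
      rw [hX1] at hX
      subst h1
      simp only [zero_add] at hre'
      refine ⟨by linarith, ?_⟩
      rw [abs_le]
      constructor <;> linarith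
    · subst h1
      obtain ⟨s, t, hs, ht, hst, e1, e2⟩ := N2_seg hU1
      have e3 : s = 1 - t := by linarith
      subst e3
      simp only [Nat.reduceAdd] at e1 e2
      have h2 : t ≤ 1 / 2 := by
        by_contra hcon
        push Not at hcon
        have h3 : 1 / 2 * (5 * p.w - 3 * p.ε) ≤ t * (q 2).im :=
          N2_r1 (by linarith) hcon hJ0.1
        have h4 := mul_nonneg hs hT2.le
        linarith
      have h3 : 0 < (q 2).im := by linarith [hJ0.1]
      have h4 := mul_nonneg ht h3.le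
      have h6 := N2_r2 h2 hT2 h4 e2
      refine ⟨by linarith, ?_⟩
      have h5 : (1 - t) * ((q 1).re - (q 2).re) = c - (q 2).re := by
        rw [← hU1re, e1]
        ring
      have h7 := N2_r3 h2 hJ0pos hJ0re h5
      rw [abs_le]
      constructor
      · linarith [h7.1]
      · linarith [h7.2]
  -- (d)
  obtain ⟨s, t, hs, ht, hst, e1, e2⟩ := N2_seg hU3
  have e3 : s = 1 - t := by linarith
  subst e3
  have hPt := hq.2.2 (p.n + 3) (by omega)
  have hlen3 := hq.1 (p.n + 2) (by omega)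
  rw [p.N2_leny] at hlen3
  have ht4 : 1 / 4 ≤ t := by
    have h1 : dist (q (p.n + 2)) U3 = t * p.y := by
      have h2 := N2_sq (q (p.n + 2)) U3
      have h3 := N2_sq (q (p.n + 2)) (q (p.n + 2 + 1))
      rw [hlen3] at h3
      have h4 : dist (q (p.n + 2)) U3 ^ 2 = (t * p.y) ^ 2 := by
        rw [← h2, mul_pow, ← h3, e1, e2]
        ring
      exact (sq_eq_sq₀ dist_nonneg (mul_nonneg ht p.y_pos.le)).1 h4
    rw [h1, hy] at hHU
    by_contra hcon
    push Not at hcon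
    have h2 : t * (4 * p.w) ≤ 1 / 4 * (4 * p.w) :=
      mul_le_mul_of_nonneg_right hcon.le (by linarith)
    linarith
  have hPre : |(q (p.n + 3)).re - (q (p.n + 2)).re| ≤ 4 * c := by
    have h5 : t * ((q (p.n + 2 + 1)).re - (q (p.n + 2)).re) = c - (q (p.n + 2)).re := by
      rw [← hU3re, e1]
      ring
    have h6 := N2_r4 ht4 hHre hre3 h5
    change |(q (p.n + 2 + 1)).re - (q (p.n + 2)).re| ≤ 4 * c
    rw [abs_of_nonneg h6.2]
    exact h6.1
  have hPim : U3.im ≤ (q (p.n + 3)).im := by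
    have h5 : t * ((q (p.n + 2 + 1)).im - U3.im) = (1 - t) * (U3.im - (q (p.n + 2)).im) := by
      rw [e2]
      ring
    have h6 : 0 ≤ (1 - t) * (U3.im - (q (p.n + 2)).im) := mul_nonneg hs (by linarith)
    have h7 : 0 ≤ (q (p.n + 2 + 1)).im - U3.im := N2_r5 ht4 h6 h5
    change U3.im ≤ (q (p.n + 2 + 1)).im
    linarith
  have hPh : (q (p.n + 3)).im < p.h := by
    have h1 := hPt.2.2
    have h2 := mul_pos hη hPt.1
    linarith
  -- (e)
  have hdpos := p.d_pos
  have hypos := p.y_pos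
  have hcu : c ^ 2 ≤ 9 / 10000 * (p.u * p.w) := N2_r6 hQ1 hc2 hu huw
  have hA1 : |(q 2).im - (q 1).im - p.d| ≤ p.u / 100 := by
    have h1 := N2_sq (q 1) (q 2)
    have h0 := hq.1 1 (by omega)
    rw [p.N2_len1] at h0
    simp only [Nat.reduceAdd] at h0
    rw [h0] at h1
    have h2 := N2_err (δ := 2 * c) hdpos h1 (by rw [abs_sub_comm]; exact hTc.2)
    have h3 : 0 < (q 2).im - (q 1).im := by linarith [hJ0.1, hTc.1]
    rw [abs_sub_comm (q 1).im, abs_of_pos h3] at h2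
    refine h2.trans ?_
    rw [div_le_iff₀ hdpos]
    exact N2_r7 hcu hu (by linarith)
  have hA2 : |(q (p.n + 3)).im - (q (p.n + 2)).im - p.y| ≤ p.u / 100 := by
    have h1 := N2_sq (q (p.n + 2)) (q (p.n + 2 + 1))
    rw [hlen3] at h1
    have h2 := N2_err (δ := 4 * c) hypos h1 (by rw [abs_sub_comm]; exact hPre)
    have h3 : 0 < (q (p.n + 2 + 1)).im - (q (p.n + 2)).im := by
      change 0 < (q (p.n + 3)).im - (q (p.n + 2)).im
      linarith
    rw [abs_sub_comm (q (p.n + 2)).im, abs_of_pos h3] at h2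
    refine h2.trans ?_
    rw [div_le_iff₀ hypos, hy]
    exact N2_r8 hcu hu hw
  let D : ℕ → ℝ := fun i => (q (i + 1 + 2)).im - (q (i + 2)).im
  let sg : ℕ → ℝ := fun i => if 0 ≤ D i then 1 else -1
  have hE : ∀ i ∈ range p.n, |D i - sg i * p.a i| ≤ c ^ 2 / p.u := by
    intro i hi
    rw [Finset.mem_range] at hi
    have ha := p.a_pos hi
    have hau := p.a_ge i hi
    have h1 := N2_sq (q (i + 2)) (q (i + 2 + 1))
    rw [hq.1 (i + 2) (by omega), p.N2_leni hi] at h1
    have h2 : |(q (i + 2)).re - (q (i + 2 + 1)).re| ≤ c := by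
      have b1 := hJre' i hi.le
      have b2 := hJpos i hi.le
      have b3 := hJre' (i + 1) (by omega)
      have b4 := hJpos (i + 1) (by omega)
      rw [show i + 1 + 2 = i + 2 + 1 by omega] at b3 b4
      rw [abs_le]
      constructor <;> linarith
    have h3 := N2_err ha h1 h2
    have h4 : |(q (i + 2)).im - (q (i + 2 + 1)).im| = |D i| := abs_sub_comm _ _
    rw [h4] at h3
    have h5 : |D i - sg i * p.a i| = |(|D i| - p.a i)| := by
      by_cases h6 : 0 ≤ D i
      · have : sg i = 1 := if_pos h6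
        rw [this, one_mul, abs_of_nonneg h6]
      · have : sg i = -1 := if_neg h6
        rw [this]
        push Not at h6
        rw [abs_of_neg h6, show D i - -1 * p.a i = -(-D i - p.a i) by ring, abs_neg]
    rw [h5]
    exact h3.trans (div_le_div_of_nonneg_left (sq_nonneg c) hu hau)
  have hA3 : |∑ i ∈ range p.n, (D i - sg i * p.a i)| ≤ p.u / 100 := by
    refine (Finset.abs_sum_le_sum_abs _ _).trans ((Finset.sum_le_sum hE).trans ?_)
    rw [Finset.sum_const, Finset.card_range, nsmul_eq_mul, mul_div_assoc', div_le_iff₀ hu]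
    exact N2_r9 hQ1 hu hw p.nu_le p.η_small' hc1 hc2
  have hsum : ∑ i ∈ range p.n, (D i - sg i * p.a i) =
      ((q (p.n + 2)).im - (q 2).im) - ∑ i ∈ range p.n, sg i * p.a i := by
    rw [Finset.sum_sub_distrib]
    congr 1
    have := Finset.sum_range_sub (fun i => (q (i + 2)).im) p.n
    simpa [D] using this
  rw [hsum] at hA3
  refine ⟨sg, fun i => ?_, ?_⟩
  · by_cases h6 : 0 ≤ D i
    · left
      exact if_pos h6
    · right
      exact if_neg h6
  · have g1 := abs_le.1 hA1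
    have g2 := abs_le.1 hA2
    have g3 := abs_le.1 hA3
    rw [abs_lt]
    constructor
    · linarith [g1.1, g1.2, g2.1, g2.2, g3.1, g3.2, hTc.1]
    · linarith [g1.1, g1.2, g2.1, g2.2, g3.1, g3.2, hTc.1]

end

theorem job_N2 : S_N2 := by
  intro p q hcrit
  obtain ⟨hq, -, ⟨F, hF, hs, h0, -, -, hn'⟩, hcase⟩ := hcrit
  have hne : ∀ k ≤ p.n + 3, q k ≠ q (p.n + 4) := by
    intro k hk heq
    rcases Nat.lt_or_ge k (p.n + 3) with h1 | h1
    · have := hq.2.1 k (p.n + 4) (by omega) (by omega) (q k) (left_mem_segment ℝ _ _)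
        (by rw [heq]; exact left_mem_segment ℝ _ _)
      omega
    · have hk' : k = p.n + 3 := by omega
      subst hk'
      have h2 := hq.1 (p.n + 3) (by omega)
      rw [p.N2_lene] at h2
      have h3 := p.N2_e_ge
      have h4 := p.w_pos
      have h5 := p.ε_le
      have h6 := p.u_le_w
      have h7 := p.ε_pos
      rw [p.h_eq] at h3
      have h8 : dist (q (p.n + 3)) (q (p.n + 3 + 1)) = 0 := by
        rw [dist_eq_zero]
        exact heq
      linarith
  obtain ⟨j1, j3, hj, hj3, ⟨U1, hU1, hU1re, hU1im⟩, ⟨U3, hU3, hU3re, hU3im⟩, hre, hre', hre3⟩ :=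
    N2_crossings hne hF hs h0 hn'
  rcases hcase with ⟨h1, h2⟩ | ⟨h1, h2⟩
  · exact N2_caseA hq hj hj3 hU1 hU1re hU1im hU3 hU3re hU3im hre hre' hre3 h1 h2
  · exact (N2_caseB hq hj hj3 hU1 hU1re hU1im hU3 hU3im hre hre' h1 h2).elim

end Pool.Agent.H263_NU
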