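import Pool.Agent.H263_NU.Stmts

/-!
# The reduction is computable in polynomial time
-/

namespace Pool.Agent.H263_NU

open Finset Pool.Agent.NPC Pool.Agent.NPC.R671.SS

set_option linter.unusedSimpArgs false

namespace JobR

/-! ### The coordinates -/

/-- `N = 1000 W ^ 2` -/
def nN (W : ℕ) : ℕ := 1000 * (W * W)
/-- `F = N ^ 4` -/
def nF (W : ℕ) : ℕ := nN W * nN W * (nN W * nN W)
/-- `V = W N ^ 2` -/
def nV (W : ℕ) : ℕ := W * (nN W * nN W)

def c1 (W : ℕ) : ℕ := 400 * (W * (nF W * nN W))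
def c2 (W : ℕ) : ℕ := 400 * (W * nF W)
def zre (W : ℕ) : ℕ := 25 * nV W + 4000 * (W * nF W)
def tre (W : ℕ) : ℕ := 25 * nV W
def jre (W t s : ℕ) : ℕ := (224 * (W * nF W) + 32 * (s * nF W)) - (64 * (t * nF W) + 295 * nV W)
def jim (W t s : ℕ) : ℕ := (168 * (W * nF W) + 24 * (s * nF W)) - (48 * (t * nF W) + 215 * nV W)
def pre (W t : ℕ) : ℕ := 384 * (W * nF W) - (64 * (t * nF W) + 295 * nV W)
def pim (W t : ℕ) : ℕ := 288 * (W * nF W) - (48 * (t * nF W) + 215 * nV W)
def qre (W t : ℕ) : ℕ := (64 * (W * nF W) + 405 * nV W) - 64 * (t * nF W)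
def qim (W t : ℕ) : ℕ := (48 * (W * nF W) + 185 * nV W) - 48 * (t * nF W)
def sre (W t : ℕ) : ℕ := (384 * (W * nF W) + 30 * W) - (64 * (t * nF W) + 615 * nV W)
def sim (W t : ℕ) : ℕ := 288 * (W * nF W) - (48 * (t * nF W) + 455 * nV W + 40 * W)

/-- partial sums -/
def PS (l : List ℕ) (i : ℕ) : ℕ :=
  ((List.range l.length).map fun j => if j < i then l.getD j 0 else 0).sum

theorem PS_eq (l : List ℕ) {i : ℕ} (hi : i ≤ l.length) : PS l i = ∑ j ∈ range i, l.getD j 0 := by
  unfold PS
  have h1 : ((List.range l.length).map fun j => if j < i then l.getD j 0 else 0).sum =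
      ∑ j ∈ range l.length, if j < i then l.getD j 0 else 0 := by
    rfl
  rw [h1, ← Finset.sum_filter]
  congr 1
  ext j
  simp only [Finset.mem_filter, Finset.mem_range]
  omega

theorem sum_getD (l : List ℕ) : ∑ j ∈ range l.length, l.getD j 0 = l.sum := by
  rw [Finset.sum_range fun j => l.getD j 0]
  simp [List.getD_eq_getElem?_getD]

/-- a point with natural coordinates -/
def np (a b : ℕ) : ℚ × ℚ := ((a : ℚ), (b : ℚ))

/-- The closed chain -/
def Cl (W : ℕ) : List (ℚ × ℚ) := [np 0 0, np (c1 W) 0, np 0 (c2 W)]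

/-- The open chain -/
def Op (l : List ℕ) (t : ℕ) : List (ℚ × ℚ) :=
  np (zre l.sum) (tre l.sum) :: np (tre l.sum) (tre l.sum) ::
    (((List.range (l.length + 1)).map fun i => np (jre l.sum t (PS l i)) (jim l.sum t (PS l i))) ++
      [np (pre l.sum t) (pim l.sum t), np (qre l.sum t) (qim l.sum t),
        np (sre l.sum t) (sim l.sum t)])

/-- The reduction. -/
def red (x : List ℕ × ℕ) : Instance := (Cl x.1.sum, Op x.1 x.2)

/-! ### Polynomial time -/

theorem natCast_rat_poly {α : Type} [TEnc α] {f : α → ℕ} (hf : Poly f) :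
    Poly (fun a => ((f a : ℕ) : ℚ)) :=
  NPC.Poly.of_toT ((NPC.Poly.toT' (NPC.Poly.pair (NPC.Poly.natCast_int hf) (NPC.Poly.const (1 : ℕ)))).congr fun a => by
    change toT (((f a : ℕ) : ℤ), (1 : ℕ)) = toT (((f a : ℕ) : ℚ).num, ((f a : ℕ) : ℚ).den)
    rw [Rat.num_natCast, Rat.den_natCast])

theorem np_poly {α : Type} [TEnc α] {f g : α → ℕ} (hf : Poly f) (hg : Poly g) :
    Poly (fun a => np (f a) (g a)) :=
  NPC.Poly.pair (natCast_rat_poly hf) (natCast_rat_poly hg)

section

variable {α : Type} [TEnc α] {f g h : α → ℕ}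

theorem nN_poly (hf : Poly f) : Poly (fun a => nN (f a)) := by
  unfold nN; fun_prop

theorem nF_poly (hf : Poly f) : Poly (fun a => nF (f a)) := by
  unfold nF
  have := nN_poly hf
  fun_prop

theorem nV_poly (hf : Poly f) : Poly (fun a => nV (f a)) := by
  unfold nV
  have := nN_poly hf
  fun_prop

theorem c1_poly (hf : Poly f) : Poly (fun a => c1 (f a)) := by
  unfold c1
  have := nN_poly hf
  have := nF_poly hf
  fun_prop

theorem c2_poly (hf : Poly f) : Poly (fun a => c2 (f a)) := by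
  unfold c2
  have := nF_poly hf
  fun_prop

theorem zre_poly (hf : Poly f) : Poly (fun a => zre (f a)) := by
  unfold zre
  have := nF_poly hf
  have := nV_poly hf
  fun_prop

theorem tre_poly (hf : Poly f) : Poly (fun a => tre (f a)) := by
  unfold tre
  have := nV_poly hf
  fun_prop

theorem jre_poly (hf : Poly f) (hg : Poly g) (hh : Poly h) :
    Poly (fun a => jre (f a) (g a) (h a)) := by
  unfold jre
  have := nF_poly hf
  have := nV_poly hf
  fun_prop

theorem jim_poly (hf : Poly f) (hg : Poly g) (hh : Poly h) :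
    Poly (fun a => jim (f a) (g a) (h a)) := by
  unfold jim
  have := nF_poly hf
  have := nV_poly hf
  fun_prop

theorem pre_poly (hf : Poly f) (hg : Poly g) : Poly (fun a => pre (f a) (g a)) := by
  unfold pre
  have := nF_poly hf
  have := nV_poly hf
  fun_prop

theorem pim_poly (hf : Poly f) (hg : Poly g) : Poly (fun a => pim (f a) (g a)) := by
  unfold pim
  have := nF_poly hf
  have := nV_poly hf
  fun_prop

theorem qre_poly (hf : Poly f) (hg : Poly g) : Poly (fun a => qre (f a) (g a)) := by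
  unfold qre
  have := nF_poly hf
  have := nV_poly hf
  fun_prop

theorem qim_poly (hf : Poly f) (hg : Poly g) : Poly (fun a => qim (f a) (g a)) := by
  unfold qim
  have := nF_poly hf
  have := nV_poly hf
  fun_prop

theorem sre_poly (hf : Poly f) (hg : Poly g) : Poly (fun a => sre (f a) (g a)) := by
  unfold sre
  have := nF_poly hf
  have := nV_poly hf
  fun_prop

theorem sim_poly (hf : Poly f) (hg : Poly g) : Poly (fun a => sim (f a) (g a)) := by
  unfold sim
  have := nF_poly hf
  have := nV_poly hf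
  fun_prop

theorem PS_poly {l : α → List ℕ} (hl : Poly l) (hg : Poly g) : Poly (fun a => PS (l a) (g a)) := by
  have h1 : Poly (fun a => List.range (l a).length) := NPC.Poly.range_length hl
  have h2 : Poly (fun p : α × ℕ => if p.2 < g p.1 then (l p.1).getD p.2 0 else 0) := by
    fun_prop
  exact NPC.Poly.sum (NPC.Poly.map h1 h2)

end

theorem red_poly : Poly red := by
  have hs : Poly (fun x : List ℕ × ℕ => x.1.sum) := by fun_prop
  have h1 : Poly (fun x : List ℕ × ℕ => x.1) := by fun_prop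
  have h2 : Poly (fun x : List ℕ × ℕ => x.2) := by fun_prop
  have hrange : Poly (fun x : List ℕ × ℕ => List.range (x.1.length + 1)) :=
    UPoly.range (UPoly.add (UPoly.length h1) (UPoly.const 1))
  have hs' : Poly (fun p : (List ℕ × ℕ) × ℕ => p.1.1.sum) := by fun_prop
  have h1' : Poly (fun p : (List ℕ × ℕ) × ℕ => p.1.1) := by fun_prop
  have h2' : Poly (fun p : (List ℕ × ℕ) × ℕ => p.1.2) := by fun_prop
  have h3' : Poly (fun p : (List ℕ × ℕ) × ℕ => p.2) := by fun_prop
  have hPS := PS_poly h1' h3'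
  have hmap : Poly (fun x : List ℕ × ℕ => (List.range (x.1.length + 1)).map fun i =>
      np (jre x.1.sum x.2 (PS x.1 i)) (jim x.1.sum x.2 (PS x.1 i))) :=
    NPC.Poly.map hrange (np_poly (jre_poly hs' h2' hPS) (jim_poly hs' h2' hPS))
  have h00 : Poly (fun _ : List ℕ × ℕ => (0 : ℕ)) := NPC.Poly.const 0
  have hC : Poly (fun x : List ℕ × ℕ => Cl x.1.sum) :=
    NPC.Poly.cons (np_poly h00 h00) (NPC.Poly.cons (np_poly (c1_poly hs) h00)
      (NPC.Poly.cons (np_poly h00 (c2_poly hs)) (NPC.Poly.const [])))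
  have hO : Poly (fun x : List ℕ × ℕ => Op x.1 x.2) :=
    NPC.Poly.cons (np_poly (zre_poly hs) (tre_poly hs)) (NPC.Poly.cons
      (np_poly (tre_poly hs) (tre_poly hs)) (NPC.Poly.append hmap
        (NPC.Poly.cons (np_poly (pre_poly hs h2) (pim_poly hs h2)) (NPC.Poly.cons
          (np_poly (qre_poly hs h2) (qim_poly hs h2)) (NPC.Poly.cons
            (np_poly (sre_poly hs h2) (sim_poly hs h2)) (NPC.Poly.const []))))))
  exact NPC.Poly.pair hC hO

/-! ### Correctness -/

theorem nice_facts (x : List ℕ × ℕ) (hx : Nice x) : 0 < x.1.sum ∧ 0 < x.2 ∧ x.2 < x.1.sum ∧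
    (∀ j < x.1.length, 0 < x.1.getD j 0) := by
  obtain ⟨h1, h2⟩ := hx
  have hlen : 1 ≤ x.1.length := by
    rcases hx1 : x.1 with - | ⟨b, l⟩
    · rw [hx1] at h2
      simp at h2
    · simp
  have hitems : ∀ j < x.1.length, 0 < x.1.getD j 0 ∧ x.1.getD j 0 < x.2 := by
    intro j hj
    have : x.1.getD j 0 ∈ x.1 := by
      rw [List.getD_eq_getElem _ _ hj]
      exact List.getElem_mem hj
    exact h1 _ this
  refine ⟨by omega, ?_, h2, fun j hj => (hitems j hj).1⟩
  have := hitems 0 hlen
  omega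

theorem nN_pos {W : ℕ} (hW : 0 < W) : 0 < nN W := by unfold nN; positivity
theorem nF_pos {W : ℕ} (hW : 0 < W) : 0 < nF W := by
  have := nN_pos hW
  unfold nF; positivity

theorem nN_ge {W : ℕ} (hW : 0 < W) : 1000 ≤ nN W := by
  unfold nN
  have : 0 < W * W := by positivity
  omega

/-- The basic inequalities. -/
theorem ineqs {W t : ℕ} (hW : 0 < W) (ht : t < W) : t * nF W ≤ W * nF W ∧
    1000 * nV W ≤ W * nF W ∧ W ≤ nV W := by
  refine ⟨Nat.mul_le_mul_right _ ht.le, ?_, ?_⟩
  · unfold nV nF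
    have h1 := nN_ge hW
    have h2 : 1000 * 1 ≤ nN W * nN W := Nat.mul_le_mul h1 (by omega)
    calc 1000 * (W * (nN W * nN W)) = W * (nN W * nN W * (1000 * 1)) := by ring
      _ ≤ W * (nN W * nN W * (nN W * nN W)) := by gcongr
  · unfold nV
    have h1 := nN_ge hW
    have h2 : 1 * 1 ≤ nN W * nN W := Nat.mul_le_mul (by omega) (by omega)
    calc W = W * (1 * 1) := by ring
      _ ≤ W * (nN W * nN W) := by gcongr

/-- The parameters -/
noncomputable def par (x : List ℕ × ℕ) (hx : Nice x) : Par where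
  n := x.1.length
  a := fun i => ((40 * nF x.1.sum : ℕ) : ℝ) * (x.1.getD i 0 : ℕ)
  u := ((40 * nF x.1.sum : ℕ) : ℝ)
  tt := ((40 * nF x.1.sum : ℕ) : ℝ) * x.2
  η := 1 / (nN x.1.sum : ℕ)
  u_pos := by
    obtain ⟨h1, h2, h3, h4⟩ := nice_facts x hx
    have := nF_pos h1
    exact_mod_cast (by positivity : 0 < 40 * nF x.1.sum)
  a_ge := by
    obtain ⟨h1, h2, h3, h4⟩ := nice_facts x hx
    intro i hi
    have h5 : 1 ≤ x.1.getD i 0 := h4 i hi
    have : 40 * nF x.1.sum * 1 ≤ 40 * nF x.1.sum * x.1.getD i 0 := Nat.mul_le_mul_left _ h5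
    rw [mul_one] at this
    exact_mod_cast this
  tt_pos := by
    obtain ⟨h1, h2, h3, h4⟩ := nice_facts x hx
    have := nF_pos h1
    exact_mod_cast (by positivity : 0 < 40 * nF x.1.sum * x.2)
  tt_lt := by
    obtain ⟨h1, h2, h3, h4⟩ := nice_facts x hx
    have h5 := nF_pos h1
    rw [← Finset.mul_sum, ← Nat.cast_sum, sum_getD]
    have : 40 * nF x.1.sum * x.2 < 40 * nF x.1.sum * x.1.sum :=
      Nat.mul_lt_mul_of_pos_left h3 (by positivity)
    exact_mod_cast this
  η_pos := by
    obtain ⟨h1, h2, h3, h4⟩ := nice_facts x hx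
    have := nN_pos h1
    positivity
  η_small := by
    obtain ⟨h1, h2, h3, h4⟩ := nice_facts x hx
    have h5 := nN_pos h1
    rw [← Finset.mul_sum, ← Nat.cast_sum, sum_getD]
    have hN : ((nN x.1.sum : ℕ) : ℝ) = 1000 * ((x.1.sum : ℕ) : ℝ) ^ 2 := by
      unfold nN; push_cast; ring
    have hW : (0 : ℝ) < ((x.1.sum : ℕ) : ℝ) := by exact_mod_cast h1
    rw [hN]
    apply le_of_eq
    field_simp

section

variable (x : List ℕ × ℕ) (hx : Nice x)

/-- Real versions -/
theorem real_facts : ∃ W t N : ℝ, 0 < W ∧ 0 < N ∧ W = x.1.sum ∧ t = x.2 ∧ N = nN x.1.sum ∧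
    ((nF x.1.sum : ℕ) : ℝ) = N ^ 4 ∧ ((nV x.1.sum : ℕ) : ℝ) = W * N ^ 2 ∧
    (par x hx).w = 40 * N ^ 4 * W ∧ (par x hx).tt = 40 * N ^ 4 * t ∧ (par x hx).η = 1 / N := by
  obtain ⟨h1, h2, h3, h4⟩ := nice_facts x hx
  have h5 := nN_pos h1
  have hF : ((nF x.1.sum : ℕ) : ℝ) = ((nN x.1.sum : ℕ) : ℝ) ^ 4 := by
    unfold nF; push_cast; ring
  refine ⟨x.1.sum, x.2, nN x.1.sum, by exact_mod_cast h1, by exact_mod_cast h5, rfl, rfl, rfl, hF,
    ?_, ?_, ?_, rfl⟩
  · unfold nV; push_cast; ring
  · change ∑ i ∈ range x.1.length, ((40 * nF x.1.sum : ℕ) : ℝ) * (x.1.getD i 0 : ℕ) = _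
    rw [← Finset.mul_sum, ← Nat.cast_sum, sum_getD]
    push_cast
    rw [hF]
  · change ((40 * nF x.1.sum : ℕ) : ℝ) * x.2 = _
    push_cast
    rw [hF]

end

theorem pt_np (a b : ℕ) : pt (np a b) = ⟨(a : ℝ), (b : ℝ)⟩ := by
  simp [pt, np]

theorem getD_Op (l : List ℕ) (t : ℕ) :
    (Op l t).getD 0 0 = np (zre l.sum) (tre l.sum) ∧
    (Op l t).getD 1 0 = np (tre l.sum) (tre l.sum) ∧
    (∀ i ≤ l.length, (Op l t).getD (i + 2) 0 =
      np (jre l.sum t (PS l i)) (jim l.sum t (PS l i))) ∧
    (Op l t).getD (l.length + 3) 0 = np (pre l.sum t) (pim l.sum t) ∧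
    (Op l t).getD (l.length + 4) 0 = np (qre l.sum t) (qim l.sum t) ∧
    (Op l t).getD (l.length + 5) 0 = np (sre l.sum t) (sim l.sum t) := by
  refine ⟨rfl, rfl, fun i hi => ?_, ?_, ?_, ?_⟩
  · unfold Op
    rw [List.getD_cons_succ, List.getD_cons_succ, List.getD_append _ _ _ _ (by simp; omega),
      List.getD_eq_getElem _ _ (by simp; omega)]
    simp
  · unfold Op
    rw [List.getD_cons_succ, List.getD_cons_succ, List.getD_append_right _ _ _ _ (by simp)]
    simp
  · unfold Op
    rw [List.getD_cons_succ, List.getD_cons_succ, List.getD_append_right _ _ _ _ (by simp)]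
    simp
  · unfold Op
    rw [List.getD_cons_succ, List.getD_cons_succ, List.getD_append_right _ _ _ _ (by simp)]
    simp

theorem ω_mul (z : ℂ) : Par.ω * z = ⟨4 / 5 * z.re - 3 / 5 * z.im, 4 / 5 * z.im + 3 / 5 * z.re⟩ := by
  apply Complex.ext <;> simp [Par.ω]

theorem inst (x : List ℕ × ℕ) (hx : Nice x) : (par x hx).Inst (red x) := by
  obtain ⟨hW0, ht0, htW, -⟩ := nice_facts x hx
  obtain ⟨I1, I2, I3⟩ := ineqs hW0 htW
  obtain ⟨W, t, N, hW, hN, eW, et, eN, eF, eV, ew, ett, eη⟩ := real_facts x hx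
  have eh : (par x hx).h = 400 * N ^ 4 * W := by rw [Par.h_eq, ew]; ring
  have eε : (par x hx).ε = 400 * N ^ 2 * W := by
    unfold Par.ε; rw [eh, eη]; field_simp
  have em : (par x hx).m = 4000 * N ^ 4 * W := by rw [Par.m_eq, ew]; ring
  have ed : (par x hx).d = (280 * W - 80 * t) * N ^ 4 - 400 * N ^ 2 * W := by
    rw [Par.d_eq, ew, ett, eε]; ring
  have el : (par x hx).l = (480 * W - 80 * t) * N ^ 4 - 400 * N ^ 2 * W := by
    rw [Par.l_eq, ew, ett, eε]; ring
  have ex0 : (par x hx).x0 = 25 * N ^ 2 * W := by unfold Par.x0; rw [eε]; ring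
  have ek1 : (par x hx).k1 = 400 * N ^ 4 * W - 800 * N ^ 2 * W := by
    unfold Par.k1; rw [eε, eh]; ring
  have ek2 : (par x hx).k2 = 100 * N ^ 2 * W := by unfold Par.k2; rw [eε]; ring
  have ek3 : (par x hx).k3 = 400 * N ^ 2 * W := by unfold Par.k3; rw [eε]
  have ek4 : (par x hx).k4 = 50 * W := by
    unfold Par.k4; rw [eε, eh]; field_simp; norm_num
  have en : (par x hx).n = x.1.length := rfl
  obtain ⟨g0, g1, gJ, gP, gQ, gS⟩ := getD_Op x.1 x.2
  refine ⟨rfl, ?_, ?_, ?_⟩
  · change (Op x.1 x.2).length = x.1.length + 6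
    simp [Op]
  · intro i hi
    change pt ((Cl x.1.sum).getD i 0) = _
    interval_cases i
    · change pt (np 0 0) = _
      rw [pt_np]
      simp only [Par.C0, if_true]
      apply Complex.ext <;> simp
    · change pt (np (c1 x.1.sum) 0) = _
      rw [pt_np]
      simp only [Par.C0, one_ne_zero, if_false, if_true]
      apply Complex.ext
      · simp only [Complex.ofReal_re]
        rw [eh, eη]
        unfold c1
        simp only [Nat.cast_add, Nat.cast_mul, Nat.cast_ofNat]
        rw [eF, ← eW, ← eN]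
        field_simp
      · simp
    · change pt (np 0 (c2 x.1.sum)) = _
      rw [pt_np]
      have h20 : (2 : ℕ) ≠ 0 := by norm_num
      have h21 : (2 : ℕ) ≠ 1 := by norm_num
      simp only [Par.C0, h20, h21, if_false]
      rw [eh]
      apply Complex.ext
      · simp only [Complex.mul_re, Complex.ofReal_re, Complex.ofReal_im, Complex.I_re,
          Complex.I_im, Nat.cast_zero]
        ring
      · simp only [Complex.mul_im, Complex.ofReal_re, Complex.ofReal_im, Complex.I_re,
          Complex.I_im]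
        unfold c2
        simp only [Nat.cast_add, Nat.cast_mul, Nat.cast_ofNat]
        rw [eF, ← eW]
        ring
  · intro j hj
    change pt ((Op x.1 x.2).getD j 0) = _
    rw [en] at hj
    unfold Par.A0 Par.T0
    rw [en]
    rcases Nat.eq_zero_or_pos j with rfl | hj0
    · rw [g0, pt_np, if_pos rfl, ex0, em]
      unfold zre tre
      simp only [Nat.cast_add, Nat.cast_mul, Nat.cast_ofNat]
      rw [eF, eV, ← eW]
      apply Complex.ext
      · simp only [Complex.add_re, Complex.ofReal_re, Complex.ofReal_im]; ring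
      · simp only [Complex.add_im, Complex.ofReal_re, Complex.ofReal_im]; ring
    rw [if_neg hj0.ne']
    rcases eq_or_ne j 1 with rfl | hj1
    · rw [g1, pt_np, if_pos rfl, ex0]
      unfold tre
      simp only [Nat.cast_add, Nat.cast_mul, Nat.cast_ofNat]
      rw [eV]
      apply Complex.ext
      · simp only [Complex.add_re, Complex.ofReal_re, Complex.ofReal_im]; ring
      · simp only [Complex.add_im, Complex.ofReal_re, Complex.ofReal_im]; ring
    rw [if_neg hj1]
    obtain ⟨i, rfl⟩ : ∃ i, j = i + 2 := ⟨j - 2, by omega⟩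
    by_cases hi : i ≤ x.1.length
    · rw [gJ i hi, pt_np, if_pos (by omega), ex0, ed]
      have hA : (par x hx).A i = 40 * N ^ 4 * ((PS x.1 i : ℕ) : ℝ) := by
        unfold Par.A
        change ∑ i ∈ range i, ((40 * nF x.1.sum : ℕ) : ℝ) * (x.1.getD i 0 : ℕ) = _
        rw [← Finset.mul_sum, ← Nat.cast_sum, PS_eq _ hi]
        simp only [Nat.cast_add, Nat.cast_mul, Nat.cast_ofNat]
        rw [eF]
      rw [show i + 2 - 2 = i by omega, hA]
      unfold jre jim
      rw [Nat.cast_sub (by omega), Nat.cast_sub (by omega)]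
      simp only [Nat.cast_add, Nat.cast_mul, Nat.cast_ofNat]
      rw [eF, eV, ← eW, ← et]
      rw [ω_mul]
      apply Complex.ext
      · simp only [Complex.add_re, Complex.ofReal_re, Complex.ofReal_im]; ring
      · simp only [Complex.add_im, Complex.ofReal_re, Complex.ofReal_im]; ring
    · rw [if_neg (by omega)]
      obtain rfl | rfl | rfl : i = x.1.length + 1 ∨ i = x.1.length + 2 ∨ i = x.1.length + 3 := by
        omega
      · rw [show x.1.length + 1 + 2 = x.1.length + 3 by omega, if_pos rfl, gP, pt_np, ex0, el,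
          ω_mul]
        unfold pre pim
        rw [Nat.cast_sub (by omega), Nat.cast_sub (by omega)]
        simp only [Nat.cast_add, Nat.cast_mul, Nat.cast_ofNat]
        rw [eF, eV, ← eW, ← et]
        apply Complex.ext
        · simp only [Complex.add_re, Complex.ofReal_re, Complex.ofReal_im]; ring
        · simp only [Complex.add_im, Complex.ofReal_re, Complex.ofReal_im]; ring
      · rw [show x.1.length + 2 + 2 = x.1.length + 4 by omega, if_neg (by omega), if_pos rfl, gQ,
          pt_np, ex0, el, ek1, ek2, ω_mul]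
        unfold qre qim
        rw [Nat.cast_sub (by omega), Nat.cast_sub (by omega)]
        simp only [Nat.cast_add, Nat.cast_mul, Nat.cast_ofNat]
        rw [eF, eV, ← eW, ← et]
        apply Complex.ext
        · simp only [Complex.add_re, Complex.ofReal_re, Complex.ofReal_im]; ring
        · simp only [Complex.add_im, Complex.ofReal_re, Complex.ofReal_im]; ring
      · rw [show x.1.length + 3 + 2 = x.1.length + 5 by omega, if_neg (by omega),
          if_neg (by omega), gS, pt_np, ex0, el, ek3, ek4, ω_mul]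
        unfold sre sim
        rw [Nat.cast_sub (by omega), Nat.cast_sub (by omega)]
        simp only [Nat.cast_add, Nat.cast_mul, Nat.cast_ofNat]
        rw [eF, eV, ← eW, ← et]
        apply Complex.ext
        · simp only [Complex.add_re, Complex.ofReal_re, Complex.ofReal_im]; ring
        · simp only [Complex.add_im, Complex.ofReal_re, Complex.ofReal_im]; ring

end JobR

theorem job_R : S_R := by
  refine ⟨JobR.red, JobR.red_poly, fun x hx => ⟨JobR.par x hx, 40 * JobR.nF x.1.sum, ?_,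
    JobR.inst x hx, rfl, rfl, fun i _ => rfl, rfl⟩⟩
  have := JobR.nF_pos (JobR.nice_facts x hx).1
  positivity

end Pool.Agent.H263_NU
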