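import Pool.Agent.H263_NU.Stmts

/-!
# The instance is valid
-/

namespace Pool.Agent.H263_NU

open Finset

/-- coordinates of the points of a segment -/
theorem V_seg {a b x : ℂ} (h : x ∈ segment ℝ a b) :
    ∃ t : ℝ, 0 ≤ t ∧ t ≤ 1 ∧ x.re = (1 - t) * a.re + t * b.re ∧
      x.im = (1 - t) * a.im + t * b.im := by
  obtain ⟨s, t, hs, ht, hst, rfl⟩ := h
  refine ⟨t, ht, by linarith, ?_, ?_⟩
  · simp only [Complex.add_re, Complex.smul_re, smul_eq_mul]
    rw [show s = 1 - t by linarith]
  · simp only [Complex.add_im, Complex.smul_im, smul_eq_mul]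
    rw [show s = 1 - t by linarith]

theorem V_C0_re0 (p : Par) : (p.C0 0).re = 0 := by simp [Par.C0]
theorem V_C0_im0 (p : Par) : (p.C0 0).im = 0 := by simp [Par.C0]
theorem V_C0_re1 (p : Par) : (p.C0 1).re = p.h / p.η := by
  rw [Par.C0, if_neg one_ne_zero, if_pos rfl, Complex.ofReal_re]
theorem V_C0_im1 (p : Par) : (p.C0 1).im = 0 := by
  rw [Par.C0, if_neg one_ne_zero, if_pos rfl, Complex.ofReal_im]
theorem V_C0_re2 (p : Par) : (p.C0 2).re = 0 := by
  rw [Par.C0, if_neg two_ne_zero, if_neg (by norm_num)]; simp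
theorem V_C0_im2 (p : Par) : (p.C0 2).im = p.h := by
  rw [Par.C0, if_neg two_ne_zero, if_neg (by norm_num)]; simp

theorem V_convex (h η : ℝ) : Convex ℝ (Tri h η) := by
  intro x hx y hy s t hs ht hst
  obtain ⟨hx1, hx2, hx3⟩ := hx
  obtain ⟨hy1, hy2, hy3⟩ := hy
  have hst' : s = 1 - t := by linarith
  rcases ht.eq_or_lt with h0 | h0
  · subst h0
    rw [hst']
    simp only [sub_zero, one_smul, zero_smul, add_zero]
    exact ⟨hx1, hx2, hx3⟩
  · refine ⟨?_, ?_, ?_⟩
    · simp only [Complex.add_re, Complex.smul_re, smul_eq_mul]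
      have := mul_nonneg hs hx1.le
      have := mul_pos h0 hy1
      linarith
    · simp only [Complex.add_im, Complex.smul_im, smul_eq_mul]
      have := mul_nonneg hs hx2.le
      have := mul_pos h0 hy2
      linarith
    · simp only [Complex.add_re, Complex.smul_re, Complex.add_im, Complex.smul_im, smul_eq_mul]
      have h1 := mul_le_mul_of_nonneg_left hx3.le hs
      have h2 := mul_lt_mul_of_pos_left hy3 h0
      have h3 : s * h + t * h = h := by rw [← add_mul, hst, one_mul]
      linarith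

theorem V_open (h η : ℝ) : IsOpen (Tri h η) := by
  have e : Tri h η = {z : ℂ | 0 < z.re} ∩ ({z : ℂ | 0 < z.im} ∩ {z : ℂ | z.im + η * z.re < h}) := by
    ext z
    exact Iff.rfl
  rw [e]
  refine (isOpen_lt continuous_const Complex.continuous_re).inter
    ((isOpen_lt continuous_const Complex.continuous_im).inter
      (isOpen_lt ?_ continuous_const))
  exact Complex.continuous_im.add (continuous_const.mul Complex.continuous_re)

theorem job_V : S_V := by
  intro p I hI hA
  obtain ⟨h3, hl, hC, hq⟩ := hI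
  obtain ⟨_, hsimple, htri⟩ := hA
  have hh := p.h_pos
  have hη := p.η_pos
  have hhη : 0 < p.h / p.η := div_pos hh hη
  have hcan : p.η * (p.h / p.η) = p.h := by
    field_simp
  have hc0 : (start I).1 0 = p.C0 0 := hC 0 (by norm_num)
  have hc1 : (start I).1 1 = p.C0 1 := hC 1 (by norm_num)
  have hc2 : (start I).1 2 = p.C0 2 := hC 2 (by norm_num)
  have r0 := V_C0_re0 p
  have r1 := V_C0_re1 p
  have r2 := V_C0_re2 p
  have i0 := V_C0_im0 p
  have i1 := V_C0_im1 p
  have i2 := V_C0_im2 p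
  -- the three sides
  have s0 : ∀ x ∈ cbar 3 (start I).1 0, x.im = 0 ∧ 0 ≤ x.re ∧
      x.im + p.η * x.re ≤ p.h := by
    intro x hx
    rw [cbar, hc0] at hx
    rw [show (0 + 1) % 3 = 1 from rfl, hc1] at hx
    obtain ⟨t, ht0, ht1, hr, hi⟩ := V_seg hx
    rw [r0, r1] at hr
    rw [i0, i1] at hi
    refine ⟨by rw [hi]; ring, by rw [hr]; nlinarith, ?_⟩
    rw [hr, hi]
    have : p.η * ((1 - t) * 0 + t * (p.h / p.η)) = t * p.h := by
      have e : p.η * ((1 - t) * 0 + t * (p.h / p.η)) = t * (p.η * (p.h / p.η)) := by ring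
      rw [e, hcan]
    nlinarith
  have s1 : ∀ x ∈ cbar 3 (start I).1 1, x.im + p.η * x.re = p.h := by
    intro x hx
    rw [cbar, hc1] at hx
    rw [show (1 + 1) % 3 = 2 from rfl, hc2] at hx
    obtain ⟨t, ht0, ht1, hr, hi⟩ := V_seg hx
    rw [r1, r2] at hr
    rw [i1, i2] at hi
    rw [hr, hi]
    have : p.η * ((1 - t) * (p.h / p.η) + t * 0) = (1 - t) * (p.η * (p.h / p.η)) := by ring
    rw [this, hcan]
    ring
  have s2 : ∀ x ∈ cbar 3 (start I).1 2, x.re = 0 := by
    intro x hx
    rw [cbar, hc2] at hx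
    rw [show (2 + 1) % 3 = 0 from rfl, hc0] at hx
    obtain ⟨t, ht0, ht1, hr, hi⟩ := V_seg hx
    rw [r2, r0] at hr
    rw [hr]; ring
  have x01 : ∀ x ∈ cbar 3 (start I).1 0, x ∈ cbar 3 (start I).1 1 → x = (start I).1 1 := by
    intro x hx hx'
    have h1 := (s0 x hx).1
    have h2 := s1 x hx'
    rw [h1, zero_add] at h2
    rw [hc1]
    apply Complex.ext
    · rw [r1, ← h2]
      field_simp
    · rw [i1, h1]
  have x12 : ∀ x ∈ cbar 3 (start I).1 1, x ∈ cbar 3 (start I).1 2 → x = (start I).1 2 := by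
    intro x hx hx'
    have h1 := s1 x hx
    have h2 := s2 x hx'
    rw [h2, mul_zero, add_zero] at h1
    rw [hc2]
    apply Complex.ext
    · rw [r2, h2]
    · rw [i2, h1]
  have x20 : ∀ x ∈ cbar 3 (start I).1 2, x ∈ cbar 3 (start I).1 0 → x = (start I).1 0 := by
    intro x hx hx'
    have h1 := s2 x hx
    have h2 := (s0 x hx').1
    rw [hc0]
    apply Complex.ext
    · rw [r0, h1]
    · rw [i0, h2]
  unfold Valid
  rw [h3, hl]
  refine ⟨⟨le_rfl, Or.inl ?_⟩, by omega, ?_, ?_, ?_, ?_⟩
  · have hpos : 0 < p.h / p.η * p.h := mul_pos hhη hh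
    intro i hi j hj hji hji'
    have key : 0 < orient (p.C0 0) (p.C0 1) (p.C0 2) ∧ 0 < orient (p.C0 1) (p.C0 2) (p.C0 0) ∧
        0 < orient (p.C0 2) (p.C0 0) (p.C0 1) := by
      simp only [orient, Complex.sub_re, Complex.sub_im, r0, r1, r2, i0, i1, i2]
      refine ⟨?_, ?_, ?_⟩ <;> linarith
    obtain ⟨k1, k2, k3⟩ := key
    interval_cases i <;> interval_cases j <;> simp only [Nat.reduceAdd, Nat.reduceMod] at hji hji' ⊢ <;>
      first
      | exact absurd rfl hji
      | exact absurd rfl hji'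
      | (rw [hc0, hc1, hc2]; assumption)
  · intro j hj
    rw [hq j hj]
    refine interior_maximal ?_ (V_open p.h p.η) (htri j hj)
    intro z hz
    obtain ⟨z1, z2, z3⟩ := hz
    have m0 : p.C0 0 ∈ convexHull ℝ {x | ∃ i < 3, x = (start I).1 i} :=
      subset_convexHull _ _ ⟨0, by norm_num, hc0.symm⟩
    have m1 : p.C0 1 ∈ convexHull ℝ {x | ∃ i < 3, x = (start I).1 i} :=
      subset_convexHull _ _ ⟨1, by norm_num, hc1.symm⟩
    have m2 : p.C0 2 ∈ convexHull ℝ {x | ∃ i < 3, x = (start I).1 i} :=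
      subset_convexHull _ _ ⟨2, by norm_num, hc2.symm⟩
    have hcv := convex_convexHull ℝ {x | ∃ i < 3, x = (start I).1 i}
    set al : ℝ := p.η * z.re / p.h with hal
    set be : ℝ := z.im / p.h with hbe
    have hal0 : 0 ≤ al := div_nonneg (mul_nonneg hη.le z1.le) hh.le
    have hbe0 : 0 ≤ be := div_nonneg z2.le hh.le
    have hab : al + be < 1 := by
      rw [hal, hbe, ← add_div, div_lt_one hh]
      linarith
    have hz : z = (1 - al - be) • p.C0 0 + al • p.C0 1 + be • p.C0 2 := by
      apply Complex.ext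
      · simp only [Complex.add_re, Complex.smul_re, smul_eq_mul, r0, r1, r2]
        rw [hal]
        field_simp
        ring
      · simp only [Complex.add_im, Complex.smul_im, smul_eq_mul, i0, i1, i2]
        rw [hbe]
        field_simp
        ring
    rw [hz]
    have hw := hcv.sum_mem (t := (Finset.univ : Finset (Fin 3)))
      (w := ![1 - al - be, al, be]) (z := ![p.C0 0, p.C0 1, p.C0 2]) ?_ ?_ ?_
    · rw [Fin.sum_univ_three] at hw
      exact hw
    · intro i _
      fin_cases i
      · show 0 ≤ 1 - al - be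
        linarith
      · exact hal0
      · exact hbe0
    · rw [Fin.sum_univ_three]
      show 1 - al - be + al + be = 1
      ring
    · intro i _
      fin_cases i
      · exact m0
      · exact m1
      · exact m2
  · intro i hi i' hi' hne x hx hx'
    interval_cases i <;> interval_cases i'
    · exact absurd rfl hne
    · exact Or.inl ⟨rfl, x01 x hx hx'⟩
    · exact Or.inr ⟨rfl, x20 x hx' hx⟩
    · exact Or.inr ⟨rfl, x01 x hx' hx⟩
    · exact absurd rfl hne
    · exact Or.inl ⟨rfl, x12 x hx hx'⟩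
    · exact Or.inl ⟨rfl, x20 x hx hx'⟩
    · exact Or.inr ⟨rfl, x12 x hx' hx⟩
    · exact absurd rfl hne
  · intro j j' hjj hj' x hx hx'
    have e1 : (start I).2 j = p.A0 j := hq j (by omega)
    have e2 : (start I).2 (j + 1) = p.A0 (j + 1) := hq (j + 1) (by omega)
    have e3 : (start I).2 j' = p.A0 j' := hq j' (by omega)
    have e4 : (start I).2 (j' + 1) = p.A0 (j' + 1) := hq (j' + 1) (by omega)
    rw [abar, e1, e2] at hx
    rw [abar, e3, e4] at hx'
    rw [e3]
    exact hsimple j j' hjj hj' x hx hx'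
  · intro i hi j hj x hx hx'
    have e1 : (start I).2 j = p.A0 j := hq j (by omega)
    have e2 : (start I).2 (j + 1) = p.A0 (j + 1) := hq (j + 1) (by omega)
    rw [abar, e1, e2] at hx'
    have hT : x ∈ Tri p.h p.η :=
      (V_convex p.h p.η).segment_subset (htri j (by omega)) (htri (j + 1) (by omega)) hx'
    obtain ⟨t1, t2, t3⟩ := hT
    interval_cases i
    · have := (s0 x hx).1
      linarith
    · have := s1 x hx
      linarith
    · have := s2 x hx
      linarith

end Pool.Agent.H263_NU
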