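import Pool.Agent.H263_NU.Stmts

/-!
# A motion of the open chain inside the fixed triangle is a motion of the linkage
-/

namespace Pool.Agent.H263_NU

open Finset

theorem w1_line {a b x : ℂ} (c1 c2 c0 : ℝ) (ha : c1 * a.re + c2 * a.im = c0)
    (hb : c1 * b.re + c2 * b.im = c0) (hx : x ∈ segment ℝ a b) : c1 * x.re + c2 * x.im = c0 := by
  obtain ⟨s, t, hs, ht, hst, rfl⟩ := hx
  simp only [Complex.add_re, Complex.add_im, Complex.real_smul, Complex.mul_re, Complex.mul_im,
    Complex.ofReal_re, Complex.ofReal_im, zero_mul, sub_zero, add_zero]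
  calc c1 * (s * a.re + t * b.re) + c2 * (s * a.im + t * b.im)
      = s * (c1 * a.re + c2 * a.im) + t * (c1 * b.re + c2 * b.im) := by ring
    _ = (s + t) * c0 := by rw [ha, hb]; ring
    _ = c0 := by rw [hst, one_mul]

theorem w1_tri {h η : ℝ} {a b x : ℂ} (ha : a ∈ Tri h η) (hb : b ∈ Tri h η)
    (hx : x ∈ segment ℝ a b) : x ∈ Tri h η := by
  obtain ⟨s, t, hs, ht, hst, rfl⟩ := hx
  obtain ⟨ha1, ha2, ha3⟩ := ha
  obtain ⟨hb1, hb2, hb3⟩ := hb
  have key : ∀ u v : ℝ, 0 < u → 0 < v → 0 < s * u + t * v := by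
    intro u v hu hv
    rcases hs.eq_or_lt with h | h
    · have : t = 1 := by linarith
      rw [← h, this]; linarith
    · have h1 : 0 < s * u := mul_pos h hu
      have h2 : 0 ≤ t * v := mul_nonneg ht hv.le
      linarith
  simp only [Tri, Set.mem_ofPred_eq, Complex.add_re, Complex.add_im, Complex.real_smul,
    Complex.mul_re, Complex.mul_im, Complex.ofReal_re, Complex.ofReal_im, zero_mul, sub_zero,
    add_zero]
  refine ⟨key _ _ ha1 hb1, key _ _ ha2 hb2, ?_⟩
  have h3 := key _ _ (sub_pos.2 ha3) (sub_pos.2 hb3)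
  have h4 : s * (h - (a.im + η * a.re)) + t * (h - (b.im + η * b.re)) =
      (s + t) * h - (s * a.im + t * b.im + η * (s * a.re + t * b.re)) := by ring
  rw [h4, hst, one_mul] at h3
  linarith

/-- the three lines -/
theorem w1_bar (p : Par) (c : ℕ → ℂ) (hc : ∀ i < 3, c i = p.C0 i) :
    (∀ x ∈ cbar 3 c 0, x.im = 0) ∧ (∀ x ∈ cbar 3 c 1, x.im + p.η * x.re = p.h) ∧
      (∀ x ∈ cbar 3 c 2, x.re = 0) ∧ c 0 = 0 ∧ c 1 = ((p.h / p.η : ℝ) : ℂ) ∧
      c 2 = (p.h : ℂ) * Complex.I := by
  have h0 : c 0 = 0 := by rw [hc 0 (by norm_num)]; simp [Par.C0]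
  have h1 : c 1 = ((p.h / p.η : ℝ) : ℂ) := by rw [hc 1 (by norm_num)]; simp [Par.C0]
  have h2 : c 2 = (p.h : ℂ) * Complex.I := by rw [hc 2 (by norm_num)]; simp [Par.C0]
  have hη := p.η_pos
  refine ⟨?_, ?_, ?_, h0, h1, h2⟩
  · intro x hx
    have h := w1_line 0 1 0 (by rw [h0]; simp) (by
      rw [show (0 + 1) % 3 = 1 by norm_num, h1]; simp [-Complex.ofReal_div]) hx
    simpa using h
  · intro x hx
    have h := w1_line p.η 1 p.h (by rw [h1]; simp [-Complex.ofReal_div]; field_simp) (by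
      rw [show (1 + 1) % 3 = 2 by norm_num, h2]; simp) hx
    linarith
  · intro x hx
    have h := w1_line 1 0 0 (by rw [h2]; simp) (by
      rw [show (2 + 1) % 3 = 0 by norm_num, h0]; simp) hx
    simpa using h

theorem w1_space (p : Par) (I : Instance) (hI : p.Inst I) (hA : p.A0 ∈ p.FS) (g : ℕ → ℂ)
    (hg : g ∈ p.FS) :
    ((start I).1, fun j => if j < p.n + 6 then g j else (start I).2 j) ∈ Space I := by
  obtain ⟨hl1, hl2, hc, ha⟩ := hI
  obtain ⟨hb0, hb1, hb2, hc0, hc1, hc2⟩ := w1_bar p (start I).1 hc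
  have hη := p.η_pos
  have hh := p.h_pos
  have e01 : ∀ x ∈ cbar 3 (start I).1 0, x ∈ cbar 3 (start I).1 1 → x = (start I).1 1 := by
    intro x hx hx'
    have h1 := hb0 x hx
    have h2 := hb1 x hx'
    rw [hc1]
    apply Complex.ext
    · rw [Complex.ofReal_re, eq_div_iff hη.ne']
      rw [h1] at h2
      linarith
    · rw [Complex.ofReal_im, h1]
  have e12 : ∀ x ∈ cbar 3 (start I).1 1, x ∈ cbar 3 (start I).1 2 → x = (start I).1 2 := by
    intro x hx hx'
    have h1 := hb1 x hx
    have h2 := hb2 x hx'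
    rw [hc2]
    apply Complex.ext
    · rw [h2]; simp
    · rw [h2] at h1; simp; linarith
  have e20 : ∀ x ∈ cbar 3 (start I).1 2, x ∈ cbar 3 (start I).1 0 → x = (start I).1 0 := by
    intro x hx hx'
    have h1 := hb2 x hx
    have h2 := hb0 x hx'
    rw [hc0]
    apply Complex.ext
    · rw [h1]; simp
    · rw [h2]; simp
  refine ⟨?_, ?_⟩
  · rw [hl1, hl2]
    refine ⟨fun _ _ => rfl, fun j hj => ?_⟩
    simp only
    rw [if_pos (by omega), if_pos hj, ha j (by omega), ha (j + 1) hj, hg.1 j (by omega),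
      hA.1 j (by omega)]
  · rw [hl1, hl2]
    refine ⟨?_, ?_, ?_⟩
    · intro i hi i' hi' hne x hx hx'
      simp only at hx hx' ⊢
      interval_cases i <;> interval_cases i'
      · exact absurd rfl hne
      · exact Or.inl ⟨rfl, e01 x hx hx'⟩
      · exact Or.inr ⟨rfl, e20 x hx' hx⟩
      · exact Or.inr ⟨rfl, e01 x hx' hx⟩
      · exact absurd rfl hne
      · exact Or.inl ⟨rfl, e12 x hx hx'⟩
      · exact Or.inl ⟨rfl, e20 x hx hx'⟩
      · exact Or.inr ⟨rfl, e12 x hx' hx⟩
      · exact absurd rfl hne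
    · intro j j' hj hj' x hx hx'
      simp only [abar] at hx hx' ⊢
      rw [if_pos (by omega), if_pos (by omega)] at hx
      rw [if_pos (by omega), if_pos (by omega)] at hx'
      rw [if_pos (by omega)]
      exact hg.2.1 j j' hj hj' x hx hx'
    · intro i hi j hj x hx hx'
      simp only [abar] at hx hx'
      rw [if_pos (by omega), if_pos hj] at hx'
      obtain ⟨h1, h2, h3⟩ := w1_tri (hg.2.2 j (by omega)) (hg.2.2 (j + 1) hj) hx'
      interval_cases i
      · have := hb0 x hx
        linarith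
      · have := hb1 x hx
        linarith
      · have := hb2 x hx
        linarith

theorem job_W1 : S_W1 := by
  intro p I hI q hq hst
  obtain ⟨γ, hγ⟩ := hq
  have hA : p.A0 ∈ p.FS := by
    have := hγ 0
    rwa [γ.source] at this
  refine ⟨((start I).1, fun j => if j < p.n + 6 then q j else (start I).2 j), ⟨⟨⟨fun t =>
    ((start I).1, fun j => if j < p.n + 6 then γ t j else (start I).2 j), ?_⟩, ?_, ?_⟩, ?_⟩, ?_⟩
  · refine continuous_const.prodMk (continuous_pi fun j => ?_)
    by_cases hj : j < p.n + 6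
    · simp only [hj, if_true]
      exact (continuous_apply j).comp γ.continuous
    · simp only [hj, if_false]
      exact continuous_const
  · simp only [γ.source]
    refine Prod.ext rfl ?_
    funext j
    simp only
    split_ifs with hj
    · exact (hI.2.2.2 j hj).symm
    · rfl
  · simp only [γ.target]
  · intro t
    exact w1_space p I hI hA (γ t) (hγ t)
  · intro j hj
    rw [hI.2.1] at hj
    simp only
    rw [if_pos (by omega), if_pos (by omega), if_pos hj]
    exact hst j hj

end Pool.Agent.H263_NU
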