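import Pool.Agent.H263_NU.Stmts

/-!
# Job W2 of MP_aff8ab_lc: a motion of triangle and chain gives a motion inside the fixed triangle
-/

namespace Pool.Agent.H263_NU

open Finset Topology

namespace W2

/-- the rigid motion `z ↦ r * (z - c)` -/
noncomputable def phi (r c z : ℂ) : ℂ := r * (z - c)

theorem phi_sub (r c z w : ℂ) : phi r c z - phi r c w = r * (z - w) := by
  unfold phi; ring

theorem dist_phi {r : ℂ} (hr : ‖r‖ = 1) (c z w : ℂ) : dist (phi r c z) (phi r c w) = dist z w := by
  rw [dist_eq_norm, dist_eq_norm, phi_sub, norm_mul, hr, one_mul]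

theorem phi_inj {r : ℂ} (hr : ‖r‖ = 1) {c z w : ℂ} (h : phi r c z = phi r c w) : z = w := by
  have h0 : dist (phi r c z) (phi r c w) = 0 := by rw [h, dist_self]
  rw [dist_phi hr] at h0
  exact dist_eq_zero.1 h0

theorem mem_segment_phi (r c z w x : ℂ) :
    x ∈ segment ℝ (phi r c z) (phi r c w) → ∃ x' ∈ segment ℝ z w, phi r c x' = x := by
  rintro ⟨s, t, hs, ht, hst, rfl⟩
  refine ⟨s • z + t • w, ⟨s, t, hs, ht, hst, rfl⟩, ?_⟩
  have hst' : (s : ℂ) + (t : ℂ) = 1 := by exact_mod_cast hst
  simp only [phi, Complex.real_smul]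
  linear_combination (r * c) * hst'

theorem isOpen_Tri (h η : ℝ) : IsOpen (Tri h η) := by
  unfold Tri
  refine IsOpen.inter ?_ (IsOpen.inter ?_ ?_)
  · exact isOpen_lt continuous_const Complex.continuous_re
  · exact isOpen_lt continuous_const Complex.continuous_im
  · exact isOpen_lt (Complex.continuous_im.add (continuous_const.mul Complex.continuous_re))
      continuous_const

/-- the closed triangle -/
def CTri (h η : ℝ) : Set ℂ := {z | 0 ≤ z.re ∧ 0 ≤ z.im ∧ z.im + η * z.re ≤ h}

theorem isClosed_CTri (h η : ℝ) : IsClosed (CTri h η) := by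
  unfold CTri
  refine IsClosed.inter ?_ (IsClosed.inter ?_ ?_)
  · exact isClosed_le continuous_const Complex.continuous_re
  · exact isClosed_le continuous_const Complex.continuous_im
  · exact isClosed_le (Complex.continuous_im.add (continuous_const.mul Complex.continuous_re))
      continuous_const

theorem Tri_subset (h η : ℝ) : Tri h η ⊆ CTri h η := fun _ hz => ⟨hz.1.le, hz.2.1.le, hz.2.2.le⟩

theorem mem_Tri_of {h η : ℝ} (hh : 0 < h) (hη : 0 < η) {z : ℂ} (hz : z ∈ CTri h η)
    (h1 : z ∉ segment ℝ (0 : ℂ) ((h / η : ℝ) : ℂ))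
    (h2 : z ∉ segment ℝ ((h / η : ℝ) : ℂ) ((h : ℂ) * Complex.I))
    (h3 : z ∉ segment ℝ ((h : ℂ) * Complex.I) (0 : ℂ)) : z ∈ Tri h η := by
  obtain ⟨z1, z2, z3⟩ := hz
  have hL : 0 < h / η := div_pos hh hη
  refine ⟨lt_of_le_of_ne z1 ?_, lt_of_le_of_ne z2 ?_, lt_of_le_of_ne z3 ?_⟩
  · intro h0
    apply h3
    rw [← h0] at z3
    refine ⟨z.im / h, 1 - z.im / h, by positivity, ?_, by ring, ?_⟩
    · rw [sub_nonneg, div_le_one hh]; linarith
    · apply Complex.ext
      · simp [← h0]
      · simp; field_simp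
  · intro h0
    apply h1
    rw [← h0] at z3
    have h4 : z.re ≤ h / η := by rw [le_div_iff₀ hη]; linarith
    refine ⟨1 - z.re / (h / η), z.re / (h / η), ?_, by positivity, by ring, ?_⟩
    · rw [sub_nonneg, div_le_one hL]; linarith
    · apply Complex.ext
      · simp only [Complex.add_re, Complex.smul_re, Complex.ofReal_re, Complex.zero_re, smul_eq_mul,
          mul_zero, zero_add]
        exact div_mul_cancel₀ _ hL.ne'
      · simp only [Complex.add_im, Complex.smul_im, Complex.ofReal_im, Complex.zero_im, smul_eq_mul,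
          mul_zero, zero_add]
        exact h0
  · intro h0
    apply h2
    have h5 : z.im ≤ h := by nlinarith
    refine ⟨1 - z.im / h, z.im / h, ?_, by positivity, by ring, ?_⟩
    · rw [sub_nonneg, div_le_one hh]; linarith
    · apply Complex.ext
      · simp; field_simp; linarith
      · simp; field_simp

end W2

open W2 in
/-- wrapper, other direction, from the validity of the initial position -/
theorem W2_of (given : S_A0) : S_W2 := by
  intro p I hI ⟨q, ⟨γ, hγ⟩, hstr⟩
  obtain ⟨hl1, hl2, hc0, ha0⟩ := hI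
  have hA0 := given p
  have hLpos : 0 < p.h / p.η := div_pos p.h_pos p.η_pos
  set L : ℝ := p.h / p.η with hL
  have hγ' : ∀ t, SameLengths 3 (p.n + 6) (γ t) (start I) ∧ NonCrossing 3 (p.n + 6) (γ t) := by
    intro t
    have := hγ t
    unfold Space at this
    rw [hl1, hl2] at this
    exact this
  have hC0 : (start I).1 0 = 0 := by rw [hc0 0 (by norm_num)]; simp [Par.C0]
  have hC1 : (start I).1 1 = (L : ℂ) := by rw [hc0 1 (by norm_num)]; simp [Par.C0, hL]
  have hC2 : (start I).1 2 = (p.h : ℂ) * Complex.I := by rw [hc0 2 (by norm_num)]; simp [Par.C0]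
  have hd01 : ∀ t, dist ((γ t).1 0) ((γ t).1 1) = L := by
    intro t
    have := (hγ' t).1.1 0 (by norm_num)
    rw [hC0, show (0 + 1) % 3 = 1 from rfl, hC1] at this
    rw [this, dist_eq_norm, zero_sub, norm_neg, Complex.norm_real, Real.norm_of_nonneg hLpos.le]
  have hd12 : ∀ t, dist ((γ t).1 1) ((γ t).1 2) = dist (L : ℂ) ((p.h : ℂ) * Complex.I) := by
    intro t
    have := (hγ' t).1.1 1 (by norm_num)
    rw [hC1, show (1 + 1) % 3 = 2 from rfl, hC2] at this
    exact this
  have hd20 : ∀ t, dist ((γ t).1 2) ((γ t).1 0) = p.h := by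
    intro t
    have := (hγ' t).1.1 2 (by norm_num)
    rw [hC2, show (2 + 1) % 3 = 0 from rfl, hC0] at this
    rw [this, dist_eq_norm, sub_zero, norm_mul, Complex.norm_I, mul_one, Complex.norm_real,
      Real.norm_of_nonneg p.h_pos.le]
  have hne : ∀ t, (γ t).1 1 - (γ t).1 0 ≠ 0 := by
    intro t h0
    have := hd01 t
    rw [dist_comm, dist_eq_norm, h0, norm_zero] at this
    linarith
  -- the rotation
  set r : unitInterval → ℂ := fun t => (L : ℂ) / ((γ t).1 1 - (γ t).1 0) with hr
  have hrn : ∀ t, ‖r t‖ = 1 := by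
    intro t
    rw [hr]
    simp only [norm_div, Complex.norm_real, Real.norm_of_nonneg hLpos.le]
    rw [← dist_eq_norm, dist_comm, hd01, div_self hLpos.ne']
  have cc : ∀ i, Continuous fun t => (γ t).1 i := fun i =>
    (continuous_apply i).comp (continuous_fst.comp γ.continuous)
  have ca : ∀ j, Continuous fun t => (γ t).2 j := fun j =>
    (continuous_apply j).comp (continuous_snd.comp γ.continuous)
  have cr : Continuous r := by
    rw [hr]
    exact continuous_const.div ((cc 1).sub (cc 0)) hne
  have cphi : ∀ f : unitInterval → ℂ, Continuous f →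
      Continuous fun t => phi (r t) ((γ t).1 0) (f t) := by
    intro f hf
    unfold phi
    exact cr.mul (hf.sub (cc 0))
  have hb0 : ∀ t, phi (r t) ((γ t).1 0) ((γ t).1 0) = 0 := by intro t; simp [phi]
  have hb1 : ∀ t, phi (r t) ((γ t).1 0) ((γ t).1 1) = L := by
    intro t
    simp only [phi, hr]
    exact div_mul_cancel₀ _ (hne t)
  have hb2' : ∀ t, (phi (r t) ((γ t).1 0) ((γ t).1 2)).re = 0 ∧
      (phi (r t) ((γ t).1 0) ((γ t).1 2)).im ^ 2 = p.h ^ 2 := by
    intro t
    set z := phi (r t) ((γ t).1 0) ((γ t).1 2) with hz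
    have e1 : dist z 0 = p.h := by
      rw [← hb0 t, hz, dist_phi (hrn t), hd20]
    have e2 : dist (L : ℂ) z = dist (L : ℂ) ((p.h : ℂ) * Complex.I) := by
      conv_lhs => rw [← hb1 t]
      rw [hz, dist_phi (hrn t), hd12]
    have f1 : z.re ^ 2 + z.im ^ 2 = p.h ^ 2 := by
      rw [← e1, dist_zero_right, Complex.sq_norm, Complex.normSq_apply]; ring
    have f2 : (L - z.re) ^ 2 + z.im ^ 2 = L ^ 2 + p.h ^ 2 := by
      have := congrArg (· ^ 2) e2
      simp only [dist_eq_norm, Complex.sq_norm, Complex.normSq_apply] at this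
      simp at this
      nlinarith
    have f3 : z.re = 0 := by
      have : L * z.re = 0 := by nlinarith
      rcases mul_eq_zero.1 this with h | h
      · exact absurd h hLpos.ne'
      · exact h
    refine ⟨f3, ?_⟩
    rw [f3] at f1
    linarith
  have h00 : γ 0 = start I := γ.source
  have hr0 : r 0 = 1 := by
    simp only [hr, h00, hC0, hC1, sub_zero]
    exact div_self (by exact_mod_cast hLpos.ne')
  have hb2 : ∀ t, phi (r t) ((γ t).1 0) ((γ t).1 2) = (p.h : ℂ) * Complex.I := by
    have key : {t | (phi (r t) ((γ t).1 0) ((γ t).1 2)).im = p.h} = Set.univ := by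
      apply IsClopen.eq_univ
      · constructor
        · exact isClosed_eq (Complex.continuous_im.comp (cphi _ (cc 2))) continuous_const
        · have : {t | (phi (r t) ((γ t).1 0) ((γ t).1 2)).im = p.h} =
            {t | 0 < (phi (r t) ((γ t).1 0) ((γ t).1 2)).im} := by
            ext t
            have h1 := (hb2' t).2
            have h2 := p.h_pos
            simp only [Set.mem_ofPred_eq]
            constructor
            · intro h; rw [h]; exact h2
            · intro h
              nlinarith [sq_nonneg ((phi (r t) ((γ t).1 0) ((γ t).1 2)).im + p.h)]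
          rw [this]
          exact isOpen_lt continuous_const (Complex.continuous_im.comp (cphi _ (cc 2)))
      · refine ⟨0, ?_⟩
        simp only [Set.mem_ofPred_eq, hr0, h00, hC0, hC2, phi]
        simp
    intro t
    have ht : t ∈ {t | (phi (r t) ((γ t).1 0) ((γ t).1 2)).im = p.h} := by rw [key]; trivial
    apply Complex.ext
    · rw [(hb2' t).1]; simp
    · rw [show _ = p.h from ht]; simp
  -- the chain avoids the fixed sides
  have havoid : ∀ t, ∀ j < p.n + 6, ∀ i < 3,
      phi (r t) ((γ t).1 0) ((γ t).2 j) ∉ segment ℝ (phi (r t) ((γ t).1 0) ((γ t).1 i))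
        (phi (r t) ((γ t).1 0) ((γ t).1 ((i + 1) % 3))) := by
    intro t j hj i hi hmem
    obtain ⟨x', hx', hx⟩ := mem_segment_phi _ _ _ _ _ hmem
    have hx2 := phi_inj (hrn t) hx
    subst hx2
    rcases Nat.lt_or_ge (j + 1) (p.n + 6) with h | h
    · exact (hγ' t).2.2.2 i hi j h _ hx' (left_mem_segment _ _ _)
    · have hj5 : j = (p.n + 4) + 1 := by omega
      refine (hγ' t).2.2.2 i hi (p.n + 4) (by omega) _ hx' ?_
      unfold abar
      rw [← hj5]
      exact right_mem_segment _ _ _
  have hTri : ∀ t, ∀ j < p.n + 6, phi (r t) ((γ t).1 0) ((γ t).2 j) ∈ Tri p.h p.η := by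
    intro t j hj
    have key : {t | phi (r t) ((γ t).1 0) ((γ t).2 j) ∈ Tri p.h p.η} = Set.univ := by
      apply IsClopen.eq_univ
      · constructor
        · have : {t | phi (r t) ((γ t).1 0) ((γ t).2 j) ∈ Tri p.h p.η} =
            {t | phi (r t) ((γ t).1 0) ((γ t).2 j) ∈ CTri p.h p.η} := by
            ext s
            simp only [Set.mem_ofPred_eq]
            refine ⟨fun h => Tri_subset _ _ h, fun h => ?_⟩
            have s0 := havoid s j hj 0 (by norm_num)
            have s1 := havoid s j hj 1 (by norm_num)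
            have s2 := havoid s j hj 2 (by norm_num)
            rw [show (0 + 1) % 3 = 1 from rfl, hb0, hb1] at s0
            rw [show (1 + 1) % 3 = 2 from rfl, hb1, hb2] at s1
            rw [show (2 + 1) % 3 = 0 from rfl, hb2, hb0] at s2
            exact mem_Tri_of p.h_pos p.η_pos h s0 s1 s2
          rw [this]
          exact (isClosed_CTri _ _).preimage (cphi _ (ca j))
        · exact (isOpen_Tri _ _).preimage (cphi _ (ca j))
      · refine ⟨0, ?_⟩
        simp only [Set.mem_ofPred_eq, hr0, h00, hC0, phi, one_mul, sub_zero]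
        rw [ha0 j hj]
        exact hA0.2.2 j hj
    have ht : t ∈ {t | phi (r t) ((γ t).1 0) ((γ t).2 j) ∈ Tri p.h p.η} := by rw [key]; trivial
    exact ht
  -- the new path
  set g : unitInterval → ℕ → ℂ := fun t j =>
    if j < p.n + 6 then phi (r t) ((γ t).1 0) ((γ t).2 j) else p.A0 j with hg
  have gval : ∀ t, ∀ j < p.n + 6, g t j = phi (r t) ((γ t).1 0) ((γ t).2 j) := by
    intro t j hj
    simp only [hg, if_pos hj]
  have cg : Continuous g := by
    refine continuous_pi fun j => ?_
    by_cases hj : j < p.n + 6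
    · simp only [hg, if_pos hj]
      exact cphi _ (ca j)
    · simp only [hg, if_neg hj]
      exact continuous_const
  have g0 : g 0 = p.A0 := by
    funext j
    by_cases hj : j < p.n + 6
    · rw [gval 0 j hj]
      simp only [hr0, h00, hC0, phi, one_mul, sub_zero]
      exact ha0 j hj
    · simp only [hg, if_neg hj]
  have gFS : ∀ t, g t ∈ p.FS := by
    intro t
    refine ⟨?_, ?_, ?_⟩
    · intro j hj
      rw [gval t j (by omega), gval t (j + 1) (by omega), dist_phi (hrn t),
        (hγ' t).1.2 j (by omega), ha0 j (by omega), ha0 (j + 1) (by omega)]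
      exact hA0.1 j hj
    · intro j j' hjj' hj' x hx hx'
      rw [gval t j (by omega), gval t (j + 1) (by omega)] at hx
      rw [gval t j' (by omega), gval t (j' + 1) (by omega)] at hx'
      obtain ⟨x1, hx1, e1⟩ := mem_segment_phi _ _ _ _ _ hx
      obtain ⟨x2, hx2, e2⟩ := mem_segment_phi _ _ _ _ _ hx'
      have e3 : x1 = x2 := phi_inj (hrn t) (e1.trans e2.symm)
      subst e3
      obtain ⟨k1, k2⟩ := (hγ' t).2.2.1 j j' hjj' hj' x1 hx1 hx2
      refine ⟨k1, ?_⟩
      rw [gval t j' (by omega), ← k2, e1]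
    · intro j hj
      rw [gval t j hj]
      exact hTri t j hj
  refine ⟨g 1, ⟨⟨⟨g, cg⟩, g0, rfl⟩, gFS⟩, ?_⟩
  intro j hj
  rw [gval 1 j (by omega), gval 1 (j + 1) (by omega), gval 1 (j + 2) (by omega)]
  have h11 : γ 1 = q := γ.target
  have hs := hstr j (by rw [hl2]; exact hj)
  unfold EuclideanGeometry.angle at hs ⊢
  rw [vsub_eq_sub, vsub_eq_sub, phi_sub, phi_sub, Complex.angle_mul_left, h11]
  · rw [vsub_eq_sub, vsub_eq_sub] at hs
    exact hs
  · intro h0
    have := hrn 1
    rw [h0, norm_zero] at this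
    exact zero_ne_one this

end Pool.Agent.H263_NU
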