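import Pool.Agent.H263_NU.YPath2
import Pool.Agent.H263_NU.JN1c
import Pool.Agent.H263_NU.JN2
import Pool.Agent.H263_NU.JR
import Pool.Agent.H263_NU.JW1
import Pool.Agent.H263_NU.JW2
import Pool.Agent.H263_NU.JV
import Pool.Agent.TH668.Link.Main

/-!
# The reduction from subset sum
-/

namespace Pool.Agent.H263_NU

open Finset Pool.Agent.NPC Pool.Agent.NPC.R671.SS

theorem subsetSum_iff_fin (x : List ℕ × ℕ) :
    SubsetSum x ↔ ∃ J ⊆ range x.1.length, ∑ j ∈ J, x.1.getD j 0 = x.2 := by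
  rw [← TH668.Link.subset_iff]
  constructor
  · rintro ⟨J, hJ, h⟩
    refine ⟨J, hJ, ?_⟩
    rw [TH668.Link.alx_last] at h
    rw [← h]
    exact Finset.sum_congr rfl fun j hj => (TH668.Link.alx_lt x (mem_range.1 (hJ hj))).symm
  · rintro ⟨J, hJ, h⟩
    refine ⟨J, hJ, ?_⟩
    rw [TH668.Link.alx_last, ← h]
    exact Finset.sum_congr rfl fun j hj => TH668.Link.alx_lt x (mem_range.1 (hJ hj))

/-- The reduction is correct. -/
theorem correct {x : List ℕ × ℕ} {p : Par} {K : ℕ} {I : Instance} (hK : 0 < K) (hI : p.Inst I)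
    (hn : p.n = x.1.length) (hu : p.u = K) (ha : ∀ i < p.n, p.a i = K * (x.1.getD i 0 : ℕ))
    (ht : p.tt = K * x.2) : SubsetSum x ↔ Unlockable I := by
  have hK' : (0 : ℝ) < K := by exact_mod_cast hK
  rw [subsetSum_iff_fin]
  constructor
  · rintro ⟨J, hJ, h⟩
    have hsum : ∑ i ∈ J, p.a i = p.tt := by
      rw [ht, ← h, Nat.cast_sum, Finset.mul_sum]
      exact Finset.sum_congr rfl fun j hj => ha j (hn ▸ mem_range.1 (hJ hj))
    obtain ⟨q, hq, hs⟩ := y_main p J (hn ▸ hJ) hsum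
    exact job_W1 p I hI q hq hs
  · intro hU
    obtain ⟨q, hq, hs⟩ := W2_of a0_main p I hI hU
    obtain ⟨q', hq'⟩ := job_N1c p q hq hs
    obtain ⟨s, hs1, hs2⟩ := job_N2 p q' hq'
    refine ⟨(range x.1.length).filter fun i => s i = 1, Finset.filter_subset _ _, ?_⟩
    have e1 : ∑ i ∈ range p.n, s i * p.a i = 2 * (K * ((∑ i ∈ (range x.1.length).filter
        (fun i => s i = 1), x.1.getD i 0 : ℕ) : ℝ)) - p.w := by
      have e2 : p.w = ∑ i ∈ range p.n, p.a i := rfl
      rw [e2, ← hn, Nat.cast_sum, Finset.mul_sum, Finset.sum_filter, Finset.mul_sum,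
        ← Finset.sum_sub_distrib]
      refine Finset.sum_congr rfl fun i hi => ?_
      rw [ha i (mem_range.1 hi)]
      rcases hs1 i with h | h
      · rw [if_pos h, h]; ring
      · rw [if_neg (by rw [h]; norm_num), h]; ring
    rw [e1, ht, hu] at hs2
    set N : ℕ := ∑ i ∈ (range x.1.length).filter (fun i => s i = 1), x.1.getD i 0
    have e3 : 2 * ((K : ℝ) * (N : ℝ)) - p.w - (2 * (K * x.2) - p.w) =
        K * (2 * ((N : ℝ) - x.2)) := by ring
    rw [e3, abs_mul, abs_of_pos hK'] at hs2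
    have e4 : |2 * ((N : ℝ) - x.2)| < 1 := by
      by_contra hc
      push Not at hc
      nlinarith
    have e5 : |2 * ((N : ℤ) - x.2)| < 1 := by exact_mod_cast e4
    have e6 := abs_lt.1 e5
    omega

/-- The promise satisfied by the instances produced by the reduction. -/
def Promise (I : Instance) : Prop := Valid I ∧ I.1.length = 3

theorem hardPr : HardPr Promise NestedUnlock := by
  obtain ⟨red, hred, h⟩ := job_R
  have hval : ∀ x, Nice x → Promise (red x) := by
    intro x hx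
    obtain ⟨p, K, hK, hI, hn, hu, ha, ht⟩ := h x hx
    exact ⟨job_V p _ hI (a0_main p), hI.1⟩
  refine hardPr_SubsetSum.trans hred hval fun x hx => ?_
  obtain ⟨p, K, hK, hI, hn, hu, ha, ht⟩ := h x hx
  rw [correct hK hI hn hu ha ht]
  exact ⟨fun hU => ⟨(hval x hx).1, hU⟩, fun hU => hU.2⟩

/-- Final form. -/
theorem main : NPHardP NestedUnlock ∧
    ∀ L : Set (List Bool), InNP L → ∃ f : List Bool → Instance,
      PolyTime (fun w => bits (f w)) ∧
        ∀ w, Valid (f w) ∧ (f w).1.length = 3 ∧ (w ∈ L ↔ Unlockable (f w)) := by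
  refine ⟨hardPr.toHardI.toNPHardP, fun L hL => ?_⟩
  obtain ⟨g, hg, hp, hiff⟩ := hardPr L hL
  exact ⟨g, PC.toPolyTime hg, fun w => ⟨(hp w).1, (hp w).2, (hiff w).trans
    ⟨fun h => h.2, fun h => ⟨(hp w).1, h⟩⟩⟩⟩

end Pool.Agent.H263_NU
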