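import Mathlib

/-!
# The parameters of the construction
-/

namespace Pool.Agent.H263_NU

open Finset

/-- The open triangle with vertices `0`, `h / η`, `h * I`. -/
def Tri (h η : ℝ) : Set ℂ := {z | 0 < z.re ∧ 0 < z.im ∧ z.im + η * z.re < h}

/-- The chain with vertices `a 0, ..., a (l - 1)` is simple. -/
def Simple (l : ℕ) (a : ℕ → ℂ) : Prop :=
  ∀ j j', j < j' → j' + 1 < l → ∀ x ∈ segment ℝ (a j) (a (j + 1)),
    x ∈ segment ℝ (a j') (a (j' + 1)) → j' = j + 1 ∧ x = a j'

/-- Parameters: `n` items `a 0, ..., a (n - 1)` (all at least `u`), the target `tt`, and a very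
small slope `η`. -/
structure Par where
  /-- number of items -/
  n : ℕ
  /-- the items -/
  a : ℕ → ℝ
  /-- the unit -/
  u : ℝ
  /-- the target -/
  tt : ℝ
  /-- the slope -/
  η : ℝ
  u_pos : 0 < u
  a_ge : ∀ i < n, u ≤ a i
  tt_pos : 0 < tt
  tt_lt : tt < ∑ i ∈ range n, a i
  η_pos : 0 < η
  η_small : 1000 * (∑ i ∈ range n, a i) ^ 2 * η ≤ u ^ 2

namespace Par

variable (p : Par)

/-- total length of the items -/
noncomputable def w : ℝ := ∑ i ∈ range p.n, p.a i
/-- height of the triangle -/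
noncomputable def h : ℝ := 10 * p.w
/-- a very small length -/
noncomputable def ε : ℝ := p.h * p.η ^ 2
/-- length of the bar `Y` -/
noncomputable def y : ℝ := 4 * p.w
/-- length of the bar `D` -/
noncomputable def d : ℝ := p.h - p.ε - (2 * p.tt - p.w) - p.y
/-- length of the bar `M` -/
noncomputable def m : ℝ := 100 * p.w
/-- coordinates of the vertex `T` -/
noncomputable def x0 : ℝ := p.ε / 16
noncomputable def k1 : ℝ := p.h - 2 * p.ε
noncomputable def k2 : ℝ := p.ε / 4
noncomputable def k3 : ℝ := p.ε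
noncomputable def k4 : ℝ := p.ε ^ 2 / (8 * p.h)
/-- length of `D`, the items and `Y` together -/
noncomputable def l : ℝ := p.d + p.w + p.y
/-- length of the bar `E` -/
noncomputable def e : ℝ := √(p.k1 ^ 2 + p.k2 ^ 2)
/-- length of the bar `B` -/
noncomputable def b : ℝ := √((p.k1 - p.k3) ^ 2 + (p.k2 - p.k4) ^ 2)
/-- partial sums of the items -/
noncomputable def A (i : ℕ) : ℝ := ∑ j ∈ range i, p.a j

/-- the initial direction of the bars `D`, ... -/
noncomputable def ω : ℂ := ⟨4 / 5, 3 / 5⟩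

/-- the vertex `T` -/
noncomputable def T0 : ℂ := ⟨p.x0, p.x0⟩

/-- The vertices of the open chain in the initial position: `Z = 0`, `T = 1`,
`J i = i + 2` for `i ≤ n`, `P = n + 3`, `Q = n + 4`, `S = n + 5`. -/
noncomputable def A0 (j : ℕ) : ℂ :=
  if j = 0 then p.T0 + p.m
  else if j = 1 then p.T0
  else if j ≤ p.n + 2 then p.T0 + ω * ((p.d + p.A (j - 2) : ℝ) : ℂ)
  else if j = p.n + 3 then p.T0 + ω * (p.l : ℂ)
  else if j = p.n + 4 then p.T0 + ω * ⟨p.l - p.k1, -p.k2⟩
  else p.T0 + ω * ⟨p.l - p.k3, -p.k4⟩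

/-- The lengths of the bars `M = 0`, `D = 1`, item `i = i + 2`, `Y = n + 2`, `E = n + 3`,
`B = n + 4`. -/
noncomputable def len (j : ℕ) : ℝ :=
  if j = 0 then p.m
  else if j = 1 then p.d
  else if j < p.n + 2 then p.a (j - 2)
  else if j = p.n + 2 then p.y
  else if j = p.n + 3 then p.e
  else p.b

/-- The positions of the open chain inside the (fixed) triangle. -/
def FS : Set (ℕ → ℂ) :=
  {q | (∀ j < p.n + 5, dist (q j) (q (j + 1)) = p.len j) ∧ Simple (p.n + 6) q ∧
    ∀ j < p.n + 6, q j ∈ Tri p.h p.η}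

/-! ### Inequalities between the parameters -/

theorem w_pos : 0 < p.w := p.tt_pos.trans p.tt_lt

theorem n_pos : 0 < p.n := by
  rcases Nat.eq_zero_or_pos p.n with h | h
  · have := p.w_pos
    simp [w, h] at this
  · exact h

theorem a_pos {i : ℕ} (hi : i < p.n) : 0 < p.a i := p.u_pos.trans_le (p.a_ge i hi)

theorem nu_le : p.n * p.u ≤ p.w := by
  have : ∑ i ∈ range p.n, p.u ≤ ∑ i ∈ range p.n, p.a i :=
    Finset.sum_le_sum fun i hi => p.a_ge i (Finset.mem_range.1 hi)
  simpa [w] using this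

theorem u_le_w : p.u ≤ p.w := by
  have h1 := p.nu_le
  have h2 : (1 : ℝ) ≤ p.n := by exact_mod_cast p.n_pos
  have := p.u_pos
  nlinarith

theorem η_small' : 1000 * p.w ^ 2 * p.η ≤ p.u ^ 2 := p.η_small

theorem wη : 1000 * (p.w * p.η) ≤ p.u := by
  have h1 := p.η_small'
  have h2 := p.u_le_w
  have h3 := p.w_pos
  have h4 := p.u_pos
  have h5 := p.η_pos
  have h6 : 1000 * p.w * (p.w * p.η) ≤ p.u * p.w := by nlinarith
  by_contra h7
  push Not at h7
  nlinarith

theorem η_le : 1000 * p.η ≤ 1 := by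
  have h1 := p.wη
  have h2 := p.u_le_w
  have h3 := p.w_pos
  by_contra h7
  push Not at h7
  nlinarith

theorem h_eq : p.h = 10 * p.w := rfl
theorem y_eq : p.y = 4 * p.w := rfl
theorem m_eq : p.m = 100 * p.w := rfl
theorem h_pos : 0 < p.h := by rw [h_eq]; linarith [p.w_pos]
theorem y_pos : 0 < p.y := by rw [y_eq]; linarith [p.w_pos]
theorem m_pos : 0 < p.m := by rw [m_eq]; linarith [p.w_pos]
theorem ε_pos : 0 < p.ε := mul_pos p.h_pos (pow_pos p.η_pos 2)
theorem x0_pos : 0 < p.x0 := by unfold x0; linarith [p.ε_pos]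

/-- `ε ≤ u / 100000` -/
theorem ε_le : 100000 * p.ε ≤ p.u := by
  have h1 := p.wη
  have h2 := p.η_le
  have h3 := p.η_pos
  have h4 := p.w_pos
  unfold ε
  rw [h_eq]
  have h5 : p.w * p.η * (1000 * p.η) ≤ p.w * p.η * 1 :=
    mul_le_mul_of_nonneg_left h2 (mul_pos h4 h3).le
  nlinarith

theorem tt_lt' : p.tt < p.w := p.tt_lt

theorem d_eq : p.d = 7 * p.w - 2 * p.tt - p.ε := by
  unfold d; rw [h_eq, y_eq]; ring

theorem l_eq : p.l = 12 * p.w - 2 * p.tt - p.ε := by
  unfold l; rw [d_eq, y_eq]; ring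

theorem d_pos : 0 < p.d := by
  rw [d_eq]; linarith [p.tt_lt', p.ε_le, p.u_le_w, p.w_pos, p.ε_pos]

end Par

end Pool.Agent.H263_NU
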