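import Pool.Agent.H263_NU.Defs
import Pool.Agent.H263_NU.Par
import Pool.Agent.H671R2.SubsetSum

/-!
# Statements of the parts
-/

namespace Pool.Agent.H263_NU

open Finset Pool.Agent.NPC Pool.Agent.NPC.R671.SS

/-- the vertices of the triangle -/
noncomputable def Par.C0 (p : Par) (i : ℕ) : ℂ :=
  if i = 0 then 0 else if i = 1 then ((p.h / p.η : ℝ) : ℂ) else (p.h : ℂ) * Complex.I

/-- The instance `I` is the instance of the parameters `p`. -/
def Par.Inst (p : Par) (I : Instance) : Prop :=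
  I.1.length = 3 ∧ I.2.length = p.n + 6 ∧ (∀ i < 3, (start I).1 i = p.C0 i) ∧
    ∀ j < p.n + 6, (start I).2 j = p.A0 j

/-- what the positions at the critical time satisfy -/
def Par.Crit (p : Par) (q : ℕ → ℂ) : Prop :=
  q ∈ p.FS ∧ (q 1).re < (q 0).re ∧
  (∃ F : ℕ → ℝ, (∀ k ≤ p.n + 3, q k - q (p.n + 4) =
      (‖q k - q (p.n + 4)‖ : ℂ) * Complex.exp (F k * Complex.I)) ∧
    (∀ k < p.n + 3, |F (k + 1) - F k| < Real.pi) ∧
    -(Real.pi / 2) < F 0 ∧ F 0 < Real.pi / 2 ∧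
    -(5 * Real.pi / 2) ≤ F (p.n + 3) ∧ F (p.n + 3) ≤ -(3 * Real.pi / 2)) ∧
  (((q (p.n + 5)).re = (q (p.n + 4)).re ∧ (q (p.n + 4)).im < (q (p.n + 5)).im) ∨
    ((q (p.n + 3)).re = (q (p.n + 4)).re ∧ (q (p.n + 3)).im < (q (p.n + 4)).im))

/-- wrapper, easy direction -/
def S_W1 : Prop := ∀ (p : Par) (I : Instance), p.Inst I → ∀ q : ℕ → ℂ, JoinedIn p.FS p.A0 q →
  Straight (p.n + 6) q → Unlockable I

/-- wrapper, other direction -/
def S_W2 : Prop := ∀ (p : Par) (I : Instance), p.Inst I → Unlockable I →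
  ∃ q : ℕ → ℂ, JoinedIn p.FS p.A0 q ∧ Straight (p.n + 6) q

/-- the initial position is valid -/
def S_A0 : Prop := ∀ p : Par, p.A0 ∈ p.FS

/-- validity of the instance -/
def S_V : Prop := ∀ (p : Par) (I : Instance), p.Inst I → p.A0 ∈ p.FS → Valid I

/-- existence of the critical time -/
def S_N1 : Prop := ∀ (p : Par) (q : ℕ → ℂ), JoinedIn p.FS p.A0 q → Straight (p.n + 6) q →
  ∃ q', p.Crit q'

/-- at the critical time the items are folded to the right length -/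
def S_N2 : Prop := ∀ (p : Par) (q : ℕ → ℂ), p.Crit q →
  ∃ s : ℕ → ℝ, (∀ i, s i = 1 ∨ s i = -1) ∧
    |∑ i ∈ range p.n, s i * p.a i - (2 * p.tt - p.w)| < p.u

/-- straightening -/
def S_Y : Prop := ∀ (p : Par) (J : Finset ℕ), J ⊆ range p.n → ∑ i ∈ J, p.a i = p.tt →
  ∃ q : ℕ → ℂ, JoinedIn p.FS p.A0 q ∧ Straight (p.n + 6) q

/-- the reduction -/
def S_R : Prop := ∃ red : List ℕ × ℕ → Instance, Poly red ∧ ∀ x, Nice x → ∃ (p : Par) (K : ℕ),
  0 < K ∧ p.Inst (red x) ∧ p.n = x.1.length ∧ p.u = K ∧ (∀ i < p.n, p.a i = K * (x.1.getD i 0 : ℕ)) ∧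
    p.tt = K * x.2

end Pool.Agent.H263_NU
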