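import Pool.Agent.H263_NU.Frame

/-!
# The family of positions used to straighten the chain
-/

namespace Pool.Agent.H263_NU

open Finset

namespace Par

variable (p : Par)

/-! ### More inequalities -/

theorem ε_lt_w : 100000 * p.ε ≤ p.w := p.ε_le.trans p.u_le_w

theorem k1_pos : 0 < p.k1 := by
  unfold k1; rw [h_eq]; linarith [p.ε_lt_w, p.w_pos, p.ε_pos]
theorem k2_pos : 0 < p.k2 := by unfold k2; linarith [p.ε_pos]
theorem k3_pos : 0 < p.k3 := p.ε_pos
theorem k4_pos : 0 < p.k4 := div_pos (pow_pos p.ε_pos 2) (by linarith [p.h_pos])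

theorem k4_le : p.k4 ≤ p.ε / 1000 := by
  unfold k4
  rw [div_le_iff₀ (by linarith [p.h_pos]), h_eq]
  have := p.ε_lt_w
  have := p.ε_pos
  nlinarith

theorem k_cross : p.k1 * p.k4 < p.k2 * p.k3 := by
  have h1 : 8 * p.h * p.k4 = p.ε ^ 2 := by
    unfold k4
    have := p.h_pos
    field_simp
  have h2 : p.k1 < p.h := by unfold k1; linarith [p.ε_pos]
  have h3 : p.k1 * p.k4 < p.h * p.k4 := mul_lt_mul_of_pos_right h2 p.k4_pos
  have h4 : p.k2 * p.k3 = p.ε ^ 2 / 4 := by unfold k2 k3; ring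
  rw [h4]
  have := pow_pos p.ε_pos 2
  nlinarith

theorem e_pos : 0 < p.e := Real.sqrt_pos.2 (by have := pow_pos p.k1_pos 2; positivity)

theorem e_sq : p.e ^ 2 = p.k1 ^ 2 + p.k2 ^ 2 := Real.sq_sqrt (by positivity)

theorem b_sq : p.b ^ 2 = (p.k1 - p.k3) ^ 2 + (p.k2 - p.k4) ^ 2 := Real.sq_sqrt (by positivity)

theorem e_ge : p.h - 2 * p.ε ≤ p.e := by
  apply Real.le_sqrt_of_sq_le
  unfold k1
  nlinarith [sq_nonneg p.k2]

theorem e_le : p.e ≤ p.h - 19 / 10 * p.ε := by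
  unfold e
  apply Real.sqrt_le_iff.2
  have h1 := p.ε_lt_w
  have h2 := p.w_pos
  have h3 := p.ε_pos
  rw [h_eq]
  constructor
  · linarith
  · unfold k1 k2; rw [h_eq]; nlinarith

theorem b_ge : p.h - 3 * p.ε ≤ p.b := by
  apply Real.le_sqrt_of_sq_le
  unfold k1 k3
  nlinarith [sq_nonneg (p.k2 - p.k4)]

theorem b_le : p.b ≤ p.h - 29 / 10 * p.ε := by
  unfold b
  apply Real.sqrt_le_iff.2
  have h1 := p.ε_lt_w
  have h2 := p.w_pos
  have h3 := p.ε_pos
  have h4 := p.k4_pos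
  have h5 := p.k4_le
  rw [h_eq]
  constructor
  · linarith
  · have h6 : (p.k2 - p.k4) ^ 2 ≤ (p.ε / 4) ^ 2 := by
      have : p.k2 = p.ε / 4 := rfl
      rw [this]
      apply pow_le_pow_left₀ <;> linarith
    have h7 : p.k1 - p.k3 = 10 * p.w - 3 * p.ε := by unfold k1 k3; rw [h_eq]; ring
    rw [h7]
    nlinarith

theorem b_pos : 0 < p.b := by
  have := p.b_ge
  rw [h_eq] at this
  linarith [p.ε_lt_w, p.w_pos, p.ε_pos]

/-! ### The items, split in two parts -/

variable (J : Finset ℕ)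

/-- partial sum of the items in `J` -/
noncomputable def pp (i : ℕ) : ℝ := ∑ j ∈ range i, if j ∈ J then p.a j else 0
/-- partial sum of the items not in `J` -/
noncomputable def nn (i : ℕ) : ℝ := ∑ j ∈ range i, if j ∈ J then 0 else p.a j

theorem pp_add_nn (i : ℕ) : p.pp J i + p.nn J i = p.A i := by
  unfold pp nn A
  rw [← Finset.sum_add_distrib]
  refine Finset.sum_congr rfl fun j _ => ?_
  split_ifs <;> ring

theorem pp_nonneg {i : ℕ} (hi : i ≤ p.n) : 0 ≤ p.pp J i := by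
  refine Finset.sum_nonneg fun j hj => ?_
  split_ifs
  · exact (p.a_pos ((Finset.mem_range.1 hj).trans_le hi)).le
  · exact le_rfl

theorem nn_nonneg {i : ℕ} (hi : i ≤ p.n) : 0 ≤ p.nn J i := by
  refine Finset.sum_nonneg fun j hj => ?_
  split_ifs
  · exact le_rfl
  · exact (p.a_pos ((Finset.mem_range.1 hj).trans_le hi)).le

theorem pp_mono {i : ℕ} (hi : i ≤ p.n) : p.pp J i ≤ p.pp J p.n := by
  unfold pp
  refine Finset.sum_le_sum_of_subset_of_nonneg (Finset.range_subset_range.2 hi) fun j hj _ => ?_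
  split_ifs
  · exact (p.a_pos (Finset.mem_range.1 hj)).le
  · exact le_rfl

theorem nn_mono {i : ℕ} (hi : i ≤ p.n) : p.nn J i ≤ p.nn J p.n := by
  unfold nn
  refine Finset.sum_le_sum_of_subset_of_nonneg (Finset.range_subset_range.2 hi) fun j hj _ => ?_
  split_ifs
  · exact le_rfl
  · exact (p.a_pos (Finset.mem_range.1 hj)).le

theorem A_succ (i : ℕ) : p.A (i + 1) = p.A i + p.a i := Finset.sum_range_succ _ _

theorem A_n : p.A p.n = p.w := rfl

/-- The hypothesis on `J`. -/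
def Sol : Prop := p.pp J p.n = p.tt

variable {p J}

theorem Sol.nn (hJ : p.Sol J) : p.nn J p.n = p.w - p.tt := by
  have := p.pp_add_nn J p.n
  rw [A_n, hJ] at this
  linarith

theorem sol_of (hJ : J ⊆ range p.n) (h : ∑ i ∈ J, p.a i = p.tt) : p.Sol J := by
  unfold Sol pp
  rw [← h, ← Finset.sum_filter]
  congr 1
  ext j
  simp only [Finset.mem_filter]
  exact ⟨fun h => h.2, fun h => ⟨hJ h, h⟩⟩

variable (p J)

/-- height of `H` above the line -/
noncomputable def hh (θ : ℝ) : ℝ := (p.w - p.tt) * Real.sin θ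

/-- the position of `P` on the line -/
noncomputable def ℓ (θ : ℝ) : ℝ :=
  p.d + p.tt + (p.w - p.tt) * Real.cos θ + √(p.y ^ 2 - p.hh θ ^ 2)

/-- The position of the open chain with parameters: the position `T`, the direction `ω`, the angle
`θ` of the reversed items, and the vectors `q`, `s` from `P` to `Q`, `S` (relative to `ω`). -/
noncomputable def cfg (T ω : ℂ) (θ : ℝ) (q s : ℂ) (j : ℕ) : ℂ :=
  if j = 0 then T + p.m
  else if j = 1 then T
  else if j ≤ p.n + 2 then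
    T + ω * ((p.d + p.pp J (j - 2) : ℝ) + (p.nn J (j - 2) : ℝ) * Complex.exp (θ * Complex.I))
  else if j = p.n + 3 then T + ω * (p.ℓ θ : ℝ)
  else if j = p.n + 4 then T + ω * ((p.ℓ θ : ℝ) + q)
  else T + ω * ((p.ℓ θ : ℝ) + s)

variable {p J}

section values
variable (T ω : ℂ) (θ : ℝ) (q s : ℂ)

theorem cfg_0 : p.cfg J T ω θ q s 0 = T + p.m := rfl
theorem cfg_1 : p.cfg J T ω θ q s 1 = T := rfl
theorem cfg_J {i : ℕ} (hi : i ≤ p.n) : p.cfg J T ω θ q s (i + 2) =
    T + ω * ((p.d + p.pp J i : ℝ) + (p.nn J i : ℝ) * Complex.exp (θ * Complex.I)) := by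
  unfold cfg
  rw [if_neg (by omega), if_neg (by omega), if_pos (by omega)]
  simp
theorem cfg_P : p.cfg J T ω θ q s (p.n + 3) = T + ω * (p.ℓ θ : ℝ) := by
  unfold cfg
  rw [if_neg (by omega), if_neg (by omega), if_neg (by omega), if_pos rfl]
theorem cfg_Q : p.cfg J T ω θ q s (p.n + 4) = T + ω * ((p.ℓ θ : ℝ) + q) := by
  unfold cfg
  rw [if_neg (by omega), if_neg (by omega), if_neg (by omega), if_neg (by omega), if_pos rfl]
theorem cfg_S : p.cfg J T ω θ q s (p.n + 5) = T + ω * ((p.ℓ θ : ℝ) + s) := by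
  unfold cfg
  rw [if_neg (by omega), if_neg (by omega), if_neg (by omega), if_neg (by omega),
    if_neg (by omega)]

end values

/-! ### The length `ℓ` -/

section ell
variable (p)

theorem hh_sq_le (θ : ℝ) : p.hh θ ^ 2 ≤ p.w ^ 2 := by
  unfold hh
  have h1 := Real.sin_sq_le_one θ
  have h2 : 0 ≤ p.w - p.tt := by linarith [p.tt_lt']
  have h3 : (p.w - p.tt) ^ 2 ≤ p.w ^ 2 := pow_le_pow_left₀ h2 (by linarith [p.tt_pos]) 2
  have h4 := sq_nonneg (p.w - p.tt)
  rw [mul_pow]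
  nlinarith [sq_nonneg (Real.sin θ)]

theorem sqrt_le (θ : ℝ) : √(p.y ^ 2 - p.hh θ ^ 2) ≤ p.y := by
  apply Real.sqrt_le_iff.2
  exact ⟨p.y_pos.le, by nlinarith [sq_nonneg (p.hh θ)]⟩

theorem sqrt_ge (θ : ℝ) : p.y - p.hh θ ^ 2 / p.y ≤ √(p.y ^ 2 - p.hh θ ^ 2) := by
  apply Real.le_sqrt_of_sq_le
  have h1 := p.hh_sq_le θ
  have hy := p.y_pos
  have hyw : p.y = 4 * p.w := rfl
  have hw := p.w_pos
  have h2 : (p.y - p.hh θ ^ 2 / p.y) ^ 2 = p.y ^ 2 - 2 * p.hh θ ^ 2 + (p.hh θ ^ 2) ^ 2 / p.y ^ 2 := by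
    field_simp
    ring
  rw [h2]
  have h3 : (p.hh θ ^ 2) ^ 2 / p.y ^ 2 ≤ p.hh θ ^ 2 := by
    rw [div_le_iff₀ (by positivity), sq (p.hh θ ^ 2)]
    apply mul_le_mul_of_nonneg_left _ (sq_nonneg _)
    rw [hyw]; nlinarith
  linarith

theorem ℓ_le (θ : ℝ) : p.ℓ θ ≤ p.l := by
  unfold ℓ l
  have h1 := p.sqrt_le θ
  have h2 := Real.cos_le_one θ
  have h3 : 0 ≤ p.w - p.tt := by linarith [p.tt_lt']
  nlinarith

theorem ℓ_le' (θ : ℝ) : p.ℓ θ ≤ p.h - p.ε + (p.w - p.tt) * (1 + Real.cos θ) := by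
  unfold ℓ
  have h1 := p.sqrt_le θ
  have h2 : p.d = p.h - p.ε - (2 * p.tt - p.w) - p.y := rfl
  linarith

theorem ℓ_gt (θ : ℝ) : p.d + p.w < p.ℓ θ := by
  unfold ℓ
  have h1 := p.sqrt_ge θ
  have h2 := Real.neg_one_le_cos θ
  have h3 : 0 ≤ p.w - p.tt := by linarith [p.tt_lt']
  have h4 := p.hh_sq_le θ
  have hw := p.w_pos
  have h5 : p.hh θ ^ 2 / p.y ≤ p.w / 4 := by
    rw [div_le_iff₀ p.y_pos, y_eq]
    nlinarith
  have h6 : p.y = 4 * p.w := rfl
  nlinarith [p.tt_pos]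

theorem ℓ_ge (θ : ℝ) : p.h - p.ε ≤ p.ℓ θ := by
  unfold ℓ
  have h1 := p.sqrt_ge θ
  have hN : 0 ≤ p.w - p.tt := by linarith [p.tt_lt']
  have hw := p.w_pos
  have h2 : p.d = p.h - p.ε - (2 * p.tt - p.w) - p.y := rfl
  have h3 : p.hh θ ^ 2 / p.y ≤ (p.w - p.tt) * (1 + Real.cos θ) := by
    rw [div_le_iff₀ p.y_pos]
    have h4 : p.hh θ ^ 2 = (p.w - p.tt) ^ 2 * ((1 - Real.cos θ) * (1 + Real.cos θ)) := by
      unfold hh
      rw [mul_pow, Real.sin_sq]; ring
    rw [h4]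
    have h5 : (p.w - p.tt) * (1 - Real.cos θ) ≤ p.y := by
      rw [y_eq]
      nlinarith [Real.neg_one_le_cos θ, p.tt_pos]
    have h6 : 0 ≤ (p.w - p.tt) * (1 + Real.cos θ) :=
      mul_nonneg hN (by linarith [Real.neg_one_le_cos θ])
    nlinarith
  linarith

theorem ℓ_zero : p.ℓ 0 = p.l := by
  unfold ℓ hh l
  rw [Real.sin_zero, Real.cos_zero, mul_zero, zero_pow (by norm_num), sub_zero,
    Real.sqrt_sq p.y_pos.le]
  ring

theorem ℓ_continuous : Continuous p.ℓ := by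
  unfold ℓ hh
  fun_prop

end ell

/-! ### Initial position -/

theorem A0_eq : p.A0 = p.cfg J p.T0 ω 0 (-(p.k1 + p.k2 * Complex.I)) (-(p.k3 + p.k4 * Complex.I)) := by
  funext j
  unfold A0 cfg
  split_ifs
  · rfl
  · rfl
  · rw [← p.pp_add_nn J]
    simp only [Complex.ofReal_zero, zero_mul, Complex.exp_zero, mul_one]
    push_cast
    ring
  · rw [ℓ_zero]
  · rw [ℓ_zero]
    congr 2
    apply Complex.ext <;> simp
    ring
  · rw [ℓ_zero]
    congr 2
    apply Complex.ext <;> simp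
    ring

/-! ### Lengths -/

theorem cfg_len {T ω : ℂ} {θ : ℝ} {q s : ℂ} (hJ : p.Sol J ∨ θ = 0) (hω : ‖ω‖ = 1) (hq : ‖q‖ = p.e)
    (hs : ‖s - q‖ = p.b) : ∀ j < p.n + 5,
    dist (p.cfg J T ω θ q s j) (p.cfg J T ω θ q s (j + 1)) = p.len j := by
  intro j hj
  rcases Nat.eq_zero_or_pos j with rfl | h0
  · rw [cfg_0, cfg_1, Complex.dist_eq]
    simp [len, abs_of_pos p.m_pos]
  rcases Nat.lt_or_ge j 2 with h1 | h1
  · obtain rfl : j = 1 := by omega
    rw [cfg_1, show 1 + 1 = 0 + 2 by rfl, cfg_J _ _ _ _ _ (Nat.zero_le _), dist_comm,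
      Complex.dist_eq]
    simp only [pp, nn, Finset.range_zero, Finset.sum_empty, add_zero, Complex.ofReal_zero,
      zero_mul, add_sub_cancel_left, norm_mul, hω, one_mul, Complex.norm_real, Real.norm_eq_abs,
      abs_of_pos p.d_pos]
    simp [len]
  obtain ⟨i, rfl⟩ : ∃ i, j = i + 2 := ⟨j - 2, by omega⟩
  rcases Nat.lt_or_ge i p.n with h2 | h2
  · rw [cfg_J _ _ _ _ _ h2.le, show i + 2 + 1 = (i + 1) + 2 by ring, cfg_J _ _ _ _ _ h2, dist_comm,
      Complex.dist_eq]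
    have hl : p.len (i + 2) = p.a i := by
      unfold len
      rw [if_neg (by omega), if_neg (by omega), if_pos (by omega)]
      simp
    rw [hl]
    have hap := p.a_pos h2
    by_cases hi : i ∈ J
    · have e1 : p.pp J (i + 1) = p.pp J i + p.a i := by
        unfold pp; rw [Finset.sum_range_succ, if_pos hi]
      have e2 : p.nn J (i + 1) = p.nn J i := by
        unfold nn; rw [Finset.sum_range_succ, if_pos hi, add_zero]
      rw [e1, e2]
      have : T + ω * (((p.d + (p.pp J i + p.a i) : ℝ) : ℂ) + (p.nn J i : ℝ) * Complex.exp (θ * Complex.I)) -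
          (T + ω * (((p.d + p.pp J i : ℝ) : ℂ) + (p.nn J i : ℝ) * Complex.exp (θ * Complex.I))) =
          ω * (p.a i : ℝ) := by push_cast; ring
      rw [this, norm_mul, hω, one_mul, Complex.norm_real, Real.norm_eq_abs, abs_of_pos hap]
    · have e1 : p.pp J (i + 1) = p.pp J i := by
        unfold pp; rw [Finset.sum_range_succ, if_neg hi, add_zero]
      have e2 : p.nn J (i + 1) = p.nn J i + p.a i := by
        unfold nn; rw [Finset.sum_range_succ, if_neg hi]
      rw [e1, e2]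
      have : T + ω * (((p.d + p.pp J i : ℝ) : ℂ) + ((p.nn J i + p.a i : ℝ) : ℂ) * Complex.exp (θ * Complex.I)) -
          (T + ω * (((p.d + p.pp J i : ℝ) : ℂ) + (p.nn J i : ℝ) * Complex.exp (θ * Complex.I))) =
          ω * ((p.a i : ℝ) * Complex.exp (θ * Complex.I)) := by push_cast; ring
      rw [this, norm_mul, norm_mul, hω, one_mul, Complex.norm_real, Real.norm_eq_abs,
        abs_of_pos hap, Complex.norm_exp_ofReal_mul_I, mul_one]
  rcases Nat.eq_or_lt_of_le h2 with rfl | h3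
  · rw [cfg_J _ _ _ _ _ le_rfl, show p.n + 2 + 1 = p.n + 3 by ring, cfg_P, dist_comm,
      Complex.dist_eq]
    have hl : p.len (p.n + 2) = p.y := by
      unfold len
      rw [if_neg (by omega), if_neg (by omega), if_neg (by omega), if_pos rfl]
    rw [hl]
    rcases hJ with hJ | rfl
    swap
    · have h6 := p.pp_add_nn J p.n
      rw [A_n] at h6
      have : T + ω * (p.ℓ 0 : ℝ) - (T + ω * (((p.d + p.pp J p.n : ℝ) : ℂ) + ((p.nn J p.n : ℝ) : ℂ) *
        Complex.exp ((0 : ℝ) * Complex.I))) = ω * (p.y : ℝ) := by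
        rw [ℓ_zero, show p.l = p.d + (p.pp J p.n + p.nn J p.n) + p.y by rw [h6]; rfl]
        push_cast
        rw [zero_mul, Complex.exp_zero]
        ring
      rw [this, norm_mul, hω, one_mul, Complex.norm_real, Real.norm_eq_abs, abs_of_pos p.y_pos]
    rw [hJ, hJ.nn]
    have : T + ω * (p.ℓ θ : ℝ) - (T + ω * (((p.d + p.tt : ℝ) : ℂ) + ((p.w - p.tt : ℝ) : ℂ) *
        Complex.exp (θ * Complex.I))) = ω * ⟨√(p.y ^ 2 - p.hh θ ^ 2), -p.hh θ⟩ := by
      rw [Complex.exp_mul_I]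
      unfold ℓ hh
      rw [show (⟨√(p.y ^ 2 - ((p.w - p.tt) * Real.sin θ) ^ 2), -((p.w - p.tt) * Real.sin θ)⟩ : ℂ) =
        ((√(p.y ^ 2 - ((p.w - p.tt) * Real.sin θ) ^ 2) : ℝ) : ℂ) -
          (((p.w - p.tt) * Real.sin θ : ℝ) : ℂ) * Complex.I from by
          apply Complex.ext <;>
            simp only [Complex.sub_re, Complex.sub_im, Complex.ofReal_re, Complex.ofReal_im,
              Complex.mul_re, Complex.mul_im, Complex.I_re, Complex.I_im] <;> ring]
      push_cast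
      ring
    rw [this, norm_mul, hω, one_mul, Complex.norm_def, Complex.normSq_mk]
    have h5 : 0 ≤ p.y ^ 2 - p.hh θ ^ 2 := by
      have := p.hh_sq_le θ
      rw [y_eq]
      nlinarith [p.w_pos]
    rw [Real.mul_self_sqrt h5]
    rw [show p.y ^ 2 - p.hh θ ^ 2 + -p.hh θ * -p.hh θ = p.y ^ 2 by ring, Real.sqrt_sq p.y_pos.le]
  rcases Nat.eq_or_lt_of_le h3 with h4 | h4
  · have h5 : i + 2 = p.n + 3 := by omega
    rw [h5, show p.n + 3 + 1 = p.n + 4 by ring, cfg_P, cfg_Q, dist_comm, Complex.dist_eq]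
    have hl : p.len (p.n + 3) = p.e := by
      unfold len
      rw [if_neg (by omega), if_neg (by omega), if_neg (by omega), if_neg (by omega), if_pos rfl]
    rw [hl]
    have : T + ω * ((p.ℓ θ : ℝ) + q) - (T + ω * (p.ℓ θ : ℝ)) = ω * q := by ring
    rw [this, norm_mul, hω, one_mul, hq]
  · have h5 : i + 2 = p.n + 4 := by omega
    rw [h5, show p.n + 4 + 1 = p.n + 5 by ring, cfg_Q, cfg_S, dist_comm, Complex.dist_eq]
    have hl : p.len (p.n + 4) = p.b := by
      unfold len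
      rw [if_neg (by omega), if_neg (by omega), if_neg (by omega), if_neg (by omega),
        if_neg (by omega)]
    rw [hl]
    have : T + ω * ((p.ℓ θ : ℝ) + s) - (T + ω * ((p.ℓ θ : ℝ) + q)) = ω * (s - q) := by ring
    rw [this, norm_mul, hω, one_mul, hs]

/-! ### Simplicity -/

theorem cfg_simple {T ω : ℂ} {θ : ℝ} {q s : ℂ} (hω : ‖ω‖ = 1)
    (hθ0 : 0 ≤ θ) (hθ1 : θ < Real.pi)
    (hQS : (q.im < 0 ∧ s.im < 0) ∨
      (q.im = 0 ∧ 0 < q.re ∧ (s.im < 0 ∨ (s.im = 0 ∧ q.re < s.re))))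
    (hEB : 0 < cr (-q) (s - q) ∨ (q.im = 0 ∧ s.im = 0))
    (hM : ω = -1 ∨ (0 < ω.im ∧ 0 < ω.im * (p.ℓ θ + q.re) + ω.re * q.im ∧
      0 < ω.im * (p.ℓ θ + s.re) + ω.re * s.im)) :
    Simple (p.n + 6) (p.cfg J T ω θ q s) := by
  have hω0 : ω ≠ 0 := by rintro rfl; simp at hω
  have hlpos : 0 < p.ℓ θ := by
    have := p.ℓ_gt θ
    linarith [p.d_pos, p.w_pos]
  set z : ℕ → ℂ := fun j => (p.cfg J T ω θ q s j - T) / ω with hz
  have z0 : z 0 = p.m / ω := by simp only [hz]; rw [cfg_0]; congr 1; ring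
  have z1 : z 1 = 0 := by simp only [hz]; rw [cfg_1]; simp
  have zJ : ∀ i ≤ p.n, z (i + 2) = (p.d + p.pp J i : ℝ) + (p.nn J i : ℝ) *
      Complex.exp (θ * Complex.I) := by
    intro i hi
    simp only [hz]; rw [cfg_J _ _ _ _ _ hi]; field_simp; ring
  have zP : z (p.n + 3) = (p.ℓ θ : ℝ) := by
    simp only [hz]; rw [cfg_P]; field_simp; ring
  have zQ : z (p.n + 4) = (p.ℓ θ : ℝ) + q := by
    simp only [hz]; rw [cfg_Q]; field_simp; ring
  have zS : z (p.n + 5) = (p.ℓ θ : ℝ) + s := by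
    simp only [hz]; rw [cfg_S]; field_simp; ring
  have zJre : ∀ i ≤ p.n, (z (i + 2)).re = p.d + p.pp J i + p.nn J i * Real.cos θ := by
    intro i hi
    rw [zJ i hi, Complex.exp_mul_I]
    simp [← Complex.ofReal_cos, ← Complex.ofReal_sin]
  have zJim : ∀ i ≤ p.n, (z (i + 2)).im = p.nn J i * Real.sin θ := by
    intro i hi
    rw [zJ i hi, Complex.exp_mul_I]
    simp [← Complex.ofReal_cos, ← Complex.ofReal_sin]
  have hsin : 0 ≤ Real.sin θ := Real.sin_nonneg_of_nonneg_of_le_pi hθ0 hθ1.le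
  -- half angle
  set c : ℝ := Real.tan (θ / 2) with hc
  have hc2 : Real.cos θ + c * Real.sin θ = 1 := by
    have h1 : Real.cos (θ / 2) ≠ 0 :=
      (Real.cos_pos_of_mem_Ioo ⟨by linarith, by linarith⟩).ne'
    have h2 : Real.cos θ = 2 * Real.cos (θ / 2) ^ 2 - 1 := by
      rw [← Real.cos_two_mul]; ring_nf
    have h3 : Real.sin θ = 2 * Real.sin (θ / 2) * Real.cos (θ / 2) := by
      rw [← Real.sin_two_mul]; ring_nf
    rw [hc, h2, h3, Real.tan_eq_sin_div_cos]
    field_simp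
    have := Real.sin_sq_add_cos_sq (θ / 2)
    linarith
  have hgJ : ∀ i ≤ p.n, (z (i + 2)).re + c * (z (i + 2)).im = p.d + p.A i := by
    intro i hi
    rw [zJre i hi, zJim i hi, ← p.pp_add_nn J]
    linear_combination (p.nn J i) * hc2
  have hinv : (ω⁻¹).im = -ω.im := by
    rw [Complex.inv_im, Complex.normSq_eq_norm_sq, hω]; simp
  have hinvre : (ω⁻¹).re = ω.re := by
    rw [Complex.inv_re, Complex.normSq_eq_norm_sq, hω]; simp
  have z0re : (z 0).re = p.m * ω.re := by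
    rw [z0, div_eq_mul_inv, Complex.mul_re, hinvre]; simp
  have z0im : (z 0).im = -(p.m * ω.im) := by
    rw [z0, div_eq_mul_inv, Complex.mul_im, hinv]; simp
  have good : Good p.n z := by
    refine ⟨z1, ?_, ?_, ⟨c, ?_⟩, ?_, ?_, ?_⟩
    · intro k h1 h2
      rcases Nat.lt_or_ge k 2 with h3 | h3
      · obtain rfl : k = 1 := by omega
        rw [z1]; simp
      obtain ⟨i, rfl⟩ : ∃ i, k = i + 2 := ⟨k - 2, by omega⟩
      rcases Nat.lt_or_ge p.n i with h4 | h4
      · obtain rfl : i = p.n + 1 := by omega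
        rw [show p.n + 1 + 2 = p.n + 3 by ring, zP]; simp
      · rw [zJim i h4]
        exact mul_nonneg (p.nn_nonneg J h4) hsin
    · rw [zP]; simp
    · intro k h1 h2
      rcases Nat.lt_or_ge k 2 with h3 | h3
      · obtain rfl : k = 1 := by omega
        rw [z1, show 1 + 1 = 0 + 2 by rfl, hgJ 0 (Nat.zero_le _)]
        simp only [Complex.zero_re, Complex.zero_im, mul_zero, add_zero, A, Finset.range_zero,
          Finset.sum_empty]
        exact p.d_pos
      obtain ⟨i, rfl⟩ : ∃ i, k = i + 2 := ⟨k - 2, by omega⟩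
      rcases Nat.lt_or_ge i p.n with h4 | h4
      · rw [hgJ i h4.le, show i + 2 + 1 = (i + 1) + 2 by ring, hgJ (i + 1) h4, A_succ]
        linarith [p.a_pos h4]
      · obtain rfl : i = p.n := by omega
        rw [hgJ _ le_rfl, show p.n + 2 + 1 = p.n + 3 by ring, zP, A_n]
        simpa using p.ℓ_gt θ
    · rw [zP, zQ, zS]
      simp only [Complex.add_im, Complex.ofReal_im, zero_add, Complex.add_re, Complex.ofReal_re,
        lt_add_iff_pos_right, add_lt_add_iff_left]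
      exact hQS
    · rw [zP, zQ, zS]
      rcases hEB with h | h
      · left
        have e1 : ((p.ℓ θ : ℝ) : ℂ) - (((p.ℓ θ : ℝ) : ℂ) + q) = -q := by ring
        have e2 : ((p.ℓ θ : ℝ) : ℂ) + s - (((p.ℓ θ : ℝ) : ℂ) + q) = s - q := by ring
        rw [e1, e2]
        exact h.ne'
      · right
        simpa using h
    · rcases hM with h | ⟨h1, h2, h3⟩
      · left
        rw [z0re, z0im, h]
        simp [p.m_pos]
      · right
        rw [zP, zQ, zS]
        unfold cr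
        rw [z0re, z0im]
        have hm := p.m_pos
        simp only [Complex.add_im, Complex.ofReal_im, zero_add, Complex.add_re, Complex.ofReal_re]
        refine ⟨?_, ?_, ?_, ?_⟩
        · nlinarith
        · have := mul_pos (mul_pos hm h1) hlpos
          linarith
        · have := mul_pos hm h2
          linarith
        · have := mul_pos hm h3
          linarith
  refine good.simple.map T ω hω0 fun j _ => ?_
  simp only [hz]
  field_simp
  ring

/-! ### Continuity -/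

theorem cfg_continuousOn {X : Type*} [TopologicalSpace X] {K : Set X} {T ω : X → ℂ} {θ : X → ℝ}
    {q s : X → ℂ} (hT : ContinuousOn T K) (hω : ContinuousOn ω K) (hθ : ContinuousOn θ K)
    (hq : ContinuousOn q K) (hs : ContinuousOn s K) :
    ContinuousOn (fun x => p.cfg J (T x) (ω x) (θ x) (q x) (s x)) K := by
  rw [continuousOn_pi]
  intro j
  have hℓ : ContinuousOn (fun x => ((p.ℓ (θ x) : ℝ) : ℂ)) K :=
    Complex.continuous_ofReal.comp_continuousOn (p.ℓ_continuous.comp_continuousOn hθ)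
  have hexp : ContinuousOn (fun x => Complex.exp (θ x * Complex.I)) K := by
    have : ContinuousOn (fun x => ((θ x : ℝ) : ℂ)) K := Complex.continuous_ofReal.comp_continuousOn hθ
    fun_prop
  unfold cfg
  split_ifs
  · exact hT.add continuousOn_const
  · exact hT
  · exact hT.add (hω.mul (continuousOn_const.add (continuousOn_const.mul hexp)))
  · exact hT.add (hω.mul hℓ)
  · exact hT.add (hω.mul (hℓ.add hq))
  · exact hT.add (hω.mul (hℓ.add hs))

end Par

end Pool.Agent.H263_NU
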