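import Pool.Agent.H263_NU.YTri
import Pool.Agent.H263_NU.Stmts

/-!
# Straightening the chain
-/

namespace Pool.Agent.H263_NU

open Finset

theorem joined_of {X : Type*} [TopologicalSpace X] {F : Set X} {f : ℝ → X} {a b : ℝ} (hab : a ≤ b)
    (hf : ContinuousOn f (Set.Icc a b)) (h : ∀ t ∈ Set.Icc a b, f t ∈ F) :
    JoinedIn F (f a) (f b) := by
  have h1 : IsPathConnected (f '' Set.Icc a b) :=
    ((convex_Icc a b).isPathConnected ⟨a, Set.left_mem_Icc.2 hab⟩).image' hf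
  have h2 := h1.joinedIn (f a) ⟨a, Set.left_mem_Icc.2 hab, rfl⟩ (f b) ⟨b, Set.right_mem_Icc.2 hab, rfl⟩
  refine h2.mono ?_
  rintro _ ⟨t, ht, rfl⟩
  exact h t ht

namespace Par

variable {p : Par} {J : Finset ℕ}

theorem norm_ω : ‖ω‖ = 1 := by
  unfold ω
  rw [Complex.norm_def, Complex.normSq_mk]
  norm_num

/-- the vector from `P` to `Q` in the first position, reversed -/
noncomputable def κ1 (p : Par) : ℂ := p.k1 + p.k2 * Complex.I
/-- the vector from `P` to `S` in the first position, reversed -/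
noncomputable def κ3 (p : Par) : ℂ := p.k3 + p.k4 * Complex.I

theorem κ1_re : (κ1 p).re = p.k1 := by simp [κ1]
theorem κ1_im : (κ1 p).im = p.k2 := by simp [κ1]
theorem κ3_re : (κ3 p).re = p.k3 := by simp [κ3]
theorem κ3_im : (κ3 p).im = p.k4 := by simp [κ3]

theorem norm_κ1 : ‖κ1 p‖ = p.e := by
  unfold κ1 e
  exact Complex.norm_add_mul_I _ _

theorem norm_κ13 : ‖κ1 p - κ3 p‖ = p.b := by
  unfold κ1 κ3 b
  rw [← Complex.norm_add_mul_I]
  push_cast
  congr 1
  ring

/-! ### Phase 1 -/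

theorem zJ_bounds0 {i : ℕ} (hi : i ≤ p.n) :
    4 * p.w ≤ (zJ p J 0 i).re ∧ (zJ p J 0 i).re ≤ 8 * p.w ∧ (zJ p J 0 i).im = 0 := by
  rw [zJ_re, zJ_im, Real.cos_zero, Real.sin_zero, mul_one, mul_zero]
  have h1 := p.pp_nonneg J hi
  have h2 := p.nn_nonneg J hi
  have h3 := p.pp_mono J hi
  have h4 := p.nn_mono J hi
  have h5 := p.pp_add_nn J p.n
  rw [A_n] at h5
  have h8 := p.d_eq
  have h9 := p.tt_pos
  have h10 := p.tt_lt'
  have h11 := p.ε_lt_w
  have h12 := p.ε_pos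
  refine ⟨?_, ?_, rfl⟩ <;> linarith

theorem phase1 {θ : ℝ} (hJ : p.Sol J ∨ θ = 0) (h0 : 0 ≤ θ) (h1 : θ < Real.pi) :
    p.cfg J p.T0 ω θ (-(κ1 p)) (-(κ3 p)) ∈ p.FS := by
  have hε := p.ε_pos
  have hw := p.w_pos
  have hεw := p.ε_lt_w
  have hℓ := p.ℓ_ge θ
  have hℓ' := p.ℓ_le θ
  have hl : p.l = 12 * p.w - 2 * p.tt - p.ε := p.l_eq
  have htt := p.tt_pos
  have hh := p.h_eq
  have hk1 : p.k1 = p.h - 2 * p.ε := rfl
  have hk2 : p.k2 = p.ε / 4 := rfl
  have hk3 : p.k3 = p.ε := rfl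
  have hk4 := p.k4_pos
  have hk4' := p.k4_le
  refine ⟨cfg_len hJ norm_ω (by rw [norm_neg, norm_κ1]) ?_, cfg_simple norm_ω h0 h1 ?_ ?_ ?_, ?_⟩
  · rw [← norm_κ13]; congr 1; ring
  · left
    rw [Complex.neg_im, Complex.neg_im, κ1_im, κ3_im]
    exact ⟨by linarith, by linarith⟩
  · left
    unfold cr
    simp only [Complex.sub_re, Complex.sub_im, Complex.neg_re, Complex.neg_im, κ1_re, κ1_im,
      κ3_re, κ3_im]
    have := p.k_cross
    nlinarith
  · right
    rw [Complex.neg_im, Complex.neg_im, κ1_im, κ3_im, Complex.neg_re, Complex.neg_re, κ1_re, κ3_re]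
    unfold ω
    refine ⟨by norm_num, ?_, ?_⟩ <;> simp only <;> linarith
  · have hT : p.T0 = ⟨p.x0, p.x0⟩ := rfl
    have hx : p.x0 = p.ε / 16 := rfl
    have hm : p.m = 100 * p.w := rfl
    refine cfg_tri ?_ ?_ ?_ ?_ ?_ ?_
    · apply tri_easy <;> rw [hT] <;> simp [hm, hx] <;> linarith
    · apply tri_easy <;> rw [hT] <;> simp [hx] <;> linarith
    · intro i hi
      rcases hJ with hJ | rfl
      · obtain ⟨a1, a2, a3, a4, a5⟩ := zJ_bounds hJ
          (Real.sin_nonneg_of_nonneg_of_le_pi h0 h1.le) hi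
        exact tri1 a1 (by linarith) (by linarith) a5
      · obtain ⟨a1, a2, a3⟩ := zJ_bounds0 (p := p) (J := J) hi
        exact tri1 a1 (by linarith) (by linarith) (by linarith)
    · apply tri1 <;> simp <;> linarith
    · apply tri1Q
      · simp [κ1_re]; linarith
      · simp [κ1_re]; linarith
      · simp [κ1_im]
    · apply tri1
      · simp [κ3_re]; linarith
      · simp [κ3_re]; linarith
      · simp [κ3_im]; linarith
      · simp [κ3_im]; linarith

theorem A0_mem (p : Par) : p.A0 ∈ p.FS := by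
  have h := phase1 (p := p) (J := ∅) (θ := 0) (Or.inr rfl) le_rfl Real.pi_pos
  rwa [κ1, κ3, ← A0_eq] at h

/-! ### Phase 2 -/

/-- `θ` is so close to `π` that the items are almost folded -/
def Near (p : Par) (θ : ℝ) : Prop :=
  0 ≤ θ ∧ θ < Real.pi ∧ (p.w - p.tt) * Real.sin θ ≤ p.x0 / 4 ∧
    (p.w - p.tt) * (1 + Real.cos θ) ≤ p.ε / 16

theorem exists_near (p : Par) : ∃ θ, Near p θ := by
  have h1 : ∀ᶠ θ in nhds Real.pi, (p.w - p.tt) * Real.sin θ < p.x0 / 4 := by
    have : Filter.Tendsto (fun θ => (p.w - p.tt) * Real.sin θ) (nhds Real.pi)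
        (nhds ((p.w - p.tt) * Real.sin Real.pi)) :=
      (Continuous.tendsto (by fun_prop) _)
    rw [Real.sin_pi, mul_zero] at this
    exact this.eventually_lt_const (by linarith [p.x0_pos])
  have h2 : ∀ᶠ θ in nhds Real.pi, (p.w - p.tt) * (1 + Real.cos θ) < p.ε / 16 := by
    have : Filter.Tendsto (fun θ => (p.w - p.tt) * (1 + Real.cos θ)) (nhds Real.pi)
        (nhds ((p.w - p.tt) * (1 + Real.cos Real.pi))) :=
      (Continuous.tendsto (by fun_prop) _)
    rw [Real.cos_pi, add_neg_cancel, mul_zero] at this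
    exact this.eventually_lt_const (by linarith [p.ε_pos])
  have h3 := ((h1.and h2).filter_mono (nhdsWithin_le_nhds (s := Set.Iio Real.pi))).and
    (Ioo_mem_nhdsLT Real.pi_pos)
  obtain ⟨θ, ⟨a, b⟩, c⟩ := h3.exists
  exact ⟨θ, c.1.le, c.2, a.le, b.le⟩

/-- horizontal position in phase 2 -/
noncomputable def T2 (p : Par) (β : ℝ) : ℂ :=
  ⟨p.x0 + (p.h + 2 * p.ε) * max 0 (-Real.cos β), p.x0⟩

theorem Near.ℓ_le {θ : ℝ} (h : Near p θ) : p.ℓ θ ≤ p.h - 15 / 16 * p.ε := by
  have := p.ℓ_le' θ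
  have := h.2.2.2
  linarith

theorem phase2 (hJ : p.Sol J) {θ : ℝ} (hθ : Near p θ) {β : ℝ} (hβ : β ≤ Real.pi)
    (hc : Real.cos β ≤ 4 / 5) (hs : 0 ≤ Real.sin β) (hs' : 0 ≤ Real.cos β → 3 / 5 ≤ Real.sin β)
    (hβ' : 0 ≤ β) :
    p.cfg J (T2 p β) ⟨Real.cos β, Real.sin β⟩ θ (-(κ1 p)) (-(κ3 p)) ∈ p.FS := by
  have hε := p.ε_pos
  have hw := p.w_pos
  have hεw := p.ε_lt_w
  have hℓ := p.ℓ_ge θ
  have hℓ' := hθ.ℓ_le
  have hh := p.h_eq
  have hk1 : p.k1 = p.h - 2 * p.ε := rfl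
  have hk2 : p.k2 = p.ε / 4 := rfl
  have hk3 : p.k3 = p.ε := rfl
  have hk4 := p.k4_pos
  have hk4' := p.k4_le
  have hcs : Real.cos β ^ 2 + Real.sin β ^ 2 = 1 := Real.cos_sq_add_sin_sq β
  have hnorm : ‖(⟨Real.cos β, Real.sin β⟩ : ℂ)‖ = 1 := by
    rw [Complex.norm_def, Complex.normSq_mk]
    rw [show Real.cos β * Real.cos β + Real.sin β * Real.sin β = 1 by nlinarith]
    exact Real.sqrt_one
  refine ⟨cfg_len (Or.inl hJ) hnorm (by rw [norm_neg, norm_κ1]) ?_,
    cfg_simple hnorm hθ.1 hθ.2.1 ?_ ?_ ?_, ?_⟩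
  · rw [← norm_κ13]; congr 1; ring
  · left
    rw [Complex.neg_im, Complex.neg_im, κ1_im, κ3_im]
    exact ⟨by linarith, by linarith⟩
  · left
    unfold cr
    simp only [Complex.sub_re, Complex.sub_im, Complex.neg_re, Complex.neg_im, κ1_re, κ1_im,
      κ3_re, κ3_im]
    have := p.k_cross
    nlinarith
  · rcases eq_or_lt_of_le hs with h | h
    · left
      have hc2 : Real.cos β ^ 2 = 1 := by rw [← h] at hcs; linarith
      have : Real.cos β = -1 := by
        have h3 : (Real.cos β - 1) * (Real.cos β + 1) = 0 := by linear_combination hc2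
        rcases mul_eq_zero.1 h3 with h | h <;> linarith
      rw [this, ← h]
      apply Complex.ext <;> simp
    · right
      rw [Complex.neg_im, Complex.neg_im, κ1_im, κ3_im, Complex.neg_re, Complex.neg_re, κ1_re,
        κ3_re]
      simp only
      have a1 : p.ε ≤ p.ℓ θ + -p.k1 := by linarith
      have a2 : p.ε ≤ p.ℓ θ + -p.k3 := by linarith
      rcases le_or_gt 0 (Real.cos β) with hc0 | hc0
      · have := hs' hc0
        refine ⟨h, ?_, ?_⟩ <;> nlinarith
      · have b1 : 0 ≤ Real.cos β * -p.k2 := mul_nonneg_of_nonpos_of_nonpos hc0.le (by linarith)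
        have b2 : 0 ≤ Real.cos β * -p.k4 := mul_nonneg_of_nonpos_of_nonpos hc0.le (by linarith)
        have b3 := mul_pos h (hε.trans_le a1)
        have b4 := mul_pos h (hε.trans_le a2)
        exact ⟨h, by linarith, by linarith⟩
  · have hx : p.x0 = p.ε / 16 := rfl
    have hm : p.m = 100 * p.w := rfl
    have h2 : ∀ z : ℂ, 0 ≤ z.re → z.re ≤ p.h - 9 / 10 * p.ε → z.im ≤ p.x0 / 4 →
        -(p.ε / 4) ≤ z.im → -(4 * z.im) ≤ 3 * z.re → z.re - z.im ≤ p.h - 6 / 10 * p.ε →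
        T2 p β + ⟨Real.cos β, Real.sin β⟩ * z ∈ Tri p.h p.η :=
      fun z a1 a2 a3 a4 a5 a6 => tri2 hcs hs hc hs' a1 a2 a3 a4 a5 a6
    have hmax0 := le_max_left 0 (-Real.cos β)
    have hmax1 : max 0 (-Real.cos β) ≤ 1 := max_le (by norm_num) (by linarith [Real.neg_one_le_cos β])
    refine cfg_tri ?_ ?_ ?_ ?_ ?_ ?_
    · have b1 : 0 ≤ (p.h + 2 * p.ε) * max 0 (-Real.cos β) := mul_nonneg (by linarith) hmax0
      have b2 : (p.h + 2 * p.ε) * max 0 (-Real.cos β) ≤ (p.h + 2 * p.ε) * 1 :=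
        mul_le_mul_of_nonneg_left hmax1 (by linarith)
      apply tri_easy <;> unfold T2 <;> simp [hm, hx] <;> linarith
    · have := h2 0
      simp only [mul_zero, add_zero] at this
      apply this <;> simp <;> linarith
    · intro i hi
      obtain ⟨a1, a2, a3, a4, a5⟩ := zJ_bounds hJ
        (Real.sin_nonneg_of_nonneg_of_le_pi hθ.1 hθ.2.1.le) hi
      have a6 := a4.trans hθ.2.2.1
      exact h2 _ (by linarith) (by linarith) a6 (by linarith) (by linarith) (by linarith)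
    · apply h2 <;> simp <;> linarith
    · apply h2 <;> simp [κ1_re, κ1_im] <;> linarith
    · apply h2 <;> simp [κ3_re, κ3_im] <;> linarith

/-! ### The other phases: `ω = -1` -/

/-- position of `T` after phase 2 -/
noncomputable def X3 (p : Par) : ℝ := p.x0 + (p.h + 2 * p.ε)

/-- common part of the remaining phases -/
theorem phaseM (hJ : p.Sol J) {θ : ℝ} (h0 : 0 ≤ θ) (h1 : θ < Real.pi) {X Y : ℝ} {q s : ℂ}
    (hq : ‖q‖ = p.e) (hs : ‖s - q‖ = p.b)
    (hQS : (q.im < 0 ∧ s.im < 0) ∨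
      (q.im = 0 ∧ 0 < q.re ∧ (s.im < 0 ∨ (s.im = 0 ∧ q.re < s.re))))
    (hEB : 0 < cr (-q) (s - q) ∨ (q.im = 0 ∧ s.im = 0))
    (hX : 8 * p.w < X) (hX' : X ≤ 100 * p.w) (hY : 0 < Y) (hY' : Y ≤ 9 * p.w)
    (hYJ : ∀ i ≤ p.n, (zJ p J θ i).im < Y)
    (hP : p.ℓ θ < X)
    (hQ : (⟨X, Y⟩ + (-1) * ((p.ℓ θ : ℝ) + q) : ℂ) ∈ Tri p.h p.η)
    (hS : (⟨X, Y⟩ + (-1) * ((p.ℓ θ : ℝ) + s) : ℂ) ∈ Tri p.h p.η) :
    p.cfg J ⟨X, Y⟩ (-1) θ q s ∈ p.FS := by
  have hw := p.w_pos
  have hm : p.m = 100 * p.w := rfl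
  have hℓ := p.ℓ_ge θ
  have hεw := p.ε_lt_w
  have hh := p.h_eq
  refine ⟨cfg_len (Or.inl hJ) (by simp) hq hs, cfg_simple (by simp) h0 h1 hQS hEB (Or.inl rfl), ?_⟩
  refine cfg_tri ?_ ?_ ?_ ?_ hQ hS
  · apply tri_easy <;> simp [hm] <;> linarith
  · apply tri_easy <;> simp <;> linarith
  · intro i hi
    obtain ⟨a1, a2, a3, a4, a5⟩ := zJ_bounds hJ
      (Real.sin_nonneg_of_nonneg_of_le_pi h0 h1.le) hi
    have := hYJ i hi
    apply tri3 <;> linarith
  · apply tri3 <;> simp <;> linarith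

theorem Near.zJ_lt (hJ : p.Sol J) {θ : ℝ} (hθ : Near p θ) {i : ℕ} (hi : i ≤ p.n) :
    (zJ p J θ i).im < p.x0 := by
  obtain ⟨a1, a2, a3, a4, a5⟩ := zJ_bounds hJ
    (Real.sin_nonneg_of_nonneg_of_le_pi hθ.1 hθ.2.1.le) hi
  have := a4.trans hθ.2.2.1
  linarith [p.x0_pos]

/-- phase 3: `E` and `B` turn about `P` -/
theorem phase3 (hJ : p.Sol J) {θ : ℝ} (hθ : Near p θ) {φ : ℝ} (h0 : 0 ≤ φ)
    (h1 : φ ≤ Real.pi - Complex.arg (κ1 p)) :
    p.cfg J ⟨X3 p + max 0 (-(p.e * Real.cos (φ + Complex.arg (κ1 p)))), p.x0⟩ (-1) θ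
      (-(Complex.exp (φ * Complex.I) * κ1 p)) (-(Complex.exp (φ * Complex.I) * κ3 p)) ∈ p.FS := by
  have hε := p.ε_pos
  have hw := p.w_pos
  have hεw := p.ε_lt_w
  have hℓ := p.ℓ_ge θ
  have hℓ' := hθ.ℓ_le
  have hh := p.h_eq
  have hk1 : p.k1 = p.h - 2 * p.ε := rfl
  have hk2 : p.k2 = p.ε / 4 := rfl
  have hk3 : p.k3 = p.ε := rfl
  have hk1p := p.k1_pos
  have hk2p := p.k2_pos
  have hk4 := p.k4_pos
  have hk4' := p.k4_le
  have hx : p.x0 = p.ε / 16 := rfl
  have hX3 : X3 p = p.x0 + (p.h + 2 * p.ε) := rfl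
  have he := p.e_pos
  have hele := p.e_le
  set α := Complex.arg (κ1 p) with hα
  have hα0 : 0 ≤ α := by
    rw [hα, Complex.arg_nonneg_iff, κ1_im]; exact hk2p.le
  have hpol : κ1 p = (p.e : ℂ) * Complex.exp (α * Complex.I) := by
    rw [← norm_κ1, hα]; exact (Complex.norm_mul_exp_arg_mul_I _).symm
  have hE : Complex.exp (φ * Complex.I) * κ1 p = (p.e : ℂ) * Complex.exp ((φ + α : ℝ) * Complex.I) := by
    rw [hpol]
    push_cast
    rw [add_mul, Complex.exp_add]
    ring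
  have hsα : 0 ≤ Real.sin (φ + α) := Real.sin_nonneg_of_nonneg_of_le_pi (by linarith) (by linarith)
  have hs0 : 0 ≤ Real.sin φ := Real.sin_nonneg_of_nonneg_of_le_pi h0 (by linarith)
  have hEre : (Complex.exp (φ * Complex.I) * κ1 p).re = p.e * Real.cos (φ + α) := by
    rw [hE, Complex.exp_mul_I]; simp [← Complex.ofReal_add, ← Complex.ofReal_cos, ← Complex.ofReal_sin]
  have hEim : (Complex.exp (φ * Complex.I) * κ1 p).im = p.e * Real.sin (φ + α) := by
    rw [hE, Complex.exp_mul_I]; simp [← Complex.ofReal_add, ← Complex.ofReal_cos, ← Complex.ofReal_sin]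
  have hEim' : (Complex.exp (φ * Complex.I) * κ1 p).im = p.k1 * Real.sin φ + p.k2 * Real.cos φ := by
    rw [Complex.exp_mul_I]
    simp [κ1_re, κ1_im, ← Complex.ofReal_cos, ← Complex.ofReal_sin]
    ring
  have hSim : (Complex.exp (φ * Complex.I) * κ3 p).im = p.k3 * Real.sin φ + p.k4 * Real.cos φ := by
    rw [Complex.exp_mul_I]
    simp [κ3_re, κ3_im, ← Complex.ofReal_cos, ← Complex.ofReal_sin]
    ring
  have hSre : (Complex.exp (φ * Complex.I) * κ3 p).re = p.k3 * Real.cos φ - p.k4 * Real.sin φ := by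
    rw [Complex.exp_mul_I]
    simp [κ3_re, κ3_im, ← Complex.ofReal_cos, ← Complex.ofReal_sin]
    ring
  have hsq : Real.cos φ ^ 2 + Real.sin φ ^ 2 = 1 := Real.cos_sq_add_sin_sq φ
  have hSpos : 0 < p.k3 * Real.sin φ + p.k4 * Real.cos φ := by
    rcases lt_trichotomy (Real.cos φ) 0 with hc | hc | hc
    · have h2 : 0 ≤ p.k1 * Real.sin φ + p.k2 * Real.cos φ := by
        rw [← hEim', hEim]; exact mul_nonneg he.le hsα
      have h3 : p.k1 * (p.k3 * Real.sin φ + p.k4 * Real.cos φ) =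
          p.k3 * (p.k1 * Real.sin φ + p.k2 * Real.cos φ) +
            (-Real.cos φ) * (p.k2 * p.k3 - p.k1 * p.k4) := by ring
      have h4 : 0 < (-Real.cos φ) * (p.k2 * p.k3 - p.k1 * p.k4) :=
        mul_pos (by linarith) (by linarith [p.k_cross])
      have h5 : 0 ≤ p.k3 * (p.k1 * Real.sin φ + p.k2 * Real.cos φ) := mul_nonneg p.k3_pos.le h2
      have h6 : 0 < p.k1 * (p.k3 * Real.sin φ + p.k4 * Real.cos φ) := by rw [h3]; linarith
      exact (mul_pos_iff_of_pos_left hk1p).1 h6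
    · have : Real.sin φ = 1 := by
        have : (Real.sin φ - 1) * (Real.sin φ + 1) = 0 := by
          rw [hc] at hsq; linear_combination hsq
        rcases mul_eq_zero.1 this with h | h <;> linarith
      rw [hc, this]; simp only [mul_one, mul_zero, add_zero]; exact p.k3_pos
    · have := mul_pos hk4 hc
      have := mul_nonneg p.k3_pos.le hs0
      linarith
  have hmax : max 0 (-(p.e * Real.cos (φ + α))) ≤ p.e := by
    apply max_le he.le
    nlinarith [Real.neg_one_le_cos (φ + α)]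
  have hmax0 := le_max_left 0 (-(p.e * Real.cos (φ + α)))
  refine phaseM hJ hθ.1 hθ.2.1 ?_ ?_ ?_ ?_ ?_ ?_ ?_ ?_ ?_ ?_ ?_ ?_
  · rw [norm_neg, norm_mul, Complex.norm_exp_ofReal_mul_I, one_mul, norm_κ1]
  · rw [← norm_κ13, show -(Complex.exp (φ * Complex.I) * κ3 p) - -(Complex.exp (φ * Complex.I) * κ1 p) =
      Complex.exp (φ * Complex.I) * (κ1 p - κ3 p) by ring, norm_mul,
      Complex.norm_exp_ofReal_mul_I, one_mul]
  · rw [Complex.neg_im, Complex.neg_im, hSim, hEim]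
    rcases eq_or_lt_of_le h1 with h | h
    · right
      have e1 : φ + α = Real.pi := by linarith
      refine ⟨by rw [e1]; simp, ?_, Or.inl (by linarith)⟩
      rw [Complex.neg_re, hEre, e1]
      simp [he]
    · left
      have : 0 < Real.sin (φ + α) := by
        rcases eq_or_lt_of_le (show 0 ≤ φ + α by linarith) with h2 | h2
        · exfalso
          have a0 : α = 0 := by linarith
          rw [hα, Complex.arg_eq_zero_iff, κ1_im] at a0
          exact hk2p.ne' a0.2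
        · exact Real.sin_pos_of_pos_of_lt_pi h2 (by linarith)
      exact ⟨by have := mul_pos he this; linarith, by linarith⟩
  · left
    have e1 : cr (- -(Complex.exp (φ * Complex.I) * κ1 p))
        (-(Complex.exp (φ * Complex.I) * κ3 p) - -(Complex.exp (φ * Complex.I) * κ1 p)) =
        (Real.cos φ ^ 2 + Real.sin φ ^ 2) * (p.k2 * p.k3 - p.k1 * p.k4) := by
      unfold cr
      rw [Complex.exp_mul_I]
      simp [κ1_re, κ1_im, κ3_re, κ3_im, ← Complex.ofReal_cos, ← Complex.ofReal_sin]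
      linear_combination (p.k2 * p.k3 - p.k1 * p.k4) * hsq
    rw [e1, hsq, one_mul]
    linarith [p.k_cross]
  · rw [hX3, hx]; linarith
  · rw [hX3, hx]; linarith
  · rw [hx]; linarith
  · rw [hx]; linarith
  · intro i hi
    exact hθ.zJ_lt hJ hi
  · rw [hX3, hx]; linarith
  · apply tri_rot (ρ := p.e) (X := X3 p - p.ℓ θ) (c := Real.cos (φ + α)) (s := Real.sin (φ + α)) hele
      he.le (Real.cos_sq_add_sin_sq _) hsα
    · rw [hX3, hx]; linarith
    · rw [hX3, hx]; linarith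
    · simp only [Complex.add_re, Complex.neg_re, Complex.mul_re, Complex.one_re, Complex.neg_im,
        Complex.one_im, Complex.ofReal_re, neg_zero, zero_mul, sub_zero, neg_mul, one_mul, hEre]
      rcases le_total 0 (p.e * Real.cos (φ + α)) with h | h
      · rw [max_eq_left (by linarith), max_eq_right h]; ring
      · rw [max_eq_right (by linarith), max_eq_left h]; ring
    · have e1 := hEim
      simp only [Complex.add_im, Complex.neg_im, Complex.mul_im, Complex.neg_re, Complex.one_re,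
        Complex.one_im, Complex.ofReal_im, zero_add, neg_zero, zero_mul, add_zero] at e1 ⊢
      rw [e1]; ring
  · have a1 : |Real.cos φ| ≤ 1 := Real.abs_cos_le_one φ
    have a2 := abs_le.1 a1
    have a3 := Real.sin_le_one φ
    have e1 := hSre
    have e2 := hSim
    simp only [Complex.mul_re] at e1
    simp only [Complex.mul_im] at e2
    apply tri_easy
    · simp only [Complex.add_re, Complex.neg_re, Complex.mul_re, Complex.one_re, Complex.neg_im,
        Complex.one_im, Complex.ofReal_re, neg_zero, zero_mul, sub_zero, neg_mul, one_mul]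
      rw [e1, hX3, hx]
      nlinarith
    · simp only [Complex.add_re, Complex.neg_re, Complex.mul_re, Complex.one_re, Complex.neg_im,
        Complex.one_im, Complex.ofReal_re, neg_zero, zero_mul, sub_zero, neg_mul, one_mul]
      rw [e1, hX3, hx]
      nlinarith
    · simp only [Complex.add_im, Complex.neg_im, Complex.mul_im, Complex.neg_re, Complex.one_re,
        Complex.one_im, Complex.ofReal_im, zero_add, neg_zero, zero_mul, add_zero]
      rw [e2, hx]
      linarith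
    · simp only [Complex.add_im, Complex.neg_im, Complex.mul_im, Complex.neg_re, Complex.one_re,
        Complex.one_im, Complex.ofReal_im, zero_add, neg_zero, zero_mul, add_zero]
      rw [e2, hx]
      nlinarith

end Par

end Pool.Agent.H263_NU
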