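import Pool.Agent.H263_NU.YPath

/-!
# Straightening the chain, second part
-/

namespace Pool.Agent.H263_NU

open Finset

namespace Par

variable {p : Par} {J : Finset ℕ}

/-- the vector from `S` to `Q` at the end of phase 3 -/
noncomputable def κv (p : Par) : ℂ :=
  Complex.exp ((-Complex.arg (κ1 p) : ℝ) * Complex.I) * (κ1 p - κ3 p)

/-- the angle between `B` and `E` -/
noncomputable def γ (p : Par) : ℝ := Complex.arg (κv p)

theorem κ1_polar : κ1 p = (p.e : ℂ) * Complex.exp (Complex.arg (κ1 p) * Complex.I) := by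
  rw [← norm_κ1]; exact (Complex.norm_mul_exp_arg_mul_I _).symm

theorem κ1_rot : Complex.exp ((-Complex.arg (κ1 p) : ℝ) * Complex.I) * κ1 p = p.e := by
  nth_rewrite 2 [κ1_polar]
  rw [mul_left_comm, ← Complex.exp_add]
  push_cast
  rw [show -(Complex.arg (κ1 p) : ℂ) * Complex.I + (Complex.arg (κ1 p)) * Complex.I = 0 by ring,
    Complex.exp_zero, mul_one]

theorem norm_κv : ‖κv p‖ = p.b := by
  unfold κv
  rw [norm_mul, Complex.norm_exp_ofReal_mul_I, one_mul, norm_κ13]

theorem κv_polar : κv p = (p.b : ℂ) * Complex.exp (γ p * Complex.I) := by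
  rw [← norm_κv]; exact (Complex.norm_mul_exp_arg_mul_I _).symm

theorem e_mul_κv : (p.e : ℂ) * κv p = (starRingEnd ℂ) (κ1 p) * (κ1 p - κ3 p) := by
  have h1 : (starRingEnd ℂ) (κ1 p) = (p.e : ℂ) *
      Complex.exp ((-Complex.arg (κ1 p) : ℝ) * Complex.I) := by
    nth_rewrite 1 [κ1_polar]
    rw [map_mul, Complex.conj_ofReal, ← Complex.exp_conj, map_mul, Complex.conj_ofReal,
      Complex.conj_I]
    push_cast
    ring_nf
  rw [h1]; unfold κv; ring

theorem κv_re : 0 < (κv p).re := by
  have h := congrArg Complex.re (e_mul_κv (p := p))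
  rw [Complex.re_ofReal_mul, Complex.mul_re, Complex.conj_re, Complex.conj_im, Complex.sub_re,
    Complex.sub_im, κ1_re, κ1_im, κ3_re, κ3_im] at h
  have hε := p.ε_pos
  have hw := p.w_pos
  have hεw := p.ε_lt_w
  have hk1 : p.k1 = p.h - 2 * p.ε := rfl
  have hk2 : p.k2 = p.ε / 4 := rfl
  have hk3 : p.k3 = p.ε := rfl
  have hk4 := p.k4_pos
  have hk4' := p.k4_le
  have hh := p.h_eq
  have h1 : 0 < p.k1 * (p.k1 - p.k3) := mul_pos p.k1_pos (by linarith)
  have h2 : 0 < p.k2 * (p.k2 - p.k4) := mul_pos p.k2_pos (by linarith)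
  have h3 : 0 < p.e * (κv p).re := by rw [h]; linarith
  exact (mul_pos_iff_of_pos_left p.e_pos).1 h3

theorem κv_im : 0 < (κv p).im := by
  have h := congrArg Complex.im (e_mul_κv (p := p))
  rw [Complex.im_ofReal_mul, Complex.mul_im, Complex.conj_re, Complex.conj_im, Complex.sub_re,
    Complex.sub_im, κ1_re, κ1_im, κ3_re, κ3_im] at h
  have h3 : 0 < p.e * (κv p).im := by
    rw [h]; linarith [p.k_cross]
  exact (mul_pos_iff_of_pos_left p.e_pos).1 h3

theorem γ_pos : 0 < γ p := by
  rcases eq_or_lt_of_le (Complex.arg_nonneg_iff.2 (κv_im (p := p)).le) with h | h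
  · exfalso
    have := Complex.arg_eq_zero_iff.1 h.symm
    exact κv_im.ne' this.2
  · exact h

theorem γ_lt : γ p < Real.pi / 2 :=
  Complex.arg_lt_pi_div_two_iff.2 (Or.inl κv_re)

theorem cos_γ : 0 < Real.cos (γ p) :=
  Real.cos_pos_of_mem_Ioo ⟨by linarith [γ_pos (p := p), Real.pi_pos], γ_lt⟩

/-- phase 4: `B` turns about `Q` -/
theorem phase4 (hJ : p.Sol J) {θ : ℝ} (hθ : Near p θ) {ψ : ℝ} (h0 : γ p ≤ ψ)
    (h1 : ψ ≤ Real.pi) :
    p.cfg J ⟨X3 p + p.e + max 0 (-(p.b * Real.cos ψ)), p.x0⟩ (-1) θ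
      p.e (p.e - p.b * Complex.exp (ψ * Complex.I)) ∈ p.FS := by
  have hε := p.ε_pos
  have hw := p.w_pos
  have hεw := p.ε_lt_w
  have hℓ := p.ℓ_ge θ
  have hℓ' := hθ.ℓ_le
  have hh := p.h_eq
  have hx : p.x0 = p.ε / 16 := rfl
  have hX3 : X3 p = p.x0 + (p.h + 2 * p.ε) := rfl
  have he := p.e_pos
  have hb := p.b_pos
  have hele := p.e_le
  have hble := p.b_le
  have hγ := γ_pos (p := p)
  have hexre : (Complex.exp (ψ * Complex.I)).re = Real.cos ψ := by
    rw [Complex.exp_mul_I]; simp [← Complex.ofReal_cos, ← Complex.ofReal_sin]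
  have hexim : (Complex.exp (ψ * Complex.I)).im = Real.sin ψ := by
    rw [Complex.exp_mul_I]; simp [← Complex.ofReal_cos, ← Complex.ofReal_sin]
  have hsre : ((p.e : ℂ) - p.b * Complex.exp (ψ * Complex.I)).re = p.e - p.b * Real.cos ψ := by
    rw [Complex.sub_re, Complex.re_ofReal_mul, hexre, Complex.ofReal_re]
  have hsim : ((p.e : ℂ) - p.b * Complex.exp (ψ * Complex.I)).im = - (p.b * Real.sin ψ) := by
    rw [Complex.sub_im, Complex.im_ofReal_mul, hexim, Complex.ofReal_im, zero_sub]
  have hsin : 0 ≤ Real.sin ψ := Real.sin_nonneg_of_nonneg_of_le_pi (by linarith) h1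
  have hsin' : ψ = Real.pi ∨ 0 < Real.sin ψ := by
    rcases eq_or_lt_of_le h1 with h | h
    · exact Or.inl h
    · exact Or.inr (Real.sin_pos_of_pos_of_lt_pi (by linarith) h)
  have hmax : max 0 (-(p.b * Real.cos ψ)) ≤ p.b := by
    apply max_le hb.le
    nlinarith [Real.neg_one_le_cos ψ]
  have hmax0 := le_max_left 0 (-(p.b * Real.cos ψ))
  refine phaseM hJ hθ.1 hθ.2.1 ?_ ?_ ?_ ?_ ?_ ?_ ?_ ?_ ?_ ?_ ?_ ?_
  · rw [Complex.norm_real, Real.norm_eq_abs, abs_of_pos he]
  · rw [show (p.e : ℂ) - p.b * Complex.exp (ψ * Complex.I) - p.e =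
      -((p.b : ℂ) * Complex.exp (ψ * Complex.I)) by ring, norm_neg, norm_mul,
      Complex.norm_exp_ofReal_mul_I, mul_one, Complex.norm_real, Real.norm_eq_abs, abs_of_pos hb]
  · right
    rw [hsim, hsre]
    refine ⟨by simp, by simpa using he, ?_⟩
    rcases hsin' with h | h
    · right
      rw [h]
      simp [hb]
    · left
      have := mul_pos hb h
      linarith
  · rcases hsin' with h | h
    · right
      rw [hsim, h]
      simp
    · left
      unfold cr
      rw [Complex.sub_re, Complex.sub_im, hsre, hsim]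
      simp only [Complex.neg_re, Complex.neg_im, Complex.ofReal_re, Complex.ofReal_im]
      have := mul_pos he (mul_pos hb h)
      linarith
  · rw [hX3, hx]; linarith
  · rw [hX3, hx]; linarith
  · rw [hx]; linarith
  · rw [hx]; linarith
  · intro i hi
    exact hθ.zJ_lt hJ hi
  · rw [hX3, hx]; linarith
  · apply tri_easy
    · simp; rw [hX3, hx]; linarith
    · simp; rw [hX3, hx]; linarith
    · simp; rw [hx]; linarith
    · simp; rw [hx]; linarith
  · apply tri_rot (ρ := p.b) (X := X3 p - p.ℓ θ) (c := Real.cos ψ) (s := Real.sin ψ) (by linarith)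
      hb.le (Real.cos_sq_add_sin_sq _) hsin
    · rw [hX3, hx]; linarith
    · rw [hX3, hx]; linarith
    · have e1 := hsre
      simp only [Complex.add_re, Complex.neg_re, Complex.mul_re, Complex.one_re, Complex.neg_im,
        Complex.one_im, Complex.ofReal_re, neg_zero, zero_mul, sub_zero, neg_mul, one_mul] at e1 ⊢
      rw [e1]
      rcases le_total 0 (p.b * Real.cos ψ) with h | h
      · rw [max_eq_left (by linarith), max_eq_right h]; ring
      · rw [max_eq_right (by linarith), max_eq_left h]; ring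
    · have e1 := hsim
      simp only [Complex.add_im, Complex.neg_im, Complex.mul_im, Complex.neg_re, Complex.one_re,
        Complex.one_im, Complex.ofReal_im, zero_add, neg_zero, zero_mul, add_zero] at e1 ⊢
      rw [e1]; ring

/-- phases 5 and 6: translation and unfolding -/
theorem phase5 (hJ : p.Sol J) {θ : ℝ} (h0 : 0 ≤ θ) (h1 : θ < Real.pi) {X Y : ℝ}
    (hX : p.ℓ θ + p.e + p.b < X) (hX' : X ≤ 40 * p.w) (hY : 0 < Y) (hY' : Y ≤ 2 * p.w)
    (hYJ : ∀ i ≤ p.n, (zJ p J θ i).im < Y) :
    p.cfg J ⟨X, Y⟩ (-1) θ p.e (p.e + p.b) ∈ p.FS := by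
  have hε := p.ε_pos
  have hw := p.w_pos
  have hεw := p.ε_lt_w
  have hℓ := p.ℓ_ge θ
  have hh := p.h_eq
  have he := p.e_pos
  have hb := p.b_pos
  refine phaseM hJ h0 h1 ?_ ?_ ?_ ?_ ?_ ?_ hY ?_ hYJ ?_ ?_ ?_
  · rw [Complex.norm_real, Real.norm_eq_abs, abs_of_pos he]
  · rw [add_sub_cancel_left, Complex.norm_real, Real.norm_eq_abs, abs_of_pos hb]
  · right
    refine ⟨by simp, by simpa using he, Or.inr ⟨by simp, by simpa using hb⟩⟩
  · right
    simp
  · linarith
  · linarith
  · linarith
  · linarith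
  · apply tri_easy <;> simp <;> linarith
  · apply tri_easy <;> simp <;> linarith

/-- the final position -/
noncomputable def fin (p : Par) (J : Finset ℕ) : ℕ → ℂ :=
  p.cfg J ⟨40 * p.w, 2 * p.w⟩ (-1) 0 p.e (p.e + p.b)

/-- distance of the vertices from the vertex `T` in the final position -/
noncomputable def fr (p : Par) (j : ℕ) : ℝ :=
  if j = 0 then -p.m else if j = 1 then 0 else if j ≤ p.n + 2 then p.d + p.A (j - 2)
  else if j = p.n + 3 then p.l else if j = p.n + 4 then p.l + p.e else p.l + p.e + p.b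

theorem fin_eq (j : ℕ) : fin p J j = ⟨40 * p.w, 2 * p.w⟩ - (fr p j : ℝ) := by
  unfold fin cfg fr
  split_ifs
  · push_cast; ring
  · simp
  · rw [← p.pp_add_nn J]
    push_cast
    rw [zero_mul, Complex.exp_zero]
    ring
  · rw [ℓ_zero]; ring
  · rw [ℓ_zero]; push_cast; ring
  · rw [ℓ_zero]; push_cast; ring

theorem fr_lt {j : ℕ} (hj : j < p.n + 5) : fr p j < fr p (j + 1) := by
  have hw := p.w_pos
  rcases Nat.eq_zero_or_pos j with rfl | h0
  · unfold fr
    simp [p.m_pos]
  rcases Nat.lt_or_ge j 2 with h1 | h1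
  · obtain rfl : j = 1 := by omega
    unfold fr
    simp [A, p.d_pos]
  obtain ⟨i, rfl⟩ : ∃ i, j = i + 2 := ⟨j - 2, by omega⟩
  rcases Nat.lt_or_ge i p.n with h2 | h2
  · unfold fr
    rw [if_neg (by omega), if_neg (by omega), if_pos (by omega), if_neg (by omega),
      if_neg (by omega), if_pos (by omega), show i + 2 + 1 - 2 = i + 1 by omega,
      show i + 2 - 2 = i by omega, A_succ]
    linarith [p.a_pos h2]
  rcases Nat.eq_or_lt_of_le h2 with rfl | h3
  · unfold fr
    rw [if_neg (by omega), if_neg (by omega), if_pos (by omega), if_neg (by omega),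
      if_neg (by omega), if_neg (by omega), if_pos (by omega),
      show p.n + 2 - 2 = p.n by omega, A_n]
    have : p.l = p.d + p.w + p.y := rfl
    linarith [p.y_pos]
  rcases Nat.eq_or_lt_of_le h3 with h4 | h4
  · obtain rfl : i = p.n + 1 := by omega
    unfold fr
    rw [if_neg (by omega), if_neg (by omega), if_neg (by omega), if_pos (by omega),
      if_neg (by omega), if_neg (by omega), if_neg (by omega), if_neg (by omega),
      if_pos (by omega)]
    linarith [p.e_pos]
  · obtain rfl : i = p.n + 2 := by omega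
    unfold fr
    rw [if_neg (by omega), if_neg (by omega), if_neg (by omega), if_neg (by omega),
      if_pos (by omega),
      if_neg (by omega), if_neg (by omega), if_neg (by omega), if_neg (by omega),
      if_neg (by omega)]
    linarith [p.b_pos]

theorem fin_straight : Straight (p.n + 6) (fin p J) := by
  intro j hj
  have h1 := fr_lt (p := p) (j := j) (by omega)
  have h2 := fr_lt (p := p) (j := j + 1) (by omega)
  rw [fin_eq, fin_eq, fin_eq]
  unfold EuclideanGeometry.angle
  rw [vsub_eq_sub, vsub_eq_sub]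
  have e1 : (⟨40 * p.w, 2 * p.w⟩ : ℂ) - (fr p j : ℝ) - (⟨40 * p.w, 2 * p.w⟩ - (fr p (j + 1) : ℝ)) =
      (fr p (j + 1) - fr p j) • (1 : ℂ) := by
    rw [Complex.real_smul]; push_cast; ring
  have e2 : (⟨40 * p.w, 2 * p.w⟩ : ℂ) - (fr p (j + 2) : ℝ) -
      (⟨40 * p.w, 2 * p.w⟩ - (fr p (j + 1) : ℝ)) = (fr p (j + 2) - fr p (j + 1)) • (-1 : ℂ) := by
    rw [Complex.real_smul]; push_cast; ring
  rw [e1, e2, InnerProductGeometry.angle_smul_left_of_pos _ _ (by linarith),
    InnerProductGeometry.angle_smul_right_of_pos _ _ (by linarith)]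
  exact InnerProductGeometry.angle_self_neg_of_nonzero one_ne_zero

/-! ### Gluing -/

theorem joinedY (hJ : p.Sol J) : JoinedIn p.FS p.A0 (fin p J) := by
  obtain ⟨θ, hθ⟩ := exists_near p
  have hε := p.ε_pos
  have hw := p.w_pos
  have hεw := p.ε_lt_w
  have hℓ := p.ℓ_ge θ
  have hℓ' := hθ.ℓ_le
  have hh := p.h_eq
  have hx : p.x0 = p.ε / 16 := rfl
  have hX3 : X3 p = p.x0 + (p.h + 2 * p.ε) := rfl
  have he := p.e_pos
  have hb := p.b_pos
  have hele := p.e_le
  have hble := p.b_le
  -- phase 1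
  have j1 : JoinedIn p.FS (p.cfg J p.T0 ω 0 (-(κ1 p)) (-(κ3 p)))
      (p.cfg J p.T0 ω θ (-(κ1 p)) (-(κ3 p))) := by
    refine joined_of (f := fun t => p.cfg J p.T0 ω t (-(κ1 p)) (-(κ3 p))) hθ.1 ?_ ?_
    · exact cfg_continuousOn continuousOn_const continuousOn_const continuousOn_id
        continuousOn_const continuousOn_const
    · intro t ht
      exact phase1 (Or.inl hJ) ht.1 (ht.2.trans_lt hθ.2.1)
  -- phase 2
  have hcos0 : Real.cos (Real.arccos (4 / 5)) = 4 / 5 := Real.cos_arccos (by norm_num) (by norm_num)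
  have hsin0 : Real.sin (Real.arccos (4 / 5)) = 3 / 5 := by
    rw [Real.sin_arccos]
    rw [show (1 : ℝ) - (4 / 5) ^ 2 = (3 / 5) ^ 2 by norm_num]
    exact Real.sqrt_sq (by norm_num)
  have j2 : JoinedIn p.FS (p.cfg J p.T0 ω θ (-(κ1 p)) (-(κ3 p)))
      (p.cfg J ⟨X3 p, p.x0⟩ (-1) θ (-(κ1 p)) (-(κ3 p))) := by
    have h := joined_of (F := p.FS)
      (f := fun β => p.cfg J (T2 p β) ⟨Real.cos β, Real.sin β⟩ θ (-(κ1 p)) (-(κ3 p)))
      (Real.arccos_le_pi (4 / 5)) ?_ ?_
    · have e1 : T2 p (Real.arccos (4 / 5)) = p.T0 := by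
        unfold T2
        rw [hcos0, max_eq_left (by norm_num), mul_zero, add_zero]
        rfl
      have e2 : T2 p Real.pi = ⟨X3 p, p.x0⟩ := by
        unfold T2
        rw [Real.cos_pi, neg_neg, max_eq_right (by norm_num), mul_one]
        rfl
      have e3 : (⟨Real.cos Real.pi, Real.sin Real.pi⟩ : ℂ) = -1 := by
        apply Complex.ext <;> simp
      have e4 : (⟨Real.cos (Real.arccos (4 / 5)), Real.sin (Real.arccos (4 / 5))⟩ : ℂ) = ω := by
        rw [hcos0, hsin0]; rfl
      simp only [e1, e2, e3, e4] at h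
      exact h
    · apply cfg_continuousOn
      · apply Continuous.continuousOn
        have : T2 p = fun β => ((p.x0 + (p.h + 2 * p.ε) * max 0 (-Real.cos β) : ℝ) : ℂ) +
            (p.x0 : ℂ) * Complex.I := by
          funext β
          unfold T2
          apply Complex.ext <;> simp
        rw [this]
        have hc : Continuous fun β : ℝ => p.x0 + (p.h + 2 * p.ε) * max 0 (-Real.cos β) := by
          fun_prop
        exact (Complex.continuous_ofReal.comp hc).add continuous_const
      · apply Continuous.continuousOn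
        have : (fun β : ℝ => (⟨Real.cos β, Real.sin β⟩ : ℂ)) = fun β : ℝ =>
            ((Real.cos β : ℝ) : ℂ) + ((Real.sin β : ℝ) : ℂ) * Complex.I := by
          funext β
          apply Complex.ext <;>
            simp only [Complex.add_re, Complex.add_im, Complex.ofReal_re, Complex.ofReal_im,
              Complex.mul_re, Complex.mul_im, Complex.I_re, Complex.I_im] <;> ring
        rw [this]
        exact (Complex.continuous_ofReal.comp Real.continuous_cos).add
          ((Complex.continuous_ofReal.comp Real.continuous_sin).mul continuous_const)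
      · exact continuousOn_const
      · exact continuousOn_const
      · exact continuousOn_const
    · intro β hβ
      have hβ0 : 0 ≤ β := (Real.arccos_nonneg _).trans hβ.1
      refine phase2 hJ hθ hβ.2 ?_ (Real.sin_nonneg_of_nonneg_of_le_pi hβ0 hβ.2) ?_ hβ0
      · rw [← hcos0]
        exact Real.cos_le_cos_of_nonneg_of_le_pi (Real.arccos_nonneg _) hβ.2 hβ.1
      · intro hc
        have hc' : Real.cos β ≤ 4 / 5 := by
          rw [← hcos0]
          exact Real.cos_le_cos_of_nonneg_of_le_pi (Real.arccos_nonneg _) hβ.2 hβ.1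
        have hs := Real.sin_nonneg_of_nonneg_of_le_pi hβ0 hβ.2
        have := Real.cos_sq_add_sin_sq β
        by_contra hne
        push Not at hne
        nlinarith
  -- phase 3
  have hα0 : 0 ≤ Complex.arg (κ1 p) := by
    rw [Complex.arg_nonneg_iff, κ1_im]; exact p.k2_pos.le
  have hαpi : Complex.arg (κ1 p) ≤ Real.pi := Complex.arg_le_pi _
  have hcosα : 0 ≤ Real.cos (Complex.arg (κ1 p)) := by
    have h := congrArg Complex.re (κ1_polar (p := p))
    rw [κ1_re, Complex.re_ofReal_mul, Complex.exp_ofReal_mul_I_re] at h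
    have h2 := p.k1_pos
    rw [h] at h2
    exact ((mul_pos_iff_of_pos_left p.e_pos).1 h2).le
  have j3 : JoinedIn p.FS (p.cfg J ⟨X3 p, p.x0⟩ (-1) θ (-(κ1 p)) (-(κ3 p)))
      (p.cfg J ⟨X3 p + p.e, p.x0⟩ (-1) θ p.e (p.e - κv p)) := by
    have h := joined_of (F := p.FS) (a := 0) (b := Real.pi - Complex.arg (κ1 p))
      (f := fun φ : ℝ => p.cfg J ⟨X3 p + max 0 (-(p.e * Real.cos (φ + Complex.arg (κ1 p)))), p.x0⟩
        (-1) θ (-(Complex.exp (φ * Complex.I) * κ1 p)) (-(Complex.exp (φ * Complex.I) * κ3 p)))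
      (by linarith) ?_ ?_
    · have e1 : X3 p + max 0 (-(p.e * Real.cos (0 + Complex.arg (κ1 p)))) = X3 p := by
        rw [zero_add, max_eq_left (by have := mul_nonneg he.le hcosα; linarith), add_zero]
      have e2 : X3 p + max 0 (-(p.e * Real.cos (Real.pi - Complex.arg (κ1 p) +
          Complex.arg (κ1 p)))) = X3 p + p.e := by
        rw [sub_add_cancel, Real.cos_pi, mul_neg, mul_one, neg_neg, max_eq_right he.le]
      have e3 : Complex.exp (((Real.pi - Complex.arg (κ1 p) : ℝ) : ℂ) * Complex.I) =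
          -Complex.exp ((-Complex.arg (κ1 p) : ℝ) * Complex.I) := by
        push_cast
        rw [sub_mul, Complex.exp_sub, Complex.exp_pi_mul_I, neg_mul, Complex.exp_neg]
        rw [neg_div, one_div]
      have e4 : -(Complex.exp (((Real.pi - Complex.arg (κ1 p) : ℝ) : ℂ) * Complex.I) * κ1 p) =
          p.e := by
        rw [e3, neg_mul, neg_neg, κ1_rot]
      have e5 : -(Complex.exp (((Real.pi - Complex.arg (κ1 p) : ℝ) : ℂ) * Complex.I) * κ3 p) =
          p.e - κv p := by
        rw [e3, neg_mul, neg_neg, ← κ1_rot]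
        unfold κv
        ring
      simp only [e1, e2, e4, e5] at h
      simpa using h
    · apply cfg_continuousOn
      · apply Continuous.continuousOn
        have : (fun φ : ℝ => (⟨X3 p + max 0 (-(p.e * Real.cos (φ + Complex.arg (κ1 p)))), p.x0⟩ : ℂ)) =
            fun φ : ℝ => ((X3 p + max 0 (-(p.e * Real.cos (φ + Complex.arg (κ1 p)))) : ℝ) : ℂ) +
            (p.x0 : ℂ) * Complex.I := by
          funext β
          apply Complex.ext <;> simp
        rw [this]
        have hc : Continuous fun φ : ℝ => X3 p + max 0 (-(p.e * Real.cos (φ +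
            Complex.arg (κ1 p)))) := by
          fun_prop
        exact (Complex.continuous_ofReal.comp hc).add continuous_const
      · exact continuousOn_const
      · exact continuousOn_const
      · fun_prop
      · fun_prop
    · intro φ hφ
      exact phase3 hJ hθ hφ.1 hφ.2
  -- phase 4
  have j4 : JoinedIn p.FS (p.cfg J ⟨X3 p + p.e, p.x0⟩ (-1) θ p.e (p.e - κv p))
      (p.cfg J ⟨X3 p + p.e + p.b, p.x0⟩ (-1) θ p.e (p.e + p.b)) := by
    have h := joined_of (F := p.FS) (a := γ p) (b := Real.pi)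
      (f := fun ψ : ℝ => p.cfg J ⟨X3 p + p.e + max 0 (-(p.b * Real.cos ψ)), p.x0⟩
        (-1) θ p.e (p.e - p.b * Complex.exp (ψ * Complex.I)))
      (by linarith [γ_lt (p := p), Real.pi_pos]) ?_ ?_
    · have e1 : X3 p + p.e + max 0 (-(p.b * Real.cos (γ p))) = X3 p + p.e := by
        rw [max_eq_left (by have := mul_nonneg hb.le (cos_γ (p := p)).le; linarith), add_zero]
      have e2 : X3 p + p.e + max 0 (-(p.b * Real.cos Real.pi)) = X3 p + p.e + p.b := by
        rw [Real.cos_pi, mul_neg, mul_one, neg_neg, max_eq_right hb.le]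
      have e3 : (p.e : ℂ) - p.b * Complex.exp (Real.pi * Complex.I) = p.e + p.b := by
        rw [Complex.exp_pi_mul_I]; ring
      have e4 : (p.e : ℂ) - p.b * Complex.exp (γ p * Complex.I) = p.e - κv p := by
        rw [← κv_polar]
      simp only [e1, e2, e3, e4] at h
      exact h
    · apply cfg_continuousOn
      · apply Continuous.continuousOn
        have : (fun ψ : ℝ => (⟨X3 p + p.e + max 0 (-(p.b * Real.cos ψ)), p.x0⟩ : ℂ)) =
            fun ψ : ℝ => ((X3 p + p.e + max 0 (-(p.b * Real.cos ψ)) : ℝ) : ℂ) +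
            (p.x0 : ℂ) * Complex.I := by
          funext β
          apply Complex.ext <;> simp
        rw [this]
        have hc : Continuous fun ψ : ℝ => X3 p + p.e + max 0 (-(p.b * Real.cos ψ)) := by
          fun_prop
        exact (Complex.continuous_ofReal.comp hc).add continuous_const
      · exact continuousOn_const
      · exact continuousOn_const
      · exact continuousOn_const
      · fun_prop
    · intro ψ hψ
      exact phase4 hJ hθ hψ.1 hψ.2
  -- phase 5
  have j5 : JoinedIn p.FS (p.cfg J ⟨X3 p + p.e + p.b, p.x0⟩ (-1) θ p.e (p.e + p.b))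
      (p.cfg J ⟨40 * p.w, 2 * p.w⟩ (-1) θ p.e (p.e + p.b)) := by
    have h := joined_of (F := p.FS) (a := 0) (b := 1)
      (f := fun t : ℝ => p.cfg J ⟨(X3 p + p.e + p.b) + t * (40 * p.w - (X3 p + p.e + p.b)),
        p.x0 + t * (2 * p.w - p.x0)⟩ (-1) θ p.e (p.e + p.b)) zero_le_one ?_ ?_
    · simpa using h
    · apply cfg_continuousOn
      · apply Continuous.continuousOn
        have : (fun t : ℝ => (⟨(X3 p + p.e + p.b) + t * (40 * p.w - (X3 p + p.e + p.b)),
            p.x0 + t * (2 * p.w - p.x0)⟩ : ℂ)) =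
            fun t : ℝ => (((X3 p + p.e + p.b) + t * (40 * p.w - (X3 p + p.e + p.b)) : ℝ) : ℂ) +
            ((p.x0 + t * (2 * p.w - p.x0) : ℝ) : ℂ) * Complex.I := by
          funext β
          apply Complex.ext <;>
            simp only [Complex.add_re, Complex.add_im, Complex.ofReal_re, Complex.ofReal_im,
              Complex.mul_re, Complex.mul_im, Complex.I_re, Complex.I_im] <;> ring
        rw [this]
        have hc : Continuous fun t : ℝ => (X3 p + p.e + p.b) + t * (40 * p.w -
            (X3 p + p.e + p.b)) := by fun_prop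
        have hc' : Continuous fun t : ℝ => p.x0 + t * (2 * p.w - p.x0) := by fun_prop
        exact (Complex.continuous_ofReal.comp hc).add
          ((Complex.continuous_ofReal.comp hc').mul continuous_const)
      · exact continuousOn_const
      · exact continuousOn_const
      · exact continuousOn_const
      · exact continuousOn_const
    · intro t ht
      obtain ⟨ht0, ht1⟩ := ht
      have b1 : 0 ≤ t * (40 * p.w - (X3 p + p.e + p.b)) := mul_nonneg ht0 (by rw [hX3, hx]; linarith)
      have b2 : t * (40 * p.w - (X3 p + p.e + p.b)) ≤ 1 * (40 * p.w - (X3 p + p.e + p.b)) :=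
        mul_le_mul_of_nonneg_right ht1 (by rw [hX3, hx]; linarith)
      have b3 : 0 ≤ t * (2 * p.w - p.x0) := mul_nonneg ht0 (by rw [hx]; linarith)
      have b4 : t * (2 * p.w - p.x0) ≤ 1 * (2 * p.w - p.x0) :=
        mul_le_mul_of_nonneg_right ht1 (by rw [hx]; linarith)
      apply phase5 hJ hθ.1 hθ.2.1
      · have : p.ℓ θ < X3 p := by rw [hX3, hx]; linarith
        linarith
      · linarith
      · linarith [p.x0_pos]
      · linarith
      · intro i hi
        have := hθ.zJ_lt hJ hi
        linarith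
  -- phase 6
  have j6 : JoinedIn p.FS (p.cfg J ⟨40 * p.w, 2 * p.w⟩ (-1) 0 p.e (p.e + p.b))
      (p.cfg J ⟨40 * p.w, 2 * p.w⟩ (-1) θ p.e (p.e + p.b)) := by
    refine joined_of (f := fun t : ℝ => p.cfg J ⟨40 * p.w, 2 * p.w⟩ (-1) t p.e (p.e + p.b))
      hθ.1 ?_ ?_
    · exact cfg_continuousOn continuousOn_const continuousOn_const continuousOn_id
        continuousOn_const continuousOn_const
    · intro t ht
      have hℓt := p.ℓ_le t
      have hl : p.l = 12 * p.w - 2 * p.tt - p.ε := p.l_eq
      have htt := p.tt_pos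
      apply phase5 hJ ht.1 (ht.2.trans_lt hθ.2.1) <;> try linarith
      intro i hi
      obtain ⟨a1, a2, a3, a4, a5⟩ := zJ_bounds hJ
        (Real.sin_nonneg_of_nonneg_of_le_pi ht.1 (ht.2.trans hθ.2.1.le)) hi
      linarith
  have h0 : p.A0 = p.cfg J p.T0 ω 0 (-(κ1 p)) (-(κ3 p)) := by
    rw [κ1, κ3, ← A0_eq]
  rw [h0]
  exact ((((j1.trans j2).trans j3).trans j4).trans j5).trans j6.symm

end Par

theorem y_main : S_Y := by
  intro p J hJ hsum
  exact ⟨Par.fin p J, Par.joinedY (Par.sol_of hJ hsum), Par.fin_straight⟩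

theorem a0_main : S_A0 := fun p => Par.A0_mem p

end Pool.Agent.H263_NU
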