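import Pool.Agent.H263_NU.YCfg

/-!
# The positions stay in the triangle
-/

namespace Pool.Agent.H263_NU

open Finset

namespace Par

variable {p : Par} {J : Finset ℕ}

theorem mem_tri {X Y c s : ℝ} {z : ℂ} : (⟨X, Y⟩ + ⟨c, s⟩ * z : ℂ) ∈ Tri p.h p.η ↔
    0 < X + (c * z.re - s * z.im) ∧ 0 < Y + (c * z.im + s * z.re) ∧
      Y + (c * z.im + s * z.re) + p.η * (X + (c * z.re - s * z.im)) < p.h := by
  unfold Tri
  simp only [Set.mem_ofPred_eq, Complex.add_re, Complex.mul_re, Complex.add_im, Complex.mul_im]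

/-- a vertex `J_i` in the frame -/
noncomputable def zJ (p : Par) (J : Finset ℕ) (θ : ℝ) (i : ℕ) : ℂ :=
  (p.d + p.pp J i : ℝ) + (p.nn J i : ℝ) * Complex.exp (θ * Complex.I)

theorem zJ_re (θ : ℝ) (i : ℕ) : (zJ p J θ i).re = p.d + p.pp J i + p.nn J i * Real.cos θ := by
  unfold zJ
  rw [Complex.exp_mul_I]
  simp [← Complex.ofReal_cos, ← Complex.ofReal_sin]

theorem zJ_im (θ : ℝ) (i : ℕ) : (zJ p J θ i).im = p.nn J i * Real.sin θ := by
  unfold zJ
  rw [Complex.exp_mul_I]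
  simp [← Complex.ofReal_cos, ← Complex.ofReal_sin]

theorem zJ_bounds (hJ : p.Sol J) {θ : ℝ} (h0 : 0 ≤ Real.sin θ) {i : ℕ} (hi : i ≤ p.n) :
    4 * p.w ≤ (zJ p J θ i).re ∧ (zJ p J θ i).re ≤ 8 * p.w ∧ 0 ≤ (zJ p J θ i).im ∧
      (zJ p J θ i).im ≤ (p.w - p.tt) * Real.sin θ ∧ (zJ p J θ i).im ≤ p.w := by
  rw [zJ_re, zJ_im]
  have h1 := p.pp_nonneg J hi
  have h2 := p.nn_nonneg J hi
  have h3 := p.pp_mono J hi
  have h4 := p.nn_mono J hi
  rw [hJ] at h3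
  rw [hJ.nn] at h4
  have h5 := Real.cos_le_one θ
  have h6 := Real.neg_one_le_cos θ
  have h7 := Real.sin_le_one θ
  have h8 := p.d_eq
  have h9 := p.tt_pos
  have h10 := p.tt_lt'
  have h11 := p.ε_lt_w
  have h12 := p.ε_pos
  refine ⟨?_, ?_, ?_, ?_, ?_⟩
  · nlinarith
  · nlinarith
  · exact mul_nonneg h2 h0
  · exact mul_le_mul_of_nonneg_right h4 h0
  · nlinarith

/-- It is enough to look at all vertices. -/
theorem cfg_tri {T ω : ℂ} {θ : ℝ} {q s : ℂ} (h0 : T + p.m ∈ Tri p.h p.η)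
    (h1 : T ∈ Tri p.h p.η) (hJ : ∀ i ≤ p.n, T + ω * zJ p J θ i ∈ Tri p.h p.η)
    (hP : T + ω * (p.ℓ θ : ℝ) ∈ Tri p.h p.η) (hQ : T + ω * ((p.ℓ θ : ℝ) + q) ∈ Tri p.h p.η)
    (hS : T + ω * ((p.ℓ θ : ℝ) + s) ∈ Tri p.h p.η) :
    ∀ j < p.n + 6, p.cfg J T ω θ q s j ∈ Tri p.h p.η := by
  intro j hj
  rcases Nat.eq_zero_or_pos j with rfl | h2
  · rwa [cfg_0]
  rcases Nat.lt_or_ge j 2 with h3 | h3
  · obtain rfl : j = 1 := by omega
    rwa [cfg_1]
  obtain ⟨i, rfl⟩ : ∃ i, j = i + 2 := ⟨j - 2, by omega⟩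
  rcases Nat.lt_or_ge p.n i with h4 | h4
  · obtain rfl | rfl | rfl : i = p.n + 1 ∨ i = p.n + 2 ∨ i = p.n + 3 := by omega
    · rw [show p.n + 1 + 2 = p.n + 3 by ring, cfg_P]; exact hP
    · rw [show p.n + 2 + 2 = p.n + 4 by ring, cfg_Q]; exact hQ
    · rw [show p.n + 3 + 2 = p.n + 5 by ring, cfg_S]; exact hS
  · rw [cfg_J _ _ _ _ _ h4]
    exact hJ i h4

/-- points far right are fine at small heights -/
theorem tri_easy {z : ℂ} (h1 : 0 < z.re) (h2 : z.re ≤ 200 * p.w) (h3 : 0 < z.im)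
    (h4 : z.im ≤ 9 * p.w) : z ∈ Tri p.h p.η := by
  refine ⟨h1, h3, ?_⟩
  have := p.η_le
  have := p.w_pos
  have h5 : p.η * z.re ≤ p.η * (200 * p.w) := mul_le_mul_of_nonneg_left h2 p.η_pos.le
  rw [h_eq]
  nlinarith

/-! ### Phase 1 -/

theorem tri1 {z : ℂ} (h1 : 4 * p.w ≤ z.re) (h2 : z.re ≤ 12 * p.w) (h3 : -p.ε ≤ z.im)
    (h4 : z.im ≤ p.w) : p.T0 + ω * z ∈ Tri p.h p.η := by
  have e1 := p.ε_lt_w
  have e2 := p.ε_pos
  have e3 := p.w_pos
  apply tri_easy <;> simp [T0, ω, x0] <;> nlinarith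

theorem tri1Q {z : ℂ} (h1 : p.ε ≤ z.re) (h2 : z.re ≤ 3 * p.w) (h3 : z.im = -p.k2) :
    p.T0 + ω * z ∈ Tri p.h p.η := by
  have e1 := p.ε_lt_w
  have e2 := p.ε_pos
  have e3 := p.w_pos
  have e4 : p.k2 = p.ε / 4 := rfl
  apply tri_easy <;> simp [T0, ω, x0, h3, e4] <;> nlinarith

/-! ### Phase 2 -/

theorem cs_bound {c s : ℝ} (hcs : c ^ 2 + s ^ 2 = 1) : s + p.η * c ≤ 1 + p.η ^ 2 / 2 := by
  have h1 : (s + p.η * c) ^ 2 ≤ (1 + p.η ^ 2 / 2) ^ 2 := by
    nlinarith [sq_nonneg (p.η * s - c), sq_nonneg (p.η ^ 2)]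
  exact (le_abs_self _).trans (abs_le_of_sq_le_sq h1 (by positivity))

theorem tri2 {c s : ℝ} (hcs : c ^ 2 + s ^ 2 = 1) (hs : 0 ≤ s) (hc : c ≤ 4 / 5)
    (hs' : 0 ≤ c → 3 / 5 ≤ s) {z : ℂ} (h1 : 0 ≤ z.re) (h2 : z.re ≤ p.h - 9 / 10 * p.ε)
    (h3 : z.im ≤ p.x0 / 4) (h4 : -(p.ε / 4) ≤ z.im) (h5 : -(4 * z.im) ≤ 3 * z.re)
    (h6 : z.re - z.im ≤ p.h - 6 / 10 * p.ε) :
    (⟨p.x0 + (p.h + 2 * p.ε) * max 0 (-c), p.x0⟩ + ⟨c, s⟩ * z : ℂ) ∈ Tri p.h p.η := by
  rw [mem_tri]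
  have hε := p.ε_pos
  have hη := p.η_pos
  have hη1 := p.η_le
  have hx : p.x0 = p.ε / 16 := rfl
  have hs1 : s ≤ 1 := by nlinarith
  have hεdef : p.h * p.η ^ 2 = p.ε := rfl
  have hh := p.h_pos
  set U := z.re
  set V := z.im
  have hηε : p.η * p.ε ≤ p.ε / 1000 := by nlinarith
  rcases le_or_gt 0 c with hc0 | hc0
  · rw [max_eq_left (by linarith)]
    have h7 := hs' hc0
    have hb := cs_bound (p := p) hcs
    have h8 : U * (s + p.η * c) ≤ U * (1 + p.η ^ 2 / 2) := mul_le_mul_of_nonneg_left hb h1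
    have h9 : U * p.η ^ 2 ≤ p.ε := by
      rw [← hεdef]; exact mul_le_mul_of_nonneg_right (by linarith) (by positivity)
    refine ⟨?_, ?_, ?_⟩
    · have : 0 ≤ c * U := mul_nonneg hc0 h1
      rcases le_or_gt 0 V with hV | hV
      · nlinarith
      · nlinarith
    · rcases le_or_gt 0 V with hV | hV
      · have := mul_nonneg hs h1
        have := mul_nonneg hc0 hV
        linarith
      · have : 3 / 5 * U ≤ s * U := mul_le_mul_of_nonneg_right h7 h1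
        have : 4 / 5 * V ≤ c * V := by nlinarith
        linarith
    · have h10 : c * V - p.η * (s * V) ≤ p.x0 / 4 + p.η * (p.ε / 4) := by
        rcases le_or_gt 0 V with hV | hV
        · have : c * V ≤ 1 * V := mul_le_mul_of_nonneg_right (by linarith) hV
          have : 0 ≤ p.η * (s * V) := mul_nonneg hη.le (mul_nonneg hs hV)
          have : 0 ≤ p.η * (p.ε / 4) := by positivity
          linarith
        · have h11 : c * V ≤ 0 := mul_nonpos_of_nonneg_of_nonpos hc0 hV.le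
          have h12 : -(s * V) ≤ p.ε / 4 := by nlinarith
          have h13 : p.η * (-(s * V)) ≤ p.η * (p.ε / 4) := mul_le_mul_of_nonneg_left h12 hη.le
          have : 0 ≤ p.x0 / 4 := by rw [hx]; positivity
          linarith
      have h14 : p.x0 + (c * V + s * U) + p.η * (p.x0 + (p.h + 2 * p.ε) * 0 + (c * U - s * V)) =
          p.x0 * (1 + p.η) + U * (s + p.η * c) + (c * V - p.η * (s * V)) := by ring
      have h15 : p.x0 + (p.h + 2 * p.ε) * 0 = p.x0 := by ring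
      rw [h14]
      rw [hx] at h10 ⊢
      nlinarith
  · rw [max_eq_right (by linarith)]
    have hc1 : -c ≤ 1 := by nlinarith
    refine ⟨?_, ?_, ?_⟩
    · have h7 : p.x0 + (p.h + 2 * p.ε) * -c + (c * U - s * V) =
          p.x0 + (-c) * (p.h + 2 * p.ε - U) - s * V := by ring
      rw [h7]
      have : 0 ≤ (-c) * (p.h + 2 * p.ε - U) := mul_nonneg (by linarith) (by linarith)
      rcases le_or_gt 0 V with hV | hV
      · nlinarith
      · nlinarith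
    · have : 0 ≤ s * U := mul_nonneg hs h1
      rcases le_or_gt 0 V with hV | hV
      · nlinarith
      · nlinarith
    · have h7 : p.x0 + (c * V + s * U) + p.η * (p.x0 + (p.h + 2 * p.ε) * -c + (c * U - s * V)) =
          p.x0 * (1 + p.η) + s * U + c * V + p.η * ((-c) * (p.h + 2 * p.ε - U)) - p.η * (s * V) := by
        ring
      rw [h7]
      have h8 : s * U ≤ 1 * U := mul_le_mul_of_nonneg_right hs1 h1
      have h9 : (-c) * (p.h + 2 * p.ε - U) ≤ 1 * (p.h + 2 * p.ε - U) :=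
        mul_le_mul_of_nonneg_right hc1 (by linarith)
      rw [one_mul] at h8 h9
      have h10 : p.η * ((-c) * (p.h + 2 * p.ε - U)) ≤ p.η * (p.h + 2 * p.ε - U) :=
        mul_le_mul_of_nonneg_left h9 hη.le
      rcases le_or_gt 0 V with hV | hV
      · have h11 : c * V ≤ 0 := mul_nonpos_of_nonpos_of_nonneg hc0.le hV
        have h12 : 0 ≤ p.η * (s * V) := mul_nonneg hη.le (mul_nonneg hs hV)
        have h13 : (1 - p.η) * (9 / 10 * p.ε) ≤ (1 - p.η) * (p.h - U) :=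
          mul_le_mul_of_nonneg_left (by linarith) (by linarith)
        rw [hx]
        nlinarith
      · have h11 : c * V ≤ -V := by nlinarith
        have h12 : -(s * V) ≤ p.ε / 4 := by nlinarith
        have h13 : p.η * (-(s * V)) ≤ p.η * (p.ε / 4) := mul_le_mul_of_nonneg_left h12 hη.le
        have h14 : (1 - p.η) * (6 / 10 * p.ε) ≤ (1 - p.η) * (p.h - (U - V)) :=
          mul_le_mul_of_nonneg_left (by linarith) (by linarith)
        have h15 : p.η * (-V) ≤ p.η * (p.ε / 4) := mul_le_mul_of_nonneg_left (by linarith) hη.le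
        rw [hx]
        nlinarith

/-! ### The other phases: `ω = -1` -/

theorem tri3 {X Y : ℝ} {z : ℂ} (h1 : z.re < X) (h2 : X - z.re ≤ 200 * p.w) (h3 : z.im < Y)
    (h4 : Y - z.im ≤ 9 * p.w) : (⟨X, Y⟩ + (-1) * z : ℂ) ∈ Tri p.h p.η := by
  apply tri_easy <;> simp <;> linarith

theorem tri_rot {X ρ c s : ℝ} (hρ : ρ ≤ p.h - 19 / 10 * p.ε) (hρ0 : 0 ≤ ρ)
    (hcs : c ^ 2 + s ^ 2 = 1) (hs : 0 ≤ s)
    (hX0 : 0 < X) (hX1 : X ≤ 10 * p.ε) {z : ℂ} (hre : z.re = X + max 0 (ρ * c))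
    (him : z.im = p.x0 + ρ * s) : z ∈ Tri p.h p.η := by
  have hε := p.ε_pos
  have hη := p.η_pos
  have hη1 := p.η_le
  have hx : p.x0 = p.ε / 16 := rfl
  have hs1 : s ≤ 1 := by nlinarith
  have hεdef : p.h * p.η ^ 2 = p.ε := rfl
  have hh := p.h_pos
  have hηε : p.η * p.ε ≤ p.ε / 1000 := by nlinarith
  refine ⟨?_, ?_, ?_⟩
  · rw [hre]
    have := le_max_left 0 (ρ * c)
    linarith
  · rw [him]
    have := mul_nonneg hρ0 hs
    linarith [p.x0_pos]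
  · rw [hre, him]
    rcases le_or_gt 0 c with hc | hc
    · rw [max_eq_right (mul_nonneg hρ0 hc)]
      have hb := cs_bound (p := p) hcs
      have h8 : ρ * (s + p.η * c) ≤ ρ * (1 + p.η ^ 2 / 2) := mul_le_mul_of_nonneg_left hb hρ0
      have h9 : ρ * p.η ^ 2 ≤ p.ε := by
        rw [← hεdef]; exact mul_le_mul_of_nonneg_right (by linarith) (by positivity)
      have h10 : p.η * X ≤ p.η * (10 * p.ε) := mul_le_mul_of_nonneg_left hX1 hη.le
      rw [hx]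
      nlinarith
    · rw [max_eq_left (mul_nonpos_of_nonneg_of_nonpos hρ0 hc.le)]
      have h10 : p.η * X ≤ p.η * (10 * p.ε) := mul_le_mul_of_nonneg_left hX1 hη.le
      have h11 : ρ * s ≤ ρ := by nlinarith
      rw [hx]
      nlinarith

end Par

end Pool.Agent.H263_NU
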